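import Pool.Agent.LBU.Dxk
import Pool.Agent.LBL.Tra

/-!
# Project LBU (architect helper40), module Coh: from the vanishing of the homology to the vanishing of
the cohomology, and to the cubical complex
-/

namespace LBL

open SCG SNG SCS Finset
open scoped InnerProductSpace

section zig

variable {H : Type} [NormedAddCommGroup H] [NormedSpace ℝ H]

/-- Exactness of the kernel of `P` with bounds. -/
theorem zigq_ex {C F : ℕ → Submodule ℝ H} {d P K : H →L[ℝ] H} {m : ℕ}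
    (hdC : ∀ j, ∀ x ∈ C (j + 1), d x ∈ C j) (hdd : ∀ x, d (d x) = 0)
    (hKC : ∀ j, ∀ x ∈ C j, K x ∈ C (j + 1))
    (hstep : ∀ j p x, x ∈ C j → x ∈ F p → d x = 0 → P x = 0 → x - d (K x) ∈ F (p + 1))
    (hPK : ∀ x, P (K x) = 0) (hPd : ∀ j, ∀ x ∈ C j, P (d (P x)) = P (d x))
    (hFm : ∀ j x, x ∈ C j → x ∈ F m → x = 0) :
    ∀ n p, n + p = m → ∃ R : ℝ, 0 ≤ R ∧ ∀ j, ∀ x ∈ C j, x ∈ F p → d x = 0 → P x = 0 →
      ∃ b ∈ C (j + 1), P b = 0 ∧ d b = x ∧ ‖b‖ ≤ R * ‖x‖ := by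
  intro n
  induction n with
  | zero =>
    intro p hp
    refine ⟨0, le_rfl, fun j x hx hF _ _ => ⟨0, zero_mem _, map_zero _, ?_, ?_⟩⟩
    · rw [map_zero]
      refine (hFm j x hx ?_).symm
      rw [← hp, zero_add]
      exact hF
    · rw [norm_zero, zero_mul]
  | succ n ih =>
    intro p hp
    obtain ⟨R, hR, h⟩ := ih (p + 1) (by omega)
    refine ⟨‖K‖ + R * (1 + ‖d‖ * ‖K‖), by positivity, fun j x hx hF hdx hPx => ?_⟩
    have h1 := hstep j p x hx hF hdx hPx
    have h0 : P (x - d (K x)) = 0 := by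
      rw [map_sub, hPx, ← hPd (j + 1) _ (hKC j x hx), hPK, map_zero, map_zero, sub_zero]
    obtain ⟨b, hb, hPb, hdb, hbn⟩ := h j (x - d (K x))
      (Submodule.sub_mem _ hx (hdC j _ (hKC j x hx))) h1 (by rw [map_sub, hdx, hdd, sub_zero]) h0
    refine ⟨K x + b, Submodule.add_mem _ (hKC j x hx) hb, by rw [map_add, hPK, hPb, add_zero],
      by rw [map_add, hdb]; abel, ?_⟩
    have h2 : ‖K x‖ ≤ ‖K‖ * ‖x‖ := K.le_opNorm x
    have h3 : ‖d (K x)‖ ≤ ‖d‖ * (‖K‖ * ‖x‖) :=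
      (d.le_opNorm _).trans (mul_le_mul_of_nonneg_left h2 (norm_nonneg _))
    have h4 : ‖x - d (K x)‖ ≤ ‖x‖ + ‖d‖ * (‖K‖ * ‖x‖) :=
      (norm_sub_le _ _).trans (add_le_add_right h3 _)
    calc ‖K x + b‖ ≤ ‖K x‖ + ‖b‖ := norm_add_le _ _
      _ ≤ ‖K‖ * ‖x‖ + R * (‖x‖ + ‖d‖ * (‖K‖ * ‖x‖)) :=
          add_le_add h2 (hbn.trans (mul_le_mul_of_nonneg_left h4 hR))
      _ = _ := by ring

/-- Acyclicity of the quotient implies acyclicity. -/
theorem zigq {C F : ℕ → Submodule ℝ H} {d P K : H →L[ℝ] H} {m : ℕ}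
    (hdC : ∀ j, ∀ x ∈ C (j + 1), d x ∈ C j) (hd0 : ∀ x ∈ C 0, d x = 0) (hdd : ∀ x, d (d x) = 0)
    (hKC : ∀ j, ∀ x ∈ C j, K x ∈ C (j + 1))
    (hstep : ∀ j p x, x ∈ C j → x ∈ F p → d x = 0 → P x = 0 → x - d (K x) ∈ F (p + 1))
    (hPK : ∀ x, P (K x) = 0) (hPd : ∀ j, ∀ x ∈ C j, P (d (P x)) = P (d x))
    (hFm : ∀ j x, x ∈ C j → x ∈ F m → x = 0) (hF0 : ∀ x, x ∈ F 0)
    (hPC : ∀ j, ∀ x ∈ C j, P x ∈ C j) (hPP : ∀ x, P (P x) = P x)
    (j : ℕ) (hD : ∀ x ∈ C j, P x = x → P (d x) = 0 → ∀ ε : ℝ, 0 < ε →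
      ∃ h ∈ C (j + 1), P h = h ∧ ‖x - P (d h)‖ < ε) (x : H) (hx : x ∈ C j) (hdx : d x = 0)
    (ε : ℝ) (hε : 0 < ε) : ∃ h ∈ C (j + 1), ‖x - d h‖ < ε := by
  obtain ⟨R, hR, hex⟩ := zigq_ex (P := P) hdC hdd hKC hstep hPK hPd hFm m 0 (by rw [add_zero])
  -- exactness
  have hex' : ∀ j, ∀ x ∈ C j, d x = 0 → P x = 0 →
      ∃ b ∈ C (j + 1), P b = 0 ∧ d b = x ∧ ‖b‖ ≤ R * ‖x‖ := fun j x hx hdx hPx =>
    hex j x hx (hF0 x) hdx hPx
  obtain ⟨δ, hδ, hδε⟩ : ∃ δ : ℝ, 0 < δ ∧ δ * (1 + R * ‖d‖) ≤ ε := by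
    refine ⟨ε / (1 + R * ‖d‖), by positivity, ?_⟩
    rw [div_mul_cancel₀]
    positivity
  obtain ⟨χ, hχ, hPχ, hχn⟩ := hD (P x) (hPC j x hx) (hPP x) (by
    rw [hPd j x hx, hdx, map_zero]) δ hδ
  obtain ⟨z, hz⟩ : ∃ z, z = x - d χ := ⟨_, rfl⟩
  have hzC : z ∈ C j := by
    rw [hz]
    exact Submodule.sub_mem _ hx (hdC j _ hχ)
  have hdz : d z = 0 := by
    rw [hz, map_sub, hdx, hdd, sub_zero]
  have hPz : ‖P z‖ < δ := by
    rw [hz, map_sub]
    exact hχn
  -- a correction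
  obtain ⟨w, hw, hPw, hdw, hwn⟩ : ∃ w ∈ C j, P w = 0 ∧ d w = d (P z) ∧
      ‖w‖ ≤ R * (‖d‖ * ‖P z‖) := by
    cases j with
    | zero =>
      refine ⟨0, zero_mem _, map_zero _, ?_, ?_⟩
      · rw [map_zero, hd0 _ (hPC 0 z hzC)]
      · rw [norm_zero]
        positivity
    | succ j =>
      obtain ⟨w, h1, h2, h3, h4⟩ := hex' j (d (P z)) (hdC j _ (hPC _ z hzC)) (hdd _) (by
        rw [hPd _ z hzC, hdz, map_zero])
      exact ⟨w, h1, h2, h3, h4.trans (mul_le_mul_of_nonneg_left (d.le_opNorm _) hR)⟩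
  obtain ⟨b, hb, -, hdb, -⟩ := hex' j (z - P z + w)
    (Submodule.add_mem _ (Submodule.sub_mem _ hzC (hPC j z hzC)) hw)
    (by rw [map_add, map_sub, hdz, hdw]; abel) (by rw [map_add, map_sub, hPP, hPw]; abel)
  refine ⟨χ + b, Submodule.add_mem _ hχ hb, ?_⟩
  have h1 : x - d (χ + b) = P z - w := by
    rw [map_add, hdb, hz]
    abel
  rw [h1]
  calc ‖P z - w‖ ≤ ‖P z‖ + ‖w‖ := norm_sub_le _ _
    _ ≤ ‖P z‖ + R * (‖d‖ * ‖P z‖) := add_le_add_right hwn _
    _ = ‖P z‖ * (1 + R * ‖d‖) := by ring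
    _ < δ * (1 + R * ‖d‖) := mul_lt_mul_of_pos_right hPz (by positivity)
    _ ≤ ε := hδε

end zig

section inn

variable {I Γ : Type} [Fintype I]

theorem ell_sm (f h : L2 I Γ) (i j : I) : Summable fun g => f (i, g) * h (j, g) := by
  have h1 : Summable fun g => f (i, g) ^ 2 :=
    (ell_summable f).comp_injective (i := fun g : Γ => (i, g)) fun a b hab => congrArg Prod.snd hab
  have h2 : Summable fun g => h (j, g) ^ 2 :=
    (ell_summable h).comp_injective (i := fun g : Γ => (j, g)) fun a b hab => congrArg Prod.snd hab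
  refine Summable.of_abs ?_
  refine Summable.of_nonneg_of_le (fun g => abs_nonneg _) (fun g => ?_) (h1.add h2)
  have h3 : |f (i, g)| ^ 2 = f (i, g) ^ 2 := sq_abs _
  have h4 : |h (j, g)| ^ 2 = h (j, g) ^ 2 := sq_abs _
  rw [abs_mul]
  nlinarith [abs_nonneg (f (i, g)), abs_nonneg (h (j, g)), sq_nonneg (|f (i, g)| - |h (j, g)|)]

theorem inner_fin (f h : L2 I Γ) : ⟪f, h⟫_ℝ = ∑ i, ∑' g, f (i, g) * h (i, g) := by
  have h1 : Summable fun q : I × Γ => f q * h q := (ell_hasSum f h).summable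
  rw [ell_inner, h1.tsum_prod' fun i => ell_sm f h i i, tsum_fintype]

end inn

variable {V : Type} [Fintype V] [LinearOrder V] {M : CoxeterMatrix V}

/-- The adjoint of the boundary. -/
theorem bD_adj (y f : HW M) : ⟪bD M y, f⟫_ℝ =
    ∑ U : Finset V, ∑ s ∈ U, sg (U.erase s) s * ∑' g, y (U, g) * f (U.erase s, g) := by
  classical
  rw [inner_fin]
  have h1 : ∀ U : Finset V, ∑' g, bD M y (U, g) * f (U, g) =
      ∑ s ∈ Uᶜ, sg U s * ∑' g, y (insert s U, g) * f (U, g) := by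
    intro U
    have h2 : ∀ g, bD M y (U, g) * f (U, g) =
        ∑ s ∈ Uᶜ, sg U s * (y (insert s U, g) * f (U, g)) := by
      intro g
      have h3 : bD M y (U, g) = ∑ s ∈ Uᶜ, sg U s * y (insert s U, g) := bD_apply y U g
      rw [h3, Finset.sum_mul]
      exact Finset.sum_congr rfl fun s _ => by ring
    simp only [h2]
    rw [Summable.tsum_finsetSum fun s _ => (ell_sm y f (insert s U) U).mul_left (sg U s)]
    exact Finset.sum_congr rfl fun s _ => tsum_mul_left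
  simp only [h1]
  rw [Finset.sum_sigma', Finset.sum_sigma']
  refine Finset.sum_nbij' (fun q => ⟨insert q.2 q.1, q.2⟩) (fun q => ⟨q.1.erase q.2, q.2⟩)
    ?_ ?_ ?_ ?_ ?_
  · rintro ⟨U, s⟩ _
    exact mem_sigma.2 ⟨mem_univ _, mem_insert_self _ _⟩
  · rintro ⟨U, s⟩ _
    refine mem_sigma.2 ⟨mem_univ _, ?_⟩
    simp
  · rintro ⟨U, s⟩ h
    have h2 : s ∉ U := by simpa using (mem_sigma.1 h).2
    simp [Finset.erase_insert h2]
  · rintro ⟨U, s⟩ h
    have h2 : s ∈ U := (mem_sigma.1 h).2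
    simp [Finset.insert_erase h2]
  · rintro ⟨U, s⟩ h
    have h2 : s ∉ U := by simpa using (mem_sigma.1 h).2
    simp only [Finset.erase_insert h2]

/-- The pairing of functions on the pairs `(∅, U)`. -/
theorem dX_pair {a b : HX M} (ha : ∀ T U : Finset V, ¬ (T = ∅ ∧ Sph M U) → ∀ g, a ((T, U), g) = 0)
    (hb : ∀ T U : Finset V, T ≠ ∅ → ∀ g, b ((T, U), g) = 0) : ⟪a, dX M b⟫_ℝ =
    ∑ U : Finset V, ∑ s ∈ U, sg (U.erase s) s * ∑' g, a ((∅, U), g) * b ((∅, U.erase s), g) := by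
  classical
  rw [inner_fin, Fintype.sum_prod_type, Finset.sum_eq_single (∅ : Finset V)]
  · refine Finset.sum_congr rfl fun U _ => ?_
    by_cases hU : Sph M U
    · have h2 : ∀ g, a ((∅, U), g) * dX M b ((∅, U), g) =
          ∑ s ∈ U, sg (U.erase s) s * (a ((∅, U), g) * b ((∅, U.erase s), g)) := by
        intro g
        rw [dX_apply b ⟨Finset.empty_subset U, hU⟩, sdiff_empty, Finset.mul_sum]
        refine Finset.sum_congr rfl fun s _ => ?_
        rw [hb (insert s ∅) U (Finset.insert_ne_empty _ _), card_empty, pow_zero]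
        ring
      simp only [h2]
      rw [Summable.tsum_finsetSum fun s _ =>
        (ell_sm a b (∅, U) (∅, U.erase s)).mul_left (sg (U.erase s) s)]
      exact Finset.sum_congr rfl fun s _ => tsum_mul_left
    · have h2 : ∀ g, a ((∅, U), g) = 0 := fun g => ha ∅ U (fun h => hU h.2) g
      simp only [h2, zero_mul, tsum_zero, mul_zero, Finset.sum_const_zero]
  · intro T _ hT
    refine Finset.sum_eq_zero fun U _ => ?_
    have h2 : ∀ g, a ((T, U), g) = 0 := fun g => ha T U (fun h => hT h.1) g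
    simp only [h2, zero_mul, tsum_zero]
  · exact fun h => absurd (mem_univ _) h

/-- the sign of an element of the group -/
noncomputable def ep (M : CoxeterMatrix V) (g : M.Group) : ℝ := (-1) ^ ln M g

omit [Fintype V] [LinearOrder V] in
theorem ep_gn (g : M.Group) (s : V) : ep M (g * gn M s) = - ep M g := by
  unfold ep
  rcases ln_mul_gn g s with h | h
  · rw [h, pow_succ]
    ring
  · rw [← h, pow_succ]
    ring

omit [Fintype V] [LinearOrder V] in
theorem ep_sq (g : M.Group) : ep M g * ep M g = 1 := by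
  unfold ep
  rw [← mul_pow]
  norm_num

theorem exists_tx (M : CoxeterMatrix V) : ∃ Θ : HW M →L[ℝ] HX M, ∀ f T U g,
    Θ f ((T, U), g) = if T = ∅ then ep M g * f (U, g) else 0 := by
  classical
  obtain ⟨Θ, hΘ⟩ := exists_pl (α := (Finset V × Finset V) × M.Group) (β := Finset V × M.Group)
    (φ := fun q => (q.1.2, q.2)) (c := fun q => if q.1.1 = ∅ then ep M q.2 else 0) (B := 1) (by
      intro q
      split_ifs
      · unfold ep
        rw [abs_pow, abs_neg, abs_one, one_pow]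
      · rw [abs_zero]
        exact zero_le_one) (by
      intro q q' hq hq' he
      have h1 : q.1.1 = ∅ := by
        by_contra hcon
        exact hq (if_neg hcon)
      have h2 : q'.1.1 = ∅ := by
        by_contra hcon
        exact hq' (if_neg hcon)
      have h3 := congrArg Prod.fst he
      have h4 := congrArg Prod.snd he
      exact Prod.ext (Prod.ext (h1.trans h2.symm) h3) h4)
  refine ⟨Θ, fun f T U g => ?_⟩
  rw [hΘ]
  change (if T = ∅ then ep M g else 0) * f (U, g) = _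
  by_cases h : T = ∅
  · rw [if_pos h, if_pos h]
  · rw [if_neg h, if_neg h, zero_mul]

theorem closed_EE (n i : ℕ) : IsClosed (EE M n i : Set (HX M)) := by
  have h : (EE M n i : Set (HX M)) =
      (⋂ T : Finset V, ⋂ U : Finset V, ⋂ (_ : ¬ (T ⊆ U ∧ Sph M U ∧ U.card + i = T.card + n)),
        ⋂ g : M.Group, {f : HX M | f ((T, U), g) = 0}) ∩
      (⋂ T : Finset V, ⋂ U : Finset V, ⋂ s : V, ⋂ (_ : s ∈ T), ⋂ g : M.Group,
        {f : HX M | f ((T, U), g * gn M s) = - f ((T, U), g)}) := by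
    ext f
    simp only [SetLike.mem_coe, mem_EE, Set.mem_inter_iff, Set.mem_iInter, Set.mem_ofPred_eq]
  rw [h]
  refine IsClosed.inter ?_ ?_
  · refine isClosed_iInter fun T => isClosed_iInter fun U => isClosed_iInter fun _ =>
      isClosed_iInter fun g => ?_
    exact isClosed_eq (ell_cont _) continuous_const
  · refine isClosed_iInter fun T => isClosed_iInter fun U => isClosed_iInter fun s =>
      isClosed_iInter fun _ => isClosed_iInter fun g => ?_
    exact isClosed_eq (ell_cont _) (ell_cont _).neg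

/-- The averaging operator is self-adjoint on its image. -/
theorem PX_self {a : HX M} (ha : PX M a = a) (b : HX M) : ⟪a, PX M b⟫_ℝ = ⟪a, b⟫_ℝ := by
  rw [inner_fin, inner_fin]
  refine Finset.sum_congr rfl fun q _ => ?_
  obtain ⟨T, U⟩ := q
  by_cases h : T = ∅ ∧ Sph M U
  · obtain ⟨rfl, hU⟩ := h
    have h1 : ∀ g, a ((∅, U), g) * PX M b ((∅, U), g) = ((wf M U).card : ℝ)⁻¹ *
        ∑ y ∈ wf M U, a ((∅, U), g * y) * b ((∅, U), g * y) := by
      intro g
      rw [PX_apply b hU, mul_left_comm, Finset.mul_sum]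
      congr 1
      refine Finset.sum_congr rfl fun y hy => ?_
      have h2 := PX_inv a ∅ U g ((mem_wf hU).1 hy)
      rw [ha] at h2
      rw [h2]
    simp only [h1]
    have h2 : ∀ y : M.Group, Summable fun g => a ((∅, U), g * y) * b ((∅, U), g * y) := by
      intro y
      exact (ell_sm a b (∅, U) (∅, U)).comp_injective (i := fun g : M.Group => g * y)
        (mul_left_injective y)
    rw [tsum_mul_left, Summable.tsum_finsetSum fun y _ => h2 y]
    have h3 : ∀ y : M.Group, ∑' g, a ((∅, U), g * y) * b ((∅, U), g * y) =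
        ∑' g, a ((∅, U), g) * b ((∅, U), g) := fun y =>
      (Equiv.mulRight y).tsum_eq fun g => a ((∅, U), g) * b ((∅, U), g)
    simp only [h3]
    rw [Finset.sum_const, nsmul_eq_mul, ← mul_assoc, inv_mul_cancel₀, one_mul]
    have h4 := wf_pos hU
    positivity
  · have h1 : ∀ g, a ((T, U), g) = 0 := by
      intro g
      rw [← ha]
      exact PX_zero a h g
    simp only [h1, zero_mul]

theorem exists_ty (M : CoxeterMatrix V) : ∃ Θ : HX M →L[ℝ] HW M, ∀ f U g,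
    Θ f (U, g) = ep M g * f ((∅, U), g) := by
  obtain ⟨Θ, hΘ⟩ := exists_pl (β := (Finset V × Finset V) × M.Group) (α := Finset V × M.Group)
    (φ := fun q => ((∅, q.1), q.2)) (c := fun q => ep M q.2) (B := 1) (by
      intro q
      unfold ep
      rw [abs_pow, abs_neg, abs_one, one_pow]) (by
      intro q q' _ _ he
      have h3 := congrArg (fun z : (Finset V × Finset V) × M.Group => z.1.2) he
      have h4 := congrArg (fun z : (Finset V × Finset V) × M.Group => z.2) he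
      exact Prod.ext h3 h4)
  exact ⟨Θ, fun f U g => hΘ f _⟩

/-- Vanishing of the reduced homology in degree `k` implies the one of the quotient complex of the
cubical complex. -/
theorem coh {n i k : ℕ} (hik : i + k = n) (h0 : HH M univ k = ⊥) {x : HX M} (hx : x ∈ EE M n i)
    (hPx : PX M x = x) (hdx : PX M (dX M x) = 0) {ε : ℝ} (hε : 0 < ε) :
    ∃ h ∈ EE M n (i + 1), PX M h = h ∧ ‖x - PX M (dX M h)‖ < ε := by
  classical
  obtain ⟨Θ, hΘ⟩ := exists_tx M
  obtain ⟨Λ, hΛ⟩ := exists_ty M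
  -- the space of images
  obtain ⟨Y, hY⟩ : ∃ Y : Submodule ℝ (HX M), Y =
      (EE M n (i + 1) ⊓ LinearMap.eqLocus (PX M : HX M →ₗ[ℝ] HX M) LinearMap.id).map
        ((PX M).comp (dX M) : HX M →ₗ[ℝ] HX M) := ⟨_, rfl⟩
  have hmY : ∀ z, z ∈ Y ↔ ∃ h ∈ EE M n (i + 1), PX M h = h ∧ PX M (dX M h) = z := by
    intro z
    rw [hY, Submodule.mem_map]
    constructor
    · rintro ⟨h, ⟨h1, h2⟩, h3⟩
      exact ⟨h, h1, h2, h3⟩
    · rintro ⟨h, h1, h2, h3⟩
      exact ⟨h, ⟨h1, h2⟩, h3⟩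
  obtain ⟨r, hr⟩ : ∃ r, r = x - PP Y x := ⟨_, rfl⟩
  -- closed conditions
  have hcl : ∀ z ∈ Y.topologicalClosure, z ∈ EE M n i ∧ PX M z = z ∧ PX M (dX M z) = 0 := by
    have hclE : IsClosed ((EE M n i : Set (HX M)) ∩
        ({z : HX M | PX M z = z} ∩ {z : HX M | PX M (dX M z) = 0})) :=
      (closed_EE n i).inter ((isClosed_eq (PX M).continuous continuous_id).inter
        (isClosed_eq ((PX M).continuous.comp (dX M).continuous) continuous_const))
    intro z hz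
    have h1 : (Y : Set (HX M)) ⊆ (EE M n i : Set (HX M)) ∩
        ({z : HX M | PX M z = z} ∩ {z : HX M | PX M (dX M z) = 0}) := by
      intro z hz
      obtain ⟨h, h1, h2, rfl⟩ := (hmY z).1 hz
      refine ⟨PX_mem (dX_mem h1), PX_PX _, ?_⟩
      change PX M (dX M (PX M (dX M h))) = 0
      rw [PX_d_PX (dX_mem h1), dX_dX, map_zero]
    exact closure_minimal h1 hclE hz
  have hr1 : r ∈ EE M n i := by
    rw [hr]
    exact Submodule.sub_mem _ hx (hcl _ (PP_mem Y x)).1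
  have hr2 : PX M r = r := by
    rw [hr, map_sub, hPx, (hcl _ (PP_mem Y x)).2.1]
  have hr3 : PX M (dX M r) = 0 := by
    rw [hr, map_sub, map_sub, hdx, (hcl _ (PP_mem Y x)).2.2, sub_zero]
  have hr4 : ∀ y ∈ Y, ⟪r, y⟫_ℝ = 0 := by
    intro y hy
    rw [hr]
    exact PP_sub Y x y hy
  -- the harmonic chain
  obtain ⟨ρ, hρ⟩ : ∃ ρ, ρ = Λ r := ⟨_, rfl⟩
  have hrz : ∀ T U : Finset V, ¬ (T = ∅ ∧ Sph M U) → ∀ g, r ((T, U), g) = 0 := by
    intro T U h g
    rw [← hr2]
    exact PX_zero r h g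
  have hΘρ : Θ ρ = r := by
    refine ell_ext fun q => ?_
    obtain ⟨⟨T, U⟩, g⟩ := q
    rw [hΘ]
    by_cases h : T = ∅
    · subst h
      rw [if_pos rfl, hρ, hΛ, ← mul_assoc, ep_sq, one_mul]
    · rw [if_neg h, hrz T U fun h1 => h h1.1]
  have hρC : ρ ∈ CC M univ k := by
    rw [mem_CC]
    refine ⟨fun U hU g => ?_, fun U s hs g => ?_⟩
    · rw [hρ, hΛ, (mem_EE.1 hr1).1, mul_zero]
      rintro ⟨-, h1, h2⟩
      rw [card_empty] at h2
      exact hU ⟨subset_univ _, h1, by omega⟩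
    · rw [hρ, hΛ, hΛ, ep_gn]
      have h2 := PX_inv r ∅ U g (gn_mem (M := M) (Y := (U : Set V)) (s := s) (by exact_mod_cast hs))
      rw [hr2] at h2
      rw [h2]
      ring
  -- functions from chains
  have hΘC : ∀ j, ∀ y ∈ CC M univ j, PX M (Θ y) = Θ y := by
    intro j y hy
    rw [mem_CC] at hy
    refine PX_eq (fun T U h g => ?_) fun U hU g z hz => ?_
    · rw [hΘ]
      by_cases h1 : T = ∅
      · rw [if_pos h1, hy.1 U (fun h2 => h ⟨h1, h2.2.1⟩), mul_zero]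
      · rw [if_neg h1]
    · obtain ⟨η, h1, rfl⟩ := exists_word hz
      clear hz
      induction η using List.reverseRecOn with
      | nil => rw [wp_nil, mul_one]
      | append_singleton η s ih =>
        have h2 := ih fun t ht => h1 t (List.mem_append_left _ ht)
        have hs : s ∈ U := by exact_mod_cast h1 s (by simp)
        rw [← h2, wp_append, wp_cons, wp_nil, mul_one, ← mul_assoc, hΘ, hΘ, if_pos rfl, if_pos rfl,
          ep_gn, hy.2 U s hs]
        ring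
  have hΘz : ∀ y : HW M, ∀ T U : Finset V, T ≠ ∅ → ∀ g, Θ y ((T, U), g) = 0 := by
    intro y T U h g
    rw [hΘ, if_neg h]
  have hkey : ∀ j, ∀ y ∈ CC M univ j, ∀ f, ⟪Θ y, dX M (Θ f)⟫_ℝ = ⟪bD M y, f⟫_ℝ := by
    intro j y hy f
    rw [bD_adj, dX_pair _ (hΘz f)]
    · refine Finset.sum_congr rfl fun U _ => Finset.sum_congr rfl fun s _ => ?_
      congr 1
      refine tsum_congr fun g => ?_
      rw [hΘ, hΘ, if_pos rfl, if_pos rfl]
      linear_combination (y (U, g) * f (U.erase s, g)) * ep_sq g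
    · intro T U h g
      rw [← hΘC j y hy]
      exact PX_zero _ h g
  have hb1 : bD M ρ = 0 := by
    rcases k with _ | k
    · exact bD_zero hρC
    · have h1 : bD M ρ ∈ CC M univ k := bD_mem hρC
      have h2 : Θ (bD M ρ) ∈ EE M n (i + 1) := by
        rw [mem_EE]
        refine ⟨fun T U h g => ?_, fun T U s hs g => ?_⟩
        · by_cases h3 : T = ∅
          · subst h3
            rw [hΘ, if_pos rfl, (mem_CC.1 h1).1, mul_zero]
            rintro ⟨-, h3, h4⟩
            refine h ⟨Finset.empty_subset U, h3, ?_⟩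
            rw [card_empty]
            omega
          · exact hΘz _ T U h3 g
        · have h3 : T ≠ ∅ := by
            rintro rfl
            exact Finset.notMem_empty s hs
          rw [hΘz _ T U h3, hΘz _ T U h3, neg_zero]
      have h3 := hr4 (PX M (dX M (Θ (bD M ρ)))) ((hmY _).2 ⟨_, h2, hΘC k _ h1, rfl⟩)
      rw [PX_self hr2, ← hΘρ, hkey _ ρ hρC] at h3
      exact inner_self_eq_zero.1 h3
  have hb2 : ∀ y ∈ CC M univ (k + 1), ⟪bD M y, ρ⟫_ℝ = 0 := by
    intro y hy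
    rw [← hkey _ y hy, hΘρ, ← PX_self (hΘC _ y hy), hr3, inner_zero_right]
  have hρ0 : ρ = 0 := by
    have h1 : ρ ∈ HH M univ k := by
      rw [mem_HH]
      exact ⟨hρC, hb1, hb2⟩
    rw [h0, Submodule.mem_bot] at h1
    exact h1
  have hr0 : r = 0 := by rw [← hΘρ, hρ0, map_zero]
  have hxc : x ∈ closure (Y : Set (HX M)) := by
    have h1 : x = PP Y x := by
      rw [← sub_eq_zero, ← hr]
      exact hr0
    rw [h1]
    exact PP_mem Y x
  obtain ⟨z, hz, hd⟩ := Metric.mem_closure_iff.1 hxc ε hε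
  obtain ⟨h, h1, h2, rfl⟩ := (hmY z).1 hz
  exact ⟨h, h1, h2, by rwa [dist_eq_norm] at hd⟩

end LBL
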