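import Pool.Agent.SCG.CsumF
import Pool.Agent.SCG.Iface

/-!
# Project LBU (architect helper40), module Zd: the vanishing of the square summable homology in one degree

`ZD M S j`: the `j`-th square summable Betti number of the special subgroup generated by `S` is zero.
-/

namespace LBL

open SCG SNG SCS Finset

/-- The homology of the special subgroup generated by `S` vanishes in degree `j`. -/
def ZD {V : Type} (M : CoxeterMatrix V) (S : Finset V) (j : ℕ) : Prop :=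
  ∀ _ : LinearOrder {x // x ∈ S}, bb (sub M S) univ j = 0

theorem zd_iff {V : Type} [Fintype V] [LinearOrder V] {G : CoxeterMatrix V} {S : Finset V} {j : ℕ} :
    ZD G S j ↔ bb G S j = 0 := by
  have hm : (univ : Finset {x // x ∈ S}).map (Function.Embedding.subtype fun x => x ∈ S) = S := by
    ext x
    simp
  have h1 : ∀ i : LinearOrder {x // x ∈ S}, bb G S j = bb (sub G S) univ j := by
    intro i
    have h1 := bb_to (Function.Embedding.subtype fun x => x ∈ S) (M := G) (M' := sub G S)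
      (fun _ _ => rfl) j
    rwa [hm] at h1
  constructor
  · intro h
    rw [h1 inferInstance]
    exact h inferInstance
  · intro h i
    rw [← h1 i]
    exact h

theorem bb_zero_iff {V : Type} [Fintype V] [LinearOrder V] {G : CoxeterMatrix V} {S : Finset V}
    {j : ℕ} : bb G S j = 0 ↔ HH G S j = ⊥ := by
  constructor
  · intro h
    exact dm_eq_bot (inv_HH S j) (le_of_eq h)
  · intro h
    unfold bb
    rw [h, dm_bot]

theorem exists_lo (X : Type) [Fintype X] : Nonempty (LinearOrder X) :=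
  ⟨LinearOrder.lift' (Fintype.equivFin X) (Equiv.injective _)⟩

theorem zg_iff_zd {V : Type} {G : CoxeterMatrix V} {S : Finset V} : ZG G S ↔ ∀ j, ZD G S j := by
  constructor
  · intro h j i
    exact bb_zero_iff.2 (h i j)
  · intro h i j
    exact bb_zero_iff.1 (h j i)

theorem bb_order {X : Type} [Fintype X] {G : CoxeterMatrix X} (i1 i2 : LinearOrder X) (j : ℕ) :
    @bb X _ i1 G univ j = @bb X _ i2 G univ j := by
  have h1 := @bb_to X X G G _ i1 _ i2 (Function.Embedding.refl X) (fun _ _ => rfl) j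
  rwa [map_refl] at h1

theorem zd_iff_nohomd {V : Type} [LinearOrder V] {G : CoxeterMatrix V} {S : Finset V} {j : ℕ} :
    ZD G S j ↔ NoHomD (sub G S) j := by
  rw [nohomd_iff_bb]
  exact ⟨fun h => h _, fun h i => (bb_order i _ j).trans h⟩

theorem nohomd_iff_zd {V : Type} [Fintype V] [LinearOrder V] {G : CoxeterMatrix V} {j : ℕ} :
    NoHomD G j ↔ ZD G univ j := by
  rw [nohomd_iff_bb, zd_iff]

private theorem bb_equiv {X Y : Type} [Fintype X] [Fintype Y] [iX : LinearOrder X]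
    [iY : LinearOrder Y] {G1 : CoxeterMatrix X} {G2 : CoxeterMatrix Y} (E : X ≃ Y)
    (hE : ∀ x y, G2 (E x) (E y) = G1 x y) (j : ℕ) : bb G2 univ j = bb G1 univ j := by
  have h1 := bb_to E.toEmbedding (M := G2) (M' := G1) hE j
  rwa [map_univ_equiv] at h1

variable {V V' : Type} [DecidableEq V] [DecidableEq V'] {G : CoxeterMatrix V} {G' : CoxeterMatrix V'}

omit [DecidableEq V] in
theorem zd_image {S : Finset V} (e : V → V') (hi : ∀ x ∈ S, ∀ y ∈ S, e x = e y → x = y)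
    (he : ∀ x ∈ S, ∀ y ∈ S, G' (e x) (e y) = G x y) (j : ℕ) :
    ZD G S j ↔ ZD G' (S.image e) j := by
  let E : {x // x ∈ S} ≃ {y // y ∈ S.image e} :=
    Equiv.ofBijective (fun x => ⟨e x.1, mem_image_of_mem e x.2⟩) (by
      constructor
      · intro x y hxy
        exact Subtype.ext (hi x.1 x.2 y.1 y.2 (congrArg Subtype.val hxy))
      · rintro ⟨y, hy⟩
        obtain ⟨x, hx, rfl⟩ := mem_image.1 hy
        exact ⟨⟨x, hx⟩, rfl⟩)
  have hE : ∀ x y, sub G' (S.image e) (E x) (E y) = sub G S x y :=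
    fun x y => he x.1 x.2 y.1 y.2
  constructor
  · intro h i
    obtain ⟨i'⟩ := exists_lo {x // x ∈ S}
    rw [bb_equiv (iX := i') (iY := i) E hE j]
    exact h i'
  · intro h i
    obtain ⟨i'⟩ := exists_lo {y // y ∈ S.image e}
    rw [← bb_equiv (iX := i) (iY := i') E hE j]
    exact h i'

/-- the part of `S` in the subtype of `U` -/
private def res (U S : Finset V) : Finset {x // x ∈ U} := univ.filter fun x => x.1 ∈ S

private theorem mem_res {U S : Finset V} {x : {x // x ∈ U}} : x ∈ res U S ↔ x.1 ∈ S := by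
  simp [res]

private theorem zd_sub' {U S : Finset V} (hS : S ⊆ U) [LinearOrder {x // x ∈ U}] (j : ℕ) :
    ZD G S j ↔ bb (sub G U) (res U S) j = 0 := by
  have h1 : (res U S).image Subtype.val = S := by
    ext x
    rw [mem_image]
    constructor
    · rintro ⟨y, hy, rfl⟩
      exact mem_res.1 hy
    · intro hx
      exact ⟨⟨x, hS hx⟩, mem_res.2 hx, rfl⟩
  have h2 := zd_image (G := sub G U) (G' := G) (S := res U S)
    Subtype.val (fun x _ y _ hxy => Subtype.ext hxy) (fun x _ y _ => rfl) j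
  rw [h1] at h2
  rw [← h2, zd_iff]

private theorem noe_res {U A B : Finset V} (hn : NoE G A B) :
    NoE (sub G U) (res U A) (res U B) := by
  intro x hx hx' y hy hy'
  rw [mem_res] at hx hx' hy hy'
  exact hn x.1 hx hx' y.1 hy hy'

private theorem kk_le {X : Type} [Fintype X] [LinearOrder X] {H : CoxeterMatrix X} (A B : Finset X)
    (j : ℕ) : dm (KK H A B j) ≤ bb H (A ∩ B) j := by
  refine dm_mono ?_
  unfold KK
  exact inf_le_left.trans inf_le_left

private theorem csum_abs {V₀ : Type} [Fintype V₀] [LinearOrder V₀] {G₀ : CoxeterMatrix V₀}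
    {A B AB cA cB : Finset V₀} {c : V₀} (hu : ∀ x, x = c ∨ x ∈ A ∨ x ∈ B) (hcA : c ∉ A)
    (hcB : c ∉ B) (hc2 : ∀ x, x ∈ A → x ∈ B → G₀ c x = 2)
    (hc0 : ∀ x, (x ∈ A ∨ x ∈ B) → ¬ (x ∈ A ∧ x ∈ B) → G₀ c x = 0) (hn : NoE G₀ A B)
    (e1 : ∀ x, x ∈ cA ↔ x = c ∨ x ∈ A) (e2 : ∀ x, x ∈ cB ↔ x = c ∨ x ∈ B)
    (e3 : ∀ x, x ∈ AB ↔ x ∈ A ∨ x ∈ B) {j : ℕ} (h1 : bb G₀ cA j = 0) (h2 : bb G₀ cB j = 0) :
    bb G₀ AB j = 0 := by
  have E1 : cA = insert c A := by
    ext x
    rw [mem_insert]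
    exact e1 x
  have E2 : cB = insert c B := by
    ext x
    rw [mem_insert]
    exact e2 x
  have E3 : AB = A ∪ B := by
    ext x
    rw [mem_union]
    exact e3 x
  subst E1 E2 E3
  have h3 := csum_bb hu hcA hcB (fun x hx => hc2 x (mem_inter.1 hx).1 (mem_inter.1 hx).2)
    (fun x hx hx' => hc0 x (mem_union.1 hx) fun h => hx' (mem_inter.2 h)) hn j
  rw [h1, h2, add_zero] at h3
  exact le_antisymm h3 (dm_nonneg _)

private theorem mv_abs {V₀ : Type} [Fintype V₀] [LinearOrder V₀] {G₀ : CoxeterMatrix V₀}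
    {A B AB C : Finset V₀} (hn : NoE G₀ A B) (e1 : ∀ x, x ∈ C ↔ x ∈ A ∧ x ∈ B)
    (e3 : ∀ x, x ∈ AB ↔ x ∈ A ∨ x ∈ B) {j : ℕ} (h1 : bb G₀ A (j + 1) = 0)
    (h2 : bb G₀ B (j + 1) = 0) (h3 : bb G₀ C j = 0) : bb G₀ AB (j + 1) = 0 := by
  have E1 : C = A ∩ B := by
    ext x
    rw [mem_inter]
    exact e1 x
  have E3 : AB = A ∪ B := by
    ext x
    rw [mem_union]
    exact e3 x
  subst E1 E3
  have h4 := mv_rec_succ hn j
  have h5 := kk_le (H := G₀) A B (j + 1)
  have h6 := kk_le (H := G₀) A B j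
  have h7 : 0 ≤ bb G₀ (A ∪ B) (j + 1) := dm_nonneg _
  linarith

private theorem part_abs {V₀ : Type} [Fintype V₀] [LinearOrder V₀] {G₀ : CoxeterMatrix V₀}
    {A B AB C : Finset V₀} (hn : NoE G₀ A B) (e1 : ∀ x, x ∈ C ↔ x ∈ A ∧ x ∈ B)
    (e3 : ∀ x, x ∈ AB ↔ x ∈ A ∨ x ∈ B) {j : ℕ} (h1 : bb G₀ AB j = 0) (h3 : bb G₀ C j = 0) :
    bb G₀ A j = 0 := by
  have E1 : C = A ∩ B := by
    ext x
    rw [mem_inter]
    exact e1 x
  have E3 : AB = A ∪ B := by
    ext x
    rw [mem_union]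
    exact e3 x
  subst E1 E3
  have h5 : 0 ≤ bb G₀ A j := dm_nonneg _
  have h6 : 0 ≤ bb G₀ B j := dm_nonneg _
  have h7 : 0 ≤ dm (KK G₀ A B j) := dm_nonneg _
  rcases j with _ | j
  · have h4 := mv_rec_zero hn
    linarith
  · have h4 := mv_rec_succ hn j
    have h8 : 0 ≤ dm (KK G₀ A B j) := dm_nonneg _
    linarith

private theorem cone_abs {V₀ : Type} [Fintype V₀] [LinearOrder V₀] {G₀ : CoxeterMatrix V₀}
    {Y cY : Finset V₀} {c : V₀} (hcY : c ∉ Y) (hc : ∀ y ∈ Y, G₀ c y = 2)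
    (e1 : ∀ x, x ∈ cY ↔ x = c ∨ x ∈ Y) {j : ℕ} : bb G₀ cY j = 0 ↔ bb G₀ Y j = 0 := by
  have E1 : cY = insert c Y := by
    ext x
    rw [mem_insert]
    exact e1 x
  subst E1
  rw [bb_cone hcY hc]
  constructor
  · intro h
    linarith
  · intro h
    linarith

/-- The connected sum theorem. -/
theorem zd_csum {A B : Finset V} {c : V} (hcA : c ∉ A) (hcB : c ∉ B)
    (hc2 : ∀ x ∈ A ∩ B, G c x = 2) (hc0 : ∀ x ∈ A ∪ B, x ∉ A ∩ B → G c x = 0)
    (hn : NoE G A B) {j : ℕ} (h1 : ZD G (insert c A) j) (h2 : ZD G (insert c B) j) :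
    ZD G (A ∪ B) j := by
  obtain ⟨U, hU⟩ : ∃ U, U = insert c (A ∪ B) := ⟨_, rfl⟩
  have hcU : c ∈ U := by
    rw [hU]
    exact mem_insert_self _ _
  obtain ⟨i⟩ := exists_lo {x // x ∈ U}
  rw [zd_sub' (U := U) (by rw [hU]; exact insert_subset_insert _ subset_union_left)] at h1
  rw [zd_sub' (U := U) (by rw [hU]; exact insert_subset_insert _ subset_union_right)] at h2
  rw [zd_sub' (U := U) (by rw [hU]; exact subset_insert _ _)]
  have hx : ∀ x : {x // x ∈ U}, x = ⟨c, hcU⟩ ∨ x.1 ∈ A ∨ x.1 ∈ B := by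
    rintro ⟨x, hx⟩
    rw [hU, mem_insert, mem_union] at hx
    rcases hx with rfl | hx
    · exact Or.inl rfl
    · exact Or.inr hx
  refine csum_abs (A := res U A) (B := res U B) (cA := res U (insert c A))
    (cB := res U (insert c B)) (c := ⟨c, hcU⟩) ?_ ?_ ?_ ?_ ?_ (noe_res hn) ?_ ?_ ?_ h1 h2
  · intro x
    rw [mem_res, mem_res]
    exact hx x
  · rw [mem_res]
    exact hcA
  · rw [mem_res]
    exact hcB
  · intro x h3 h4
    rw [mem_res] at h3 h4
    exact hc2 x.1 (mem_inter.2 ⟨h3, h4⟩)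
  · intro x h3 h4
    rw [mem_res, mem_res] at h3 h4
    exact hc0 x.1 (mem_union.2 h3) fun h5 => h4 (mem_inter.1 h5)
  · intro x
    rw [mem_res, mem_res, mem_insert, Subtype.ext_iff]
  · intro x
    rw [mem_res, mem_res, mem_insert, Subtype.ext_iff]
  · intro x
    rw [mem_res, mem_res, mem_res, mem_union]

/-- Mayer-Vietoris. -/
theorem zd_mv {A B : Finset V} (hn : NoE G A B) {j : ℕ} (h1 : ZD G A (j + 1))
    (h2 : ZD G B (j + 1)) (h3 : ZD G (A ∩ B) j) : ZD G (A ∪ B) (j + 1) := by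
  obtain ⟨U, hU⟩ : ∃ U, U = A ∪ B := ⟨_, rfl⟩
  obtain ⟨i⟩ := exists_lo {x // x ∈ U}
  rw [zd_sub' (U := U) (by rw [hU]; exact subset_union_left)] at h1
  rw [zd_sub' (U := U) (by rw [hU]; exact subset_union_right)] at h2
  rw [zd_sub' (U := U) (by rw [hU]; exact inter_subset_left.trans subset_union_left)] at h3
  rw [zd_sub' (U := U) (by rw [hU])]
  refine mv_abs (noe_res hn) (fun x => ?_) (fun x => ?_) h1 h2 h3
  · rw [mem_res, mem_res, mem_res, mem_inter]
  · rw [mem_res, mem_res, mem_res, mem_union]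

private theorem mv0_abs {V₀ : Type} [Fintype V₀] [LinearOrder V₀] {G₀ : CoxeterMatrix V₀}
    {A B AB : Finset V₀} (hn : NoE G₀ A B) (e3 : ∀ x, x ∈ AB ↔ x ∈ A ∨ x ∈ B)
    (h1 : bb G₀ A 0 = 0) (h2 : bb G₀ B 0 = 0) : bb G₀ AB 0 = 0 := by
  have E3 : AB = A ∪ B := by
    ext x
    rw [mem_union]
    exact e3 x
  subst E3
  have h4 := mv_rec_zero hn
  have h5 := kk_le (H := G₀) A B 0
  have h7 : 0 ≤ bb G₀ (A ∪ B) 0 := dm_nonneg _
  linarith

/-- Mayer-Vietoris in any degree. -/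
theorem zd_mv_all {A B : Finset V} (hn : NoE G A B) {j : ℕ} (h1 : ZD G A j) (h2 : ZD G B j)
    (h3 : ∀ i, j = i + 1 → ZD G (A ∩ B) i) : ZD G (A ∪ B) j := by
  rcases j with _ | j
  · obtain ⟨U, hU⟩ : ∃ U, U = A ∪ B := ⟨_, rfl⟩
    obtain ⟨i⟩ := exists_lo {x // x ∈ U}
    rw [zd_sub' (U := U) (by rw [hU]; exact subset_union_left)] at h1
    rw [zd_sub' (U := U) (by rw [hU]; exact subset_union_right)] at h2
    rw [zd_sub' (U := U) (by rw [hU])]
    refine mv0_abs (noe_res hn) (fun x => ?_) h1 h2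
    rw [mem_res, mem_res, mem_res, mem_union]
  · exact zd_mv hn h1 h2 (h3 j rfl)

/-- Mayer-Vietoris, the middle term. -/
theorem zd_part {A B : Finset V} (hn : NoE G A B) {j : ℕ} (h1 : ZD G (A ∪ B) j)
    (h3 : ZD G (A ∩ B) j) : ZD G A j := by
  obtain ⟨U, hU⟩ : ∃ U, U = A ∪ B := ⟨_, rfl⟩
  obtain ⟨i⟩ := exists_lo {x // x ∈ U}
  rw [zd_sub' (U := U) (by rw [hU]; exact subset_union_left)]
  rw [zd_sub' (U := U) (by rw [hU]; exact inter_subset_left.trans subset_union_left)] at h3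
  rw [zd_sub' (U := U) (by rw [hU])] at h1
  refine part_abs (noe_res hn) (fun x => ?_) (fun x => ?_) h1 h3
  · rw [mem_res, mem_res, mem_res, mem_inter]
  · rw [mem_res, mem_res, mem_res, mem_union]

/-- Cones. -/
theorem zd_cone {Y : Finset V} {c : V} (hcY : c ∉ Y) (hc : ∀ y ∈ Y, G c y = 2) {j : ℕ} :
    ZD G (insert c Y) j ↔ ZD G Y j := by
  obtain ⟨U, hU⟩ : ∃ U, U = insert c Y := ⟨_, rfl⟩
  have hcU : c ∈ U := by
    rw [hU]
    exact mem_insert_self _ _
  obtain ⟨i⟩ := exists_lo {x // x ∈ U}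
  rw [zd_sub' (U := U) (by rw [hU]), zd_sub' (U := U) (by rw [hU]; exact subset_insert _ _)]
  refine cone_abs (c := ⟨c, hcU⟩) ?_ ?_ fun x => ?_
  · rw [mem_res]
    exact hcY
  · intro y hy
    rw [mem_res] at hy
    exact hc y.1 hy
  · rw [mem_res, mem_res, mem_insert, Subtype.ext_iff]

end LBL
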