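import Pool.Agent.LBL.Join
import Pool.Agent.LBU.Zd

/-!
# Project LBU (architect helper40), module Zp: products with finite groups, in one degree
-/

namespace LBL

open SCG SNG SCS Finset
open scoped InnerProductSpace

section zig

variable {H : Type} [NormedAddCommGroup H] [NormedSpace ℝ H]

/-- Acyclicity of the quotient implies acyclicity. -/
theorem zig_at {C F : ℕ → Submodule ℝ H} {d P K : H →L[ℝ] H} {m : ℕ}
    (hdC : ∀ j, ∀ x ∈ C (j + 1), d x ∈ C j) (hd0 : ∀ x ∈ C 0, d x = 0) (hdd : ∀ x, d (d x) = 0)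
    (hKC : ∀ j, ∀ x ∈ C j, K x ∈ C (j + 1)) (hKF : ∀ p, ∀ x ∈ F p, K x ∈ F (p + 1))
    (hstep : ∀ j p x, x ∈ C j → x ∈ F p → d x = 0 → (p = 0 → P x = 0) → x - d (K x) ∈ F (p + 1))
    (hFm : ∀ j x, x ∈ C j → x ∈ F m → x = 0) (hF0 : ∀ x, x ∈ F 0) (hanti : ∀ p, F (p + 1) ≤ F p)
    (hPC : ∀ j, ∀ x ∈ C j, P x ∈ C j) (hPP : ∀ x, P (P x) = P x) (hPF : ∀ x ∈ F 1, P x = 0)
    (hPd : ∀ j, ∀ x ∈ C j, P (d (P x)) = P (d x))
    (j : ℕ) (hD : ∀ x ∈ C j, P x = x → P (d x) = 0 → ∀ ε : ℝ, 0 < ε →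
      ∃ h ∈ C (j + 1), P h = h ∧ ‖x - P (d h)‖ < ε) (x : H) (hx : x ∈ C j) (hdx : d x = 0) (ε : ℝ) (hε : 0 < ε) :
    ∃ h ∈ C (j + 1), ‖x - d h‖ < ε := by
  obtain ⟨R, hR, hex⟩ := zig_ex (P := P) hdC hdd hKC hKF hstep hFm hanti m 0 (by rw [add_zero])
  -- exactness
  have hex' : ∀ j, ∀ x ∈ C j, d x = 0 → P x = 0 →
      ∃ b ∈ C (j + 1), P b = 0 ∧ d b = x ∧ ‖b‖ ≤ R * ‖x‖ := by
    intro j x hx hdx hPx
    obtain ⟨b, h1, h2, h3, h4⟩ := hex j x hx (hF0 x) hdx fun _ => hPx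
    exact ⟨b, h1, hPF b h2, h3, h4⟩
  obtain ⟨δ, hδ, hδε⟩ : ∃ δ : ℝ, 0 < δ ∧ δ * (1 + R * ‖d‖) ≤ ε := by
    refine ⟨ε / (1 + R * ‖d‖), by positivity, ?_⟩
    rw [div_mul_cancel₀]
    positivity
  obtain ⟨χ, hχ, hPχ, hχn⟩ := hD (P x) (hPC j x hx) (hPP x) (by
    rw [hPd j x hx, hdx, map_zero]) δ hδ
  obtain ⟨z, hz⟩ : ∃ z, z = x - d χ := ⟨_, rfl⟩
  have hzC : z ∈ C j := by
    rw [hz]
    exact Submodule.sub_mem _ hx (hdC j _ hχ)
  have hdz : d z = 0 := by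
    rw [hz, map_sub, hdx, hdd, sub_zero]
  have hPz : ‖P z‖ < δ := by
    rw [hz, map_sub]
    exact hχn
  -- a correction
  obtain ⟨w, hw, hPw, hdw, hwn⟩ : ∃ w ∈ C j, P w = 0 ∧ d w = d (P z) ∧
      ‖w‖ ≤ R * (‖d‖ * ‖P z‖) := by
    cases j with
    | zero =>
      refine ⟨0, zero_mem _, map_zero _, ?_, ?_⟩
      · rw [map_zero, hd0 _ (hPC 0 z hzC)]
      · rw [norm_zero]
        positivity
    | succ j =>
      obtain ⟨w, h1, h2, h3, h4⟩ := hex' j (d (P z)) (hdC j _ (hPC _ z hzC)) (hdd _) (by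
        rw [hPd _ z hzC, hdz, map_zero])
      exact ⟨w, h1, h2, h3, h4.trans (mul_le_mul_of_nonneg_left (d.le_opNorm _) hR)⟩
  obtain ⟨b, hb, -, hdb, -⟩ := hex' j (z - P z + w)
    (Submodule.add_mem _ (Submodule.sub_mem _ hzC (hPC j z hzC)) hw)
    (by rw [map_add, map_sub, hdz, hdw]; abel) (by rw [map_add, map_sub, hPP, hPw]; abel)
  refine ⟨χ + b, Submodule.add_mem _ hχ hb, ?_⟩
  have h1 : x - d (χ + b) = P z - w := by
    rw [map_add, hdb, hz]
    abel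
  rw [h1]
  calc ‖P z - w‖ ≤ ‖P z‖ + ‖w‖ := norm_sub_le _ _
    _ ≤ ‖P z‖ + R * (‖d‖ * ‖P z‖) := add_le_add_right hwn _
    _ = ‖P z‖ * (1 + R * ‖d‖) := by ring
    _ < δ * (1 + R * ‖d‖) := mul_lt_mul_of_pos_right hPz (by positivity)
    _ ≤ ε := hδε

end zig

section tra

variable {V : Type} [Fintype V] [LinearOrder V] {M : CoxeterMatrix V} {T : Finset V}

/-- the filtration -/
private def Fp (M : CoxeterMatrix V) (T : Finset V) (p : ℕ) : Submodule ℝ (HW M) where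
  carrier := {f | ∀ X : Finset V, (X ∩ T).card < p → ∀ g, f (X, g) = 0}
  add_mem' := by
    intro f h hf hh X hX g
    rw [ell_add, hf X hX, hh X hX, add_zero]
  zero_mem' := fun _ _ _ => rfl
  smul_mem' := by
    intro c f hf X hX g
    rw [ell_smul, hf X hX, mul_zero]

private theorem mem_Fp {p : ℕ} {f : HW M} :
    f ∈ Fp M T p ↔ ∀ X : Finset V, (X ∩ T).card < p → ∀ g, f (X, g) = 0 := Iff.rfl

/-- The transfer theorem. -/
theorem transfer_at (h : Tc M T) {j : ℕ} (hD : ∀ f ∈ CC M univ j, Pa M T f = f →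
    Pa M T (bD M f) = 0 → ∀ ε : ℝ, 0 < ε →
      ∃ k ∈ CC M univ (j + 1), Pa M T k = k ∧ ‖f - Pa M T (bD M k)‖ < ε) :
    HH M univ j = ⊥ := by
  obtain ⟨K, hK1, hK2, hK3⟩ := exists_K h
  refine hh_bot_of fun f hf hdf ε hε => ?_
  refine zig_at (C := fun j => CC M univ j) (F := Fp M T) (d := bD M) (P := Pa M T) (K := K)
    (m := T.card + 1) (fun j x hx => bD_mem hx) (fun x hx => bD_zero hx) bD_bD hK1
    (fun p x hx => mem_Fp.2 (hK2 p x (mem_Fp.1 hx))) ?_ ?_ ?_ ?_ (fun j x hx => Pa_mem h hx)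
    (Pa_Pa h) ?_ (fun j x hx => Pa_d_Pa h hx) j hD f hf hdf ε hε
  · intro j p x hx hF hdx hPx
    exact mem_Fp.2 (hK3 j p x hx (mem_Fp.1 hF) hdx hPx)
  · intro j x _ hx
    refine ell_ext fun q => ?_
    obtain ⟨X, g⟩ := q
    exact mem_Fp.1 hx X (Nat.lt_succ_of_le (Finset.card_le_card Finset.inter_subset_right)) g
  · intro x
    exact mem_Fp.2 fun X hX => absurd hX (Nat.not_lt_zero _)
  · intro p x hx
    exact mem_Fp.2 fun X hX => mem_Fp.1 hx X (Nat.lt_succ_of_lt hX)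
  · intro x hx
    refine ell_ext fun q => ?_
    obtain ⟨X, g⟩ := q
    rw [ell_zero]
    by_cases hX : Disjoint X T
    · rw [Pa_apply h x hX]
      have h1 : ∑ y ∈ wf M (TU M T X), x (X, g * y) = 0 := by
        refine Finset.sum_eq_zero fun y _ => mem_Fp.1 hx X ?_ _
        rw [Finset.disjoint_iff_inter_eq_empty.1 hX, Finset.card_empty]
        exact Nat.one_pos
      rw [h1, mul_zero]
    · exact Pa_zero M T x hX g

end tra

section fin

variable {V : Type} [Fintype V] [LinearOrder V] {M : CoxeterMatrix V} {T : Finset V}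

/-- Products with finite groups. -/
theorem prod_hh_at (h : Tc M T) (hc : ∀ t ∈ T, ∀ u, u ∉ T → M t u = 2) {j : ℕ}
    (h0 : HH M Tᶜ j = ⊥) : HH M univ j = ⊥ := by
  have hTU : ∀ X : Finset V, TU M T X = T := by
    intro X
    refine Finset.Subset.antisymm (TU_sub T X) fun t ht => ?_
    rw [mem_TU]
    exact ⟨ht, fun u _ hu => hc t ht u hu⟩
  refine transfer_at h (fun f hf hPf hdf ε hε => ?_)
  have hsupp : ∀ X : Finset V, ¬ Disjoint X T → ∀ g, f (X, g) = 0 := by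
    intro X hX g
    rw [← hPf]
    exact Pa_zero M T f hX g
  have hf' : f ∈ CC M Tᶜ j := by
    rw [mem_CC] at hf ⊢
    refine ⟨fun X hX g => ?_, hf.2⟩
    by_cases h1 : Disjoint X T
    · refine hf.1 X (fun h2 => hX ⟨?_, h2.2⟩) g
      intro x hx
      rw [mem_compl]
      exact Finset.disjoint_left.1 h1 hx
    · exact hsupp X h1 g
  have hb : Pa M T (bD M f) = bD M f := by
    refine Pa_eq h (fun X hX g => ?_) fun X hX g y hy => ?_
    · have h1 : bD M f (X, g) = ∑ s ∈ Xᶜ, sg X s * f (insert s X, g) := bD_apply f X g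
      rw [h1]
      refine Finset.sum_eq_zero fun s _ => ?_
      rw [hsupp _ fun h2 => hX (Finset.disjoint_of_subset_left (Finset.subset_insert s X) h2),
        mul_zero]
    · have h1 : ∀ g, bD M f (X, g) = ∑ s ∈ Xᶜ, sg X s * f (insert s X, g) := fun g =>
        bD_apply f X g
      rw [h1, h1]
      refine Finset.sum_congr rfl fun s _ => ?_
      congr 1
      rw [hTU] at hy
      rw [← hPf]
      exact Pa_inv h f _ g (by rw [hTU]; exact hy)
  rw [hb] at hdf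
  obtain ⟨k, hk, hkn⟩ := exists_of_hh h0 hf' hdf (ε := ε / (‖Pa M T‖ + 1)) (by positivity)
  have hk' : k ∈ CC M univ (j + 1) := CC_mono (subset_univ _) _ hk
  refine ⟨Pa M T k, Pa_mem h hk', Pa_Pa h k, ?_⟩
  rw [Pa_d_Pa h hk']
  have h1 : f - Pa M T (bD M k) = Pa M T (f - bD M k) := by rw [map_sub, hPf]
  rw [h1]
  calc ‖Pa M T (f - bD M k)‖ ≤ ‖Pa M T‖ * ‖f - bD M k‖ := (Pa M T).le_opNorm _
    _ ≤ ‖Pa M T‖ * (ε / (‖Pa M T‖ + 1)) := mul_le_mul_of_nonneg_left hkn.le (norm_nonneg _)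
    _ < (‖Pa M T‖ + 1) * (ε / (‖Pa M T‖ + 1)) :=
        mul_lt_mul_of_pos_right (lt_add_one _) (by positivity)
    _ = ε := by
        rw [mul_div_cancel₀]
        positivity

end fin

variable {V : Type} [DecidableEq V] {G : CoxeterMatrix V}

/-- Products with finite groups. -/
theorem zd_prod {A T : Finset V} (hd : Disjoint A T) (hT : Sph G T)
    (hc : ∀ t ∈ T, ∀ a ∈ A, G t a = 2) {j : ℕ} (h : ZD G A j) : ZD G (A ∪ T) j := by
  intro i0
  obtain ⟨i, hi⟩ := exists_order {x // x ∈ A ∪ T} fun x => x.1 ∈ T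
  refine (bb_order i0 i j).trans (bb_zero_iff.2 ?_)
  obtain ⟨T', hT'⟩ : ∃ T' : Finset {x // x ∈ A ∪ T}, T' = univ.filter fun x => x.1 ∈ T := ⟨_, rfl⟩
  have hm : ∀ x : {x // x ∈ A ∪ T}, x ∈ T' ↔ x.1 ∈ T := by
    intro x
    rw [hT', mem_filter]
    exact ⟨fun h1 => h1.2, fun h1 => ⟨mem_univ _, h1⟩⟩
  have hmA : ∀ x : {x // x ∈ A ∪ T}, x ∉ T' ↔ x.1 ∈ A := by
    intro x
    rw [hm]
    constructor
    · intro h1
      exact (mem_union.1 x.2).resolve_right h1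
    · exact fun h1 => Finset.disjoint_left.1 hd h1
  have hTc : Tc (sub G (A ∪ T)) T' := by
    refine ⟨?_, ?_, ?_⟩
    · rw [← sph_iff (M := G) (M' := sub G (A ∪ T))
        (Function.Embedding.subtype fun x => x ∈ A ∪ T) (fun _ _ => rfl)]
      have h1 : T'.map (Function.Embedding.subtype fun x => x ∈ A ∪ T) = T := by
        ext x
        rw [mem_map]
        constructor
        · rintro ⟨y, hy, rfl⟩
          exact (hm y).1 hy
        · intro hx
          exact ⟨⟨x, mem_union_right _ hx⟩, (hm _).2 hx, rfl⟩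
      rw [h1]
      exact hT
    · intro t ht u hu
      exact Or.inl (hc t.1 ((hm t).1 ht) u.1 ((hmA u).1 hu))
    · intro t ht u hu
      exact hi t u ((hm t).1 ht) fun h1 => hu ((hm u).2 h1)
  refine prod_hh_at hTc (fun t ht u hu => hc t.1 ((hm t).1 ht) u.1 ((hmA u).1 hu)) ?_
  rw [← bb_zero_iff, ← zd_iff, zd_image (G := sub G (A ∪ T)) (G' := G) Subtype.val
    (fun x _ y _ hxy => Subtype.ext hxy) fun x _ y _ => rfl]
  have h1 : ∀ C : Finset {x // x ∈ A ∪ T}, (∀ x, x ∈ C ↔ x.1 ∈ A) → C.image Subtype.val = A := by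
    intro C hC
    ext x
    rw [mem_image]
    constructor
    · rintro ⟨y, hy, rfl⟩
      exact (hC y).1 hy
    · intro hx
      exact ⟨⟨x, mem_union_left _ hx⟩, (hC _).2 hx, rfl⟩
  rw [h1 _ fun x => by rw [@mem_compl]; exact hmA x]
  exact h


end LBL
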