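import Pool.Agent.LBL.Loca
import Pool.Agent.LBU.Zp

/-!
# Project LBU (architect helper40), module Cub: the local systems in the upper half of the degrees

`ZW c M S`: the homology of the special subgroup generated by `S` vanishes in the degrees `j` with
`c < 2 j`.
-/

namespace LBL

open SCG SNG SCS Finset

/-- Vanishing in the degrees `j` with `c < 2 j`. -/
def ZW {V : Type} (c : ℤ) (M : CoxeterMatrix V) (S : Finset V) : Prop :=
  ∀ j : ℕ, c < 2 * (j : ℤ) → ZD M S j

theorem ZW.mono {V : Type} {c c' : ℤ} {M : CoxeterMatrix V} {S : Finset V} (h : ZW c M S)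
    (hc : c ≤ c') : ZW c' M S := fun j hj => h j (lt_of_le_of_lt hc hj)

theorem zw_of_zg {V : Type} {c : ℤ} {M : CoxeterMatrix V} {S : Finset V} (h : ZG M S) : ZW c M S :=
  fun j _ => zg_iff_zd.1 h j

variable {V : Type}

/-- The local systems of odd size vanish. -/
theorem cube_top [DecidableEq V] {M : CoxeterMatrix V} (hM : ∀ K, Clq M K → Sph M K)
    {Z K : Finset V} (hK : Clq M K) (hdis : Disjoint K Z) (hodd : Odd K.card)
    {R : Finset (V ⊕ V)} (hd : Disjoint (K.disjSum K) R)
    (hR : ∀ r ∈ R, ∀ x ∈ K.disjSum K, Bg M Z r x = 2) : ZG (Bg M Z) (K.disjSum K ∪ R) := by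
  classical
  obtain ⟨K₁, hK₁, hne, h2, iF, iO, h3⟩ := loc_all M hM K hK hodd
  have hS1 : Sph M K₁ := hM K₁ fun x hx y hy => hK x (hK₁ hx) y (hK₁ hy)
  rw [nohom_iff, vv_iff_zg] at h3
  have h4 : ZG (Bg M ∅) (K₁.disjSum K₁) := local_zg hS1 h3
  have h5 : ZG (Bg M Z) (K₁.disjSum K₁) := by
    have e2 : K₁.disjSum K₁ = Finset.image (id : V ⊕ V → V ⊕ V) (K₁.disjSum K₁) := by
      rw [Finset.image_id]
    rw [e2, ← zg_image (G := Bg M ∅) id (fun x _ y _ hxy => hxy)]
    · exact h4
    · intro u hu v hv
      rcases u with x | x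
      · rcases v with y | y
        · rw [Finset.inl_mem_disjSum] at hu hv
          change Bg M Z (Sum.inl x) (Sum.inl y) = Bg M ∅ (Sum.inl x) (Sum.inl y)
          by_cases hxy : x = y
          · rw [hxy, (Bg M Z).diagonal, (Bg M ∅).diagonal]
          · have h0 := hK x (hK₁ hu) y (hK₁ hv)
            rw [bg_ll hxy h0 (Finset.disjoint_left.1 hdis (hK₁ hu))
              (Finset.disjoint_left.1 hdis (hK₁ hv)), bg_ll hxy h0 (Finset.notMem_empty x)
              (Finset.notMem_empty y)]
        · rfl
      · rcases v with y | y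
        · rfl
        · rfl
  have e1 : K.disjSum K ∪ R = K₁.disjSum K₁ ∪ ((K \ K₁).disjSum (K \ K₁) ∪ R) := by
    rw [← Finset.union_assoc]
    congr 1
    ext v
    rcases v with x | x
    · rw [mem_union, Finset.inl_mem_disjSum, Finset.inl_mem_disjSum, Finset.inl_mem_disjSum,
        mem_sdiff]
      exact ⟨fun h => (em (x ∈ K₁)).imp id fun h' => ⟨h, h'⟩, fun h => h.elim (fun h => hK₁ h)
        fun h => h.1⟩
    · rw [mem_union, Finset.inr_mem_disjSum, Finset.inr_mem_disjSum, Finset.inr_mem_disjSum,
        mem_sdiff]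
      exact ⟨fun h => (em (x ∈ K₁)).imp id fun h' => ⟨h, h'⟩, fun h => h.elim (fun h => hK₁ h)
        fun h => h.1⟩
  have hsub : K₁.disjSum K₁ ⊆ K.disjSum K := Finset.disjSum_mono hK₁ hK₁
  rw [e1]
  refine zg_join ?_ ?_ (fun C _ hC => bg_flag hM Z C hC) h5
  · rw [Finset.disjoint_union_right]
    refine ⟨?_, Finset.disjoint_of_subset_left hsub hd⟩
    rw [Finset.disjoint_left]
    intro v hv hv'
    rcases v with x | x
    · rw [Finset.inl_mem_disjSum] at hv hv'
      exact (mem_sdiff.1 hv').2 hv
    · rw [Finset.inr_mem_disjSum] at hv hv'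
      exact (mem_sdiff.1 hv').2 hv
  · intro b hb a ha
    rcases mem_union.1 hb with hb | hb
    · -- `a` over `s ∈ K₁`, `b` over `t ∈ K \ K₁`
      have key : ∀ t, t ∈ K \ K₁ → ∀ s ∈ K₁, t ≠ s ∧ M t s ≠ 0 := by
        intro t ht s hs
        rw [mem_sdiff] at ht
        refine ⟨?_, hK t ht.1 s (hK₁ hs)⟩
        rintro rfl
        exact ht.2 hs
      rcases b with t | t
      · rw [Finset.inl_mem_disjSum] at hb
        rcases a with s | s
        · rw [Finset.inl_mem_disjSum] at ha
          obtain ⟨k1, k2⟩ := key t hb s ha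
          rw [mem_sdiff] at hb
          rw [bg_ll k1 k2 (Finset.disjoint_left.1 hdis hb.1)
            (Finset.disjoint_left.1 hdis (hK₁ ha)), M.symmetric]
          exact h2 s ha t hb.1 hb.2
        · rw [Finset.inr_mem_disjSum] at ha
          obtain ⟨k1, k2⟩ := key t hb s ha
          exact bg_lr k1 k2
      · rw [Finset.inr_mem_disjSum] at hb
        rcases a with s | s
        · rw [Finset.inl_mem_disjSum] at ha
          obtain ⟨k1, k2⟩ := key t hb s ha
          rw [(Bg M Z).symmetric]
          exact bg_lr k1.symm (by rwa [M.symmetric])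
        · rw [Finset.inr_mem_disjSum] at ha
          obtain ⟨k1, k2⟩ := key t hb s ha
          exact bg_rr k1 k2
    · exact hR b hb a (hsub ha)

section cube

variable [DecidableEq V] {M : CoxeterMatrix V} {Z : Finset V} {R : Finset (V ⊕ V)}

private theorem cone_aux {K T : Finset V} {s : V} (hK : Clq M K) (hdis : Disjoint K Z)
    (hTK : insert s T ⊆ K) (hs : s ∉ T) (hd : Disjoint (K.disjSum K) R)
    (hR : ∀ r ∈ R, ∀ x ∈ K.disjSum K, Bg M Z r x = 2) :
    (K.disjSum T ∪ R) ∪ insert (Sum.inr s) ((K.erase s).disjSum T ∪ R) =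
        K.disjSum (insert s T) ∪ R ∧
      (K.disjSum T ∪ R) ∩ insert (Sum.inr s) ((K.erase s).disjSum T ∪ R) =
        (K.erase s).disjSum T ∪ R ∧
      NoE (Bg M Z) (K.disjSum T ∪ R) (insert (Sum.inr s) ((K.erase s).disjSum T ∪ R)) ∧
      Sum.inr s ∉ (K.erase s).disjSum T ∪ R ∧
      ∀ y ∈ (K.erase s).disjSum T ∪ R, Bg M Z (Sum.inr s) y = 2 := by
  have hsK : s ∈ K := hTK (mem_insert_self s T)
  have hsR : Sum.inr s ∉ R := Finset.disjoint_left.1 hd (Finset.inr_mem_disjSum.2 hsK)
  have hmem : ∀ v, v ∈ (K.erase s).disjSum T ∪ R ↔ v ≠ Sum.inl s ∧ v ∈ K.disjSum T ∪ R := by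
    intro v
    rw [mem_union, mem_union]
    rcases v with x | x
    · rw [Finset.inl_mem_disjSum, Finset.inl_mem_disjSum, mem_erase]
      constructor
      · rintro (h | h)
        · exact ⟨fun e => h.1 (Sum.inl_injective e), Or.inl h.2⟩
        · refine ⟨fun e => ?_, Or.inr h⟩
          rw [e] at h
          exact Finset.disjoint_left.1 hd (Finset.inl_mem_disjSum.2 hsK) h
      · rintro ⟨h1, h | h⟩
        · exact Or.inl ⟨fun e => h1 (by rw [e]), h⟩
        · exact Or.inr h
    · rw [Finset.inr_mem_disjSum, Finset.inr_mem_disjSum]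
      exact ⟨fun h => ⟨by simp, h⟩, fun h => h.2⟩
  have hns : Sum.inr s ∉ K.disjSum T ∪ R := by
    rw [mem_union, Finset.inr_mem_disjSum, not_or]
    exact ⟨hs, hsR⟩
  have hns' : Sum.inr s ∉ (K.erase s).disjSum T ∪ R := fun h => hns ((hmem _).1 h).2
  refine ⟨?_, ?_, ?_, hns', ?_⟩
  · ext v
    rw [mem_union, mem_insert, hmem, mem_union, mem_union (s := K.disjSum (insert s T))]
    rcases v with x | x
    · rw [Finset.inl_mem_disjSum, Finset.inl_mem_disjSum]
      constructor
      · rintro (h | h | h)
        · exact h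
        · exact absurd h (by simp)
        · exact h.2
      · exact fun h => Or.inl h
    · rw [Finset.inr_mem_disjSum, Finset.inr_mem_disjSum, mem_insert]
      constructor
      · rintro (h | h | h)
        · exact h.imp Or.inr id
        · exact Or.inl (Or.inl (Sum.inr_injective h))
        · exact h.2.imp Or.inr id
      · rintro ((h | h) | h)
        · exact Or.inr (Or.inl (by rw [h]))
        · exact Or.inl (Or.inl h)
        · exact Or.inl (Or.inr h)
  · ext v
    rw [Finset.mem_inter, mem_insert]
    constructor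
    · rintro ⟨h1, h | h⟩
      · rw [h] at h1
        exact absurd h1 hns
      · exact h
    · exact fun h => ⟨((hmem v).1 h).2, Or.inr h⟩
  · intro x hx hx' y hy hy'
    have h1 : x = Sum.inl s := by
      by_contra h
      exact hx' (mem_insert_of_mem ((hmem x).2 ⟨h, hx⟩))
    have h2 : y = Sum.inr s := by
      rcases mem_insert.1 hy with h | h
      · exact h
      · exact absurd ((hmem y).1 h).2 hy'
    rw [h1, h2]
    exact bg_lr0 (Or.inl rfl)
  · intro y hy
    rcases mem_union.1 hy with h | h
    · rcases y with x | x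
      · rw [Finset.inl_mem_disjSum, mem_erase] at h
        rw [(Bg M Z).symmetric]
        exact bg_lr h.1 (hK x h.2 s hsK)
      · rw [Finset.inr_mem_disjSum] at h
        have hne : s ≠ x := by
          rintro rfl
          exact hs h
        exact bg_rr hne (hK s hsK x (hTK (mem_insert_of_mem h)))
    · rw [(Bg M Z).symmetric]
      exact hR y h _ (Finset.inr_mem_disjSum.2 hsK)

/-- The local systems in the upper half of the degrees. -/
theorem cube {c : ℤ} (hM : ∀ K, Clq M K → Sph M K) (hc : ZW c (Bg M Z) R) :
    ∀ (k : ℕ) (K : Finset V), K.card = k → Clq M K → Disjoint K Z → Disjoint (K.disjSum K) R →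
      (∀ r ∈ R, ∀ x ∈ K.disjSum K, Bg M Z r x = 2) → ∀ T ⊆ K,
      ZW (c + 2 * ((k / 2 : ℕ) : ℤ)) (Bg M Z) (K.disjSum T ∪ R) := by
  classical
  intro k
  induction k with
  | zero =>
    intro K hk hK hdis hd hR T hT
    rw [card_eq_zero] at hk
    subst hk
    rw [Finset.subset_empty] at hT
    subst hT
    rw [Finset.empty_disjSum, Finset.map_empty, Finset.empty_union]
    exact hc.mono (by simp)
  | succ k ih =>
    intro K hk hK hdis hd hR
    -- the smaller systems
    have hsm : ∀ s ∈ K, ∀ T ⊆ K.erase s,
        ZW (c + 2 * ((k / 2 : ℕ) : ℤ)) (Bg M Z) ((K.erase s).disjSum T ∪ R) := by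
      intro s hs T hT
      have hsub : (K.erase s).disjSum (K.erase s) ⊆ K.disjSum K :=
        Finset.disjSum_mono (erase_subset _ _) (erase_subset _ _)
      refine ih (K.erase s) ?_ (fun x hx y hy => hK x (mem_of_mem_erase hx) y (mem_of_mem_erase hy))
        (Finset.disjoint_of_subset_left (erase_subset _ _) hdis)
        (Finset.disjoint_of_subset_left hsub hd) (fun r hr x hx => hR r hr x (hsub hx)) T hT
      rw [card_erase_of_mem hs, hk]
      rfl
    rcases Nat.even_or_odd (k + 1) with hev | hodd
    · -- even size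
      have hk2 : 2 * ((k / 2 : ℕ) : ℤ) + 2 = 2 * (((k + 1) / 2 : ℕ) : ℤ) := by
        obtain ⟨m, hm⟩ := hev
        have h1 : k / 2 = m - 1 := by omega
        have h2 : (k + 1) / 2 = m := by omega
        have h3 : 1 ≤ m := by omega
        rw [h1, h2]
        push_cast [h3]
        ring
      intro T
      induction T using Finset.induction_on with
      | empty =>
        intro _ j hj
        have h0 : K.disjSum (∅ : Finset V) ∪ R = R ∪ K.disjSum (∅ : Finset V) :=
          Finset.union_comm _ _
        have hsub : K.disjSum (∅ : Finset V) ⊆ K.disjSum K :=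
          Finset.disjSum_mono (Finset.Subset.refl _) (Finset.empty_subset _)
        rw [h0]
        refine zd_prod (Finset.disjoint_of_subset_left hsub hd).symm ?_ ?_ (hc j (by
          have h4 : (0 : ℤ) ≤ 2 * (((k + 1) / 2 : ℕ) : ℤ) := by positivity
          omega))
        · refine bg_flag hM Z _ fun u hu v hv => ?_
          rcases u with x | x
          · rcases v with y | y
            · rw [Finset.inl_mem_disjSum] at hu hv
              exact bg_ll_ne.2 (hK x hu y hv)
            · rw [Finset.inr_mem_disjSum] at hv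
              exact absurd hv (Finset.notMem_empty _)
          · rw [Finset.inr_mem_disjSum] at hu
            exact absurd hu (Finset.notMem_empty _)
        · intro t ht a ha
          rw [(Bg M Z).symmetric]
          exact hR a ha t (hsub ht)
      | insert s T hs ihT =>
        intro hT j hj
        obtain ⟨e1, e2, e3, e4, e5⟩ := cone_aux hK hdis hT hs hd hR
        have hsK : s ∈ K := hT (mem_insert_self s T)
        have hTK : T ⊆ K := (subset_insert s T).trans hT
        have hTe : T ⊆ K.erase s := fun x hx => mem_erase.2 ⟨fun e => hs (e ▸ hx), hTK hx⟩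
        have h1 := hsm s hsK T hTe
        rw [← e1]
        refine zd_mv_all e3 (ihT hTK j hj) ((zd_cone e4 e5).2 (h1 j (by omega))) fun i hi => ?_
        rw [e2]
        refine h1 i ?_
        rw [hi] at hj
        push_cast at hj
        omega
    · -- odd size
      have hk2 : 2 * ((k / 2 : ℕ) : ℤ) = 2 * (((k + 1) / 2 : ℕ) : ℤ) := by
        obtain ⟨m, hm⟩ := hodd
        have h1 : k / 2 = m := by omega
        have h2 : (k + 1) / 2 = m := by omega
        rw [h1, h2]
      have key : ∀ (n : ℕ) (T : Finset V), T ⊆ K → (K \ T).card = n →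
          ZW (c + 2 * (((k + 1) / 2 : ℕ) : ℤ)) (Bg M Z) (K.disjSum T ∪ R) := by
        intro n
        induction n with
        | zero =>
          intro T hT hn
          rw [card_eq_zero, sdiff_eq_empty_iff_subset] at hn
          rw [Finset.Subset.antisymm hT hn]
          exact zw_of_zg (cube_top hM hK hdis (by rw [hk]; exact hodd) hd hR)
        | succ n ihn =>
          intro T hT hn j hj
          obtain ⟨s, hs⟩ : (K \ T).Nonempty := by
            rw [← card_pos, hn]
            exact Nat.succ_pos n
          rw [mem_sdiff] at hs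
          have hsT : insert s T ⊆ K := by
            intro x hx
            rcases mem_insert.1 hx with rfl | hx
            · exact hs.1
            · exact hT hx
          have h2 := ihn (insert s T) hsT (by
            have h3 : K \ insert s T = (K \ T).erase s := by
              ext x
              rw [mem_sdiff, mem_insert, mem_erase, mem_sdiff]
              tauto
            rw [h3, card_erase_of_mem (mem_sdiff.2 hs), hn]
            rfl)
          obtain ⟨e1, e2, e3, e4, e5⟩ := cone_aux hK hdis hsT hs.2 hd hR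
          have hTe : T ⊆ K.erase s := fun x hx => mem_erase.2 ⟨fun e => hs.2 (e ▸ hx), hT hx⟩
          refine zd_part e3 ?_ ?_
          · rw [e1]
            exact h2 j hj
          · rw [e2]
            exact hsm s hs.1 T hTe j (by omega)
      exact fun T hT => key _ T hT rfl

end cube

end LBL
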