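import Pool.Agent.LBL.Pl
import Pool.Agent.LBL.Sg
import Pool.Agent.SCG.Chn2

/-!
# Project LBU (architect helper40), module Dxa: the cubical complex of the Davis complex

The cubes are the intervals `[g W_T, g W_U]`, `T ⊆ U`, `U` spherical.  `EE M n i`: square summable
functions `f ((T, U), g)` with `|U| + i = |T| + n` and `f ((T, U), g s) = - f ((T, U), g)`, `s ∈ T`.
`dX M`: `(d f) (T, U) = ∑_{s ∈ U - T} (± f (T, U - s) ± f (T + s, U))`.
-/

namespace LBL

open SCG SNG SCS Finset

/-- square summable functions on the set of triples `(T, U, g)` -/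
abbrev HX {V : Type} (M : CoxeterMatrix V) : Type := L2 (Finset V × Finset V) M.Group

/-- The chains of degree `i`. -/
def EE {V : Type} (M : CoxeterMatrix V) (n i : ℕ) : Submodule ℝ (HX M) where
  carrier := {f | (∀ T U : Finset V, ¬ (T ⊆ U ∧ Sph M U ∧ U.card + i = T.card + n) →
      ∀ g, f ((T, U), g) = 0) ∧
    ∀ T U : Finset V, ∀ s ∈ T, ∀ g, f ((T, U), g * gn M s) = - f ((T, U), g)}
  add_mem' := by
    rintro f h ⟨hf1, hf2⟩ ⟨hh1, hh2⟩
    refine ⟨fun T U hT g => ?_, fun T U s hs g => ?_⟩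
    · rw [ell_add, hf1 T U hT, hh1 T U hT, add_zero]
    · rw [ell_add, ell_add, hf2 T U s hs, hh2 T U s hs]
      ring
  zero_mem' := ⟨fun T U _ g => rfl, fun T U s _ g => by rw [ell_zero, ell_zero, neg_zero]⟩
  smul_mem' := by
    rintro a f ⟨hf1, hf2⟩
    refine ⟨fun T U hT g => ?_, fun T U s hs g => ?_⟩
    · rw [ell_smul, hf1 T U hT, mul_zero]
    · rw [ell_smul, ell_smul, hf2 T U s hs]
      ring

theorem mem_EE {V : Type} {M : CoxeterMatrix V} {n i : ℕ} {f : HX M} : f ∈ EE M n i ↔
    (∀ T U : Finset V, ¬ (T ⊆ U ∧ Sph M U ∧ U.card + i = T.card + n) → ∀ g, f ((T, U), g) = 0) ∧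
    ∀ T U : Finset V, ∀ s ∈ T, ∀ g, f ((T, U), g * gn M s) = - f ((T, U), g) := Iff.rfl

/-- sums of antisymmetric functions -/
theorem sum_anti {V : Type} [DecidableEq V] (D : Finset V) (F : V → V → ℝ)
    (h : ∀ s ∈ D, ∀ t ∈ D, s ≠ t → F s t = - F t s) : ∑ s ∈ D, ∑ t ∈ D.erase s, F s t = 0 := by
  obtain ⟨F', hF'⟩ : ∃ F' : V → V → ℝ, ∀ s t, F' s t = if s = t then 0 else F s t :=
    ⟨_, fun _ _ => rfl⟩
  have h1 : ∑ s ∈ D, ∑ t ∈ D.erase s, F s t = ∑ s ∈ D, ∑ t ∈ D, F' s t := by
    refine Finset.sum_congr rfl fun s hs => ?_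
    rw [← Finset.sum_subset (Finset.erase_subset s D)]
    · refine Finset.sum_congr rfl fun t ht => ?_
      rw [hF', if_neg fun e => (Finset.mem_erase.1 ht).1 e.symm]
    · intro t ht ht'
      have h2 : s = t := by
        by_contra h3
        exact ht' (Finset.mem_erase.2 ⟨fun e => h3 e.symm, ht⟩)
      rw [hF', if_pos h2]
  have h2 : ∑ s ∈ D, ∑ t ∈ D, F' s t = - ∑ s ∈ D, ∑ t ∈ D, F' s t := by
    conv_lhs => rw [Finset.sum_comm]
    rw [← Finset.sum_neg_distrib]
    refine Finset.sum_congr rfl fun s hs => ?_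
    rw [← Finset.sum_neg_distrib]
    refine Finset.sum_congr rfl fun t ht => ?_
    rw [hF', hF']
    by_cases h3 : s = t
    · rw [if_pos h3, if_pos h3.symm, neg_zero]
    · rw [if_neg h3, if_neg (Ne.symm h3)]
      exact h t ht s hs (Ne.symm h3)
  rw [h1]
  linarith

variable {V : Type} [LinearOrder V] {M : CoxeterMatrix V}

theorem sg_erase_swap {U : Finset V} {s t : V} (hs : s ∈ U) (ht : t ∈ U) (hst : s ≠ t) :
    sg (U.erase s) s * sg ((U.erase s).erase t) t = - (sg (U.erase t) t * sg ((U.erase t).erase s) s) := by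
  obtain ⟨A, hA⟩ : ∃ A, A = (U.erase s).erase t := ⟨_, rfl⟩
  have hsA : s ∉ A := by
    rw [hA]
    simp
  have htA : t ∉ A := by
    rw [hA]
    simp
  have h1 : U.erase s = insert t A := by
    rw [hA, Finset.insert_erase (Finset.mem_erase.2 ⟨hst.symm, ht⟩)]
  have h2 : U.erase t = insert s A := by
    rw [hA, Finset.erase_right_comm, Finset.insert_erase (Finset.mem_erase.2 ⟨hst, hs⟩)]
  have h3 : (insert s A).erase s = A := Finset.erase_insert hsA
  have h4 : (insert t A).erase t = A := Finset.erase_insert htA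
  rw [h1, h2, h3, h4, mul_comm, sg_swap htA hsA hst.symm, mul_comm (sg A s)]

variable [Fintype V]

open Classical in
theorem exists_dX (M : CoxeterMatrix V) : ∃ D : HX M →L[ℝ] HX M, ∀ f T U g,
    D f ((T, U), g) = if T ⊆ U ∧ Sph M U then
      ∑ s ∈ U \ T, ((-1) ^ T.card * sg (U.erase s) s * f ((T, U.erase s), g) +
        sg T s * f ((insert s T, U), g)) else 0 := by
  obtain ⟨A, hA⟩ := exists_op (α := (Finset V × Finset V) × M.Group)
    (β := (Finset V × Finset V) × M.Group) (univ : Finset V)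
    (φ := fun s q => ((q.1.1, q.1.2.erase s), q.2))
    (c := fun s q => if (q.1.1 ⊆ q.1.2 ∧ Sph M q.1.2) ∧ s ∈ q.1.2 \ q.1.1 then
      (-1) ^ q.1.1.card * sg (q.1.2.erase s) s else 0) (B := fun _ => 1) (by
      intro s q
      split_ifs
      · rw [abs_mul, abs_sg, abs_pow, abs_neg, abs_one, one_pow, mul_one]
      · rw [abs_zero]
        exact zero_le_one) (by
      intro s q q' hq hq' he
      have h1 : s ∈ q.1.2 := by
        by_contra hcon
        exact hq (if_neg fun h => hcon (mem_sdiff.1 h.2).1)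
      have h2 : s ∈ q'.1.2 := by
        by_contra hcon
        exact hq' (if_neg fun h => hcon (mem_sdiff.1 h.2).1)
      have h3 := congrArg (fun z : (Finset V × Finset V) × M.Group => z.1.1) he
      have h4 := congrArg (fun z : (Finset V × Finset V) × M.Group => insert s z.1.2) he
      have h5 := congrArg (fun z : (Finset V × Finset V) × M.Group => z.2) he
      change insert s (q.1.2.erase s) = insert s (q'.1.2.erase s) at h4
      rw [Finset.insert_erase h1, Finset.insert_erase h2] at h4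
      exact Prod.ext (Prod.ext h3 h4) h5)
  obtain ⟨B, hB⟩ := exists_op (α := (Finset V × Finset V) × M.Group)
    (β := (Finset V × Finset V) × M.Group) (univ : Finset V)
    (φ := fun s q => ((insert s q.1.1, q.1.2), q.2))
    (c := fun s q => if (q.1.1 ⊆ q.1.2 ∧ Sph M q.1.2) ∧ s ∈ q.1.2 \ q.1.1 then
      sg q.1.1 s else 0) (B := fun _ => 1) (by
      intro s q
      split_ifs
      · exact (abs_sg _ _).le
      · rw [abs_zero]
        exact zero_le_one) (by
      intro s q q' hq hq' he
      have h1 : s ∉ q.1.1 := by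
        by_contra hcon
        exact hq (if_neg fun h => (mem_sdiff.1 h.2).2 hcon)
      have h2 : s ∉ q'.1.1 := by
        by_contra hcon
        exact hq' (if_neg fun h => (mem_sdiff.1 h.2).2 hcon)
      have h3 := congrArg (fun z : (Finset V × Finset V) × M.Group => z.1.1.erase s) he
      have h4 := congrArg (fun z : (Finset V × Finset V) × M.Group => z.1.2) he
      have h5 := congrArg (fun z : (Finset V × Finset V) × M.Group => z.2) he
      change (insert s q.1.1).erase s = (insert s q'.1.1).erase s at h3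
      rw [Finset.erase_insert h1, Finset.erase_insert h2] at h3
      exact Prod.ext (Prod.ext h3 h4) h5)
  refine ⟨A + B, fun f T U g => ?_⟩
  have h0 : (A + B) f ((T, U), g) = A f ((T, U), g) + B f ((T, U), g) := rfl
  rw [h0, hA, hB]
  by_cases h : T ⊆ U ∧ Sph M U
  · rw [if_pos h, Finset.sum_add_distrib]
    congr 1
    · rw [← Finset.sum_subset (Finset.subset_univ (U \ T))]
      · exact Finset.sum_congr rfl fun s hs => by rw [if_pos ⟨h, hs⟩]
      · intro s _ hs
        rw [if_neg fun h1 => hs h1.2, zero_mul]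
    · rw [← Finset.sum_subset (Finset.subset_univ (U \ T))]
      · exact Finset.sum_congr rfl fun s hs => by rw [if_pos ⟨h, hs⟩]
      · intro s _ hs
        rw [if_neg fun h1 => hs h1.2, zero_mul]
  · rw [if_neg h, Finset.sum_eq_zero, Finset.sum_eq_zero, add_zero]
    · intro s _
      rw [if_neg fun h1 => h h1.1, zero_mul]
    · intro s _
      rw [if_neg fun h1 => h h1.1, zero_mul]

/-- The differential. -/
noncomputable def dX (M : CoxeterMatrix V) : HX M →L[ℝ] HX M := (exists_dX M).choose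

theorem dX_apply (f : HX M) {T U : Finset V} (h : T ⊆ U ∧ Sph M U) (g : M.Group) :
    dX M f ((T, U), g) =
      ∑ s ∈ U \ T, ((-1) ^ T.card * sg (U.erase s) s * f ((T, U.erase s), g) +
        sg T s * f ((insert s T, U), g)) := by
  classical
  have h1 := (exists_dX M).choose_spec f T U g
  rwa [if_pos h] at h1

theorem dX_not (f : HX M) {T U : Finset V} (h : ¬ (T ⊆ U ∧ Sph M U)) (g : M.Group) :
    dX M f ((T, U), g) = 0 := by
  classical
  have h1 := (exists_dX M).choose_spec f T U g
  rwa [if_neg h] at h1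

/-- Values of the differential. -/
theorem dX_zero_of (f : HX M) {T U : Finset V} {g : M.Group}
    (h1 : T ⊆ U → Sph M U → ∀ s ∈ U \ T, f ((T, U.erase s), g) = 0)
    (h2 : T ⊆ U → Sph M U → ∀ s ∈ U \ T, f ((insert s T, U), g) = 0) :
    dX M f ((T, U), g) = 0 := by
  by_cases h : T ⊆ U ∧ Sph M U
  · rw [dX_apply f h]
    refine Finset.sum_eq_zero fun s hs => ?_
    rw [h1 h.1 h.2 s hs, h2 h.1 h.2 s hs, mul_zero, mul_zero, add_zero]
  · exact dX_not f h g

theorem dX_mem {n i : ℕ} {f : HX M} (hf : f ∈ EE M n (i + 1)) : dX M f ∈ EE M n i := by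
  rw [mem_EE] at hf ⊢
  refine ⟨fun T U hT g => ?_, fun T U s hs g => ?_⟩
  · refine dX_zero_of f (fun hTU hU s hs => ?_) fun hTU hU s hs => ?_
    · rw [mem_sdiff] at hs
      refine hf.1 _ _ (fun h => hT ⟨hTU, hU, ?_⟩) g
      have h1 := h.2.2
      have h2 := Finset.card_erase_add_one hs.1
      omega
    · rw [mem_sdiff] at hs
      refine hf.1 _ _ (fun h => hT ⟨hTU, hU, ?_⟩) g
      have h1 := h.2.2
      rw [Finset.card_insert_of_notMem hs.2] at h1
      omega
  · by_cases h : T ⊆ U ∧ Sph M U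
    · rw [dX_apply f h, dX_apply f h, ← Finset.sum_neg_distrib]
      refine Finset.sum_congr rfl fun t _ => ?_
      rw [hf.2 T _ s hs, hf.2 _ U s (Finset.mem_insert_of_mem hs)]
      ring
    · rw [dX_not f h, dX_not f h, neg_zero]

theorem dX_bot {n : ℕ} (hn : ∀ U, Sph M U → U.card ≤ n) {f : HX M} (hf : f ∈ EE M n 0) :
    dX M f = 0 := by
  rw [mem_EE] at hf
  refine ell_ext fun q => ?_
  obtain ⟨⟨T, U⟩, g⟩ := q
  rw [ell_zero]
  refine dX_zero_of f (fun hTU hU s hs => ?_) fun hTU hU s hs => ?_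
  · rw [mem_sdiff] at hs
    refine hf.1 _ _ (fun h => ?_) g
    have h1 := h.2.2
    have h2 := Finset.card_erase_add_one hs.1
    have h3 := hn U hU
    omega
  · rw [mem_sdiff] at hs
    refine hf.1 _ _ (fun h => ?_) g
    have h1 := h.2.2
    rw [Finset.card_insert_of_notMem hs.2] at h1
    have h3 := hn U hU
    omega

theorem dX_dX (f : HX M) : dX M (dX M f) = 0 := by
  refine ell_ext fun q => ?_
  obtain ⟨⟨T, U⟩, g⟩ := q
  rw [ell_zero]
  by_cases h : T ⊆ U ∧ Sph M U
  swap
  · exact dX_not _ h g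
  rw [dX_apply _ h]
  have h0 : ∀ s ∈ U \ T, ((-1) ^ T.card * sg (U.erase s) s * dX M f ((T, U.erase s), g) +
        sg T s * dX M f ((insert s T, U), g)) = ∑ t ∈ (U \ T).erase s,
        (sg (U.erase s) s * sg ((U.erase s).erase t) t * f ((T, (U.erase s).erase t), g) +
          (-1) ^ T.card * (sg (U.erase s) s * sg T t * f ((insert t T, U.erase s), g) -
            sg (U.erase t) t * sg T s * f ((insert s T, U.erase t), g)) +
          sg T s * sg (insert s T) t * f ((insert t (insert s T), U), g)) := by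
    intro s hs
    rw [mem_sdiff] at hs
    have h1 : T ⊆ U.erase s ∧ Sph M (U.erase s) :=
      ⟨fun x hx => Finset.mem_erase.2 ⟨fun e => hs.2 (e ▸ hx), h.1 hx⟩,
        sph_mono (Finset.erase_subset _ _) h.2⟩
    have h2 : insert s T ⊆ U ∧ Sph M U := ⟨Finset.insert_subset hs.1 h.1, h.2⟩
    rw [dX_apply _ h1, dX_apply _ h2]
    have e1 : (U.erase s) \ T = (U \ T).erase s := by
      ext x
      simp only [mem_sdiff, mem_erase]
      tauto
    have e2 : U \ insert s T = (U \ T).erase s := by
      ext x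
      simp only [mem_sdiff, mem_erase, mem_insert]
      tauto
    rw [e1, e2, Finset.mul_sum, Finset.mul_sum, ← Finset.sum_add_distrib]
    refine Finset.sum_congr rfl fun t _ => ?_
    have h3 : (-1 : ℝ) ^ (insert s T).card = - (-1) ^ T.card := by
      rw [Finset.card_insert_of_notMem hs.2, pow_succ]
      ring
    have h4 : (-1 : ℝ) ^ T.card * (-1) ^ T.card = 1 := by
      rw [← mul_pow]
      norm_num
    rw [h3]
    linear_combination (sg (U.erase s) s * sg ((U.erase s).erase t) t *
      f ((T, (U.erase s).erase t), g)) * h4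
  rw [Finset.sum_congr rfl h0]
  refine sum_anti _ _ fun s hs t ht hst => ?_
  rw [mem_sdiff] at hs ht
  have h1 := sg_erase_swap hs.1 ht.1 hst
  have h2 := sg_swap hs.2 ht.2 hst
  have e3 : (U.erase t).erase s = (U.erase s).erase t := Finset.erase_right_comm
  have e4 : insert s (insert t T) = insert t (insert s T) := Finset.insert_comm s t T
  rw [e3] at h1
  rw [e3, e4]
  linear_combination (f ((T, (U.erase s).erase t), g)) * h1 +
    (f ((insert t (insert s T), U), g)) * h2

end LBL
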