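import Pool.Agent.LBU.Dxp
import Pool.Agent.LBL.Op

/-!
# Project LBU (architect helper40), module Dxk: the contraction in the direction of `T`
-/

namespace LBL

open SCG SNG SCS Finset
open scoped InnerProductSpace

variable {V : Type} [Fintype V] [LinearOrder V] {M : CoxeterMatrix V}

/-- The function on the Coxeter polytope of `U` at `g`. -/
noncomputable def zx {U : Finset V} (φ : (sub M U).Group →* M.Group) (f : HX M) (g : M.Group)
    (Y : Finset {x // x ∈ U}) (x : (sub M U).Group) : ℝ := f ((Y.map (ej U), U), g * φ x)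

omit [Fintype V] in
theorem sg_map (U : Finset V) (Y : Finset {x // x ∈ U}) (s : {x // x ∈ U}) :
    sg (Y.map (ej U)) s.1 = sg Y s := by
  unfold sg
  congr 1
  rw [Finset.filter_map, Finset.card_map]
  rfl

omit [Fintype V] in
theorem map_compl_rY {U T : Finset V} (hT : T ⊆ U) : ((rY U T)ᶜ).map (ej U) = U \ T := by
  ext x
  rw [mem_map, mem_sdiff]
  constructor
  · rintro ⟨y, hy, rfl⟩
    rw [mem_compl] at hy
    refine ⟨y.2, fun h => hy ?_⟩
    unfold rY
    rw [mem_filter]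
    exact ⟨mem_univ _, h⟩
  · rintro ⟨h1, h2⟩
    refine ⟨⟨x, h1⟩, ?_, rfl⟩
    rw [mem_compl]
    unfold rY
    rw [mem_filter]
    exact fun h => h2 h.2

omit [Fintype V] in
theorem map_rY' {U T : Finset V} (hT : T ⊆ U) : (rY U T).map (ej U) = T := by
  rw [map_rY, Finset.inter_eq_left]
  exact hT

omit [Fintype V] in
theorem rY_insert (U T : Finset V) (s : {x // x ∈ U}) : rY U (insert s.1 T) = insert s (rY U T) := by
  ext x
  unfold rY
  rw [mem_filter, mem_insert, mem_insert, mem_filter, Subtype.ext_iff]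
  simp

omit [Fintype V] in
theorem mapsubU (U : Finset V) (Y : Finset {x // x ∈ U}) : Y.map (ej U) ⊆ U := by
  intro x hx
  obtain ⟨y, -, rfl⟩ := mem_map.1 hx
  exact y.2

theorem exists_KU {U : Finset V} [Fintype (sub M U).Group] (φ : (sub M U).Group →* M.Group)
    (k : Finset {x // x ∈ U} → Finset {x // x ∈ U} → (sub M U).Group → ℝ) :
    ∃ K : HX M →L[ℝ] HX M, ∀ f T U' g, K f ((T, U'), g) =
      if U' = U ∧ T ⊆ U then kap k (zx φ f g) (rY U T) 1 else 0 := by
  obtain ⟨K, hK⟩ := exists_op (α := (Finset V × Finset V) × M.Group)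
    (β := (Finset V × Finset V) × M.Group)
    (I := Finset {x // x ∈ U} × Finset {x // x ∈ U} × (sub M U).Group) univ
    (φ := fun i q => ((i.2.1.map (ej U), U), q.2 * φ i.2.2))
    (c := fun i q => if q.1.2 = U ∧ q.1.1 = i.1.map (ej U) then k i.1 i.2.1 i.2.2 else 0)
    (B := fun i => |k i.1 i.2.1 i.2.2|) (by
      intro i q
      split_ifs
      · exact le_rfl
      · rw [abs_zero]
        exact abs_nonneg _) (by
      intro i q q' hq hq' he
      have h1 : q.1.2 = U ∧ q.1.1 = i.1.map (ej U) := by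
        by_contra hcon
        exact hq (if_neg hcon)
      have h2 : q'.1.2 = U ∧ q'.1.1 = i.1.map (ej U) := by
        by_contra hcon
        exact hq' (if_neg hcon)
      have h4 := congrArg Prod.snd he
      exact Prod.ext (Prod.ext (h1.2.trans h2.2.symm) (h1.1.trans h2.1.symm))
        (mul_right_cancel h4))
  refine ⟨K, fun f T U' g => ?_⟩
  rw [hK, Fintype.sum_prod_type]
  by_cases h1 : U' = U ∧ T ⊆ U
  · rw [if_pos h1, Finset.sum_eq_single (rY U T), Fintype.sum_prod_type]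
    · unfold kap zx
      refine Finset.sum_congr rfl fun Y' _ => Finset.sum_congr rfl fun x _ => ?_
      rw [one_mul]
      congr 1
      exact if_pos ⟨h1.1, (map_rY' h1.2).symm⟩
    · intro Y _ hY
      refine Finset.sum_eq_zero fun i _ => ?_
      rw [if_neg, zero_mul]
      rintro ⟨-, h3⟩
      change T = Y.map (ej U) at h3
      apply hY
      refine Finset.map_injective (ej U) ?_
      rw [map_rY' h1.2, ← h3]
    · exact fun h3 => absurd (mem_univ _) h3
  · rw [if_neg h1]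
    refine Finset.sum_eq_zero fun Y _ => Finset.sum_eq_zero fun i _ => ?_
    rw [if_neg, zero_mul]
    rintro ⟨h2, h3⟩
    change T = Y.map (ej U) at h3
    refine h1 ⟨h2, ?_⟩
    rw [h3]
    exact mapsubU U Y

theorem zx_alt {U : Finset V} {φ : (sub M U).Group →* M.Group}
    (hφ : ∀ x, φ (gn (sub M U) x) = gn M x.1) {n i p : ℕ} {f : HX M} (hf : f ∈ EE M n i)
    (hp : U.card + i = p + n) (g : M.Group) : AltC (sub M U) p (zx φ f g) := by
  rw [mem_EE] at hf
  refine ⟨fun Y hY x => ?_, fun Y s hs x => ?_⟩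
  · refine hf.1 _ _ ?_ _
    rintro ⟨-, -, h1⟩
    rw [Finset.card_map] at h1
    exact hY (by omega)
  · unfold zx
    rw [map_mul, hφ, ← mul_assoc]
    exact hf.2 _ _ s.1 (mem_map_of_mem (ej U) hs) _

/-- The `T`-part of the differential. -/
theorem dX_low {U : Finset V} (hU : Sph M U) {f : HX M}
    (hlow : ∀ T U' : Finset V, U'.card < U.card → ∀ g, f ((T, U'), g) = 0)
    (Y : Finset {x // x ∈ U}) (g : M.Group) : dX M f ((Y.map (ej U), U), g) =
      ∑ s ∈ Yᶜ, sg Y s * f (((insert s Y).map (ej U), U), g) := by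
  rw [dX_apply f ⟨mapsubU U Y, hU⟩]
  have h1 : Y = rY U (Y.map (ej U)) := by
    refine Finset.map_injective (ej U) ?_
    rw [map_rY' (mapsubU U Y)]
  have h2 : U \ Y.map (ej U) = (Yᶜ).map (ej U) := by
    conv_rhs => rw [h1]
    exact (map_compl_rY (mapsubU U Y)).symm
  rw [h2, Finset.sum_map]
  refine Finset.sum_congr rfl fun s _ => ?_
  have h3 : f ((Y.map (ej U), U.erase s.1), g) = 0 := by
    refine hlow _ _ ?_ g
    exact Finset.card_erase_lt_of_mem s.2
  have h4 : ej U s = s.1 := rfl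
  rw [h4, h3, mul_zero, zero_add, sg_map, Finset.map_insert]
  rfl

/-- The operator. -/
theorem exists_KX (M : CoxeterMatrix V) : ∃ K : HX M →L[ℝ] HX M,
    (∀ n i, ∀ f ∈ EE M n i, K f ∈ EE M n (i + 1)) ∧
    (∀ p f, (∀ T U : Finset V, U.card < p → ∀ g, f ((T, U), g) = 0) →
      ∀ T U : Finset V, U.card < p → ∀ g, K f ((T, U), g) = 0) ∧
    (∀ f, PX M (K f) = 0) ∧
    ∀ n i p f, f ∈ EE M n i → (∀ T U : Finset V, U.card < p → ∀ g, f ((T, U), g) = 0) →
      dX M f = 0 → PX M f = 0 →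
      ∀ T U : Finset V, U.card < p + 1 → ∀ g, (f - dX M (K f)) ((T, U), g) = 0 := by
  classical
  have hfin : ∀ J : {J : Finset V // Sph M J}, Nonempty (Fintype (sub M J.1).Group) := by
    intro J
    have h1 := finite_sub J.2
    exact ⟨Fintype.ofFinite _⟩
  have ift : ∀ J : {J : Finset V // Sph M J}, Fintype (sub M J.1).Group := fun J =>
    Classical.choice (hfin J)
  have hex : ∀ J : {J : Finset V // Sph M J}, ∃ (φ : (sub M J.1).Group →* M.Group)
      (k : Finset {x // x ∈ J.1} → Finset {x // x ∈ J.1} → (sub M J.1).Group → ℝ)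
      (K : HX M →L[ℝ] HX M), (∀ x, φ (gn (sub M J.1) x) = gn M x.1) ∧ Function.Injective φ ∧
      (∀ y, y ∈ WT M (J.1 : Set V) ↔ ∃ x, φ x = y) ∧
      (∀ Y Y' x, k Y Y' x ≠ 0 → Y.card = Y'.card + 1) ∧
      (∀ Y : Finset {x // x ∈ J.1}, ∀ s ∈ Y, ∀ Y' x,
        k Y Y' (gn (sub M J.1) s * x) = - k Y Y' x) ∧
      (∀ (p : ℕ) (f : Finset {x // x ∈ J.1} → (sub M J.1).Group → ℝ), AltC (sub M J.1) p f →
        (1 ≤ p → ∀ Y g, SNG.bdry f Y g = 0) → (p = 0 → ∑ g, f ∅ g = 0) →
        ∀ Y g, SNG.bdry (kap k f) Y g = f Y g) ∧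
      ∀ f T U' g, K f ((T, U'), g) =
        if U' = J.1 ∧ T ⊆ J.1 then kap k (zx φ f g) (rY J.1 T) 1 else 0 := by
    intro J
    obtain ⟨φ, h1, h2, h3⟩ := exists_phi M J.1
    obtain ⟨k, h4, h5, h6⟩ := exists_kern (sub M J.1)
    obtain ⟨K, hK⟩ := exists_KU (M := M) φ k
    exact ⟨φ, k, K, h1, h2, h3, h4, h5, h6, hK⟩
  choose φ k K hφ hφi hφr hk hk2 hk3 hK using hex
  obtain ⟨KK, hKK⟩ : ∃ KK, KK = ∑ J : {J : Finset V // Sph M J}, K J := ⟨_, rfl⟩
  have hval : ∀ f (T U : Finset V) (hU : Sph M U) g, T ⊆ U → KK f ((T, U), g) =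
      kap (k ⟨U, hU⟩) (zx (φ ⟨U, hU⟩) f g) (rY U T) 1 := by
    intro f T U hU g hT
    rw [hKK, _root_.sum_apply, ell_sum,
      Finset.sum_eq_single (⟨U, hU⟩ : {J : Finset V // Sph M J}), hK, if_pos ⟨rfl, hT⟩]
    · intro J _ hne
      rw [hK J, if_neg]
      rintro ⟨h1, -⟩
      exact hne (Subtype.ext h1.symm)
    · exact fun h1 => absurd (mem_univ _) h1
  have hval0 : ∀ f (T U : Finset V) g, ¬ (T ⊆ U ∧ Sph M U) → KK f ((T, U), g) = 0 := by
    intro f T U g h
    rw [hKK, _root_.sum_apply, ell_sum]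
    refine Finset.sum_eq_zero fun J _ => ?_
    rw [hK J, if_neg]
    rintro ⟨h1, h2⟩
    exact h ⟨h1 ▸ h2, h1 ▸ J.2⟩
  have hne : ∀ f (T U : Finset V) g, KK f ((T, U), g) ≠ 0 → T ⊆ U ∧ Sph M U ∧
      ∃ T' g', T.card = T'.card + 1 ∧ f ((T', U), g') ≠ 0 := by
    intro f T U g h
    by_cases h1 : T ⊆ U ∧ Sph M U
    · refine ⟨h1.1, h1.2, ?_⟩
      rw [hval f T U h1.2 g h1.1] at h
      unfold kap at h
      obtain ⟨Y', -, h2⟩ := Finset.exists_ne_zero_of_sum_ne_zero h
      obtain ⟨x, -, h3⟩ := Finset.exists_ne_zero_of_sum_ne_zero h2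
      have h4 := hk _ _ _ _ (left_ne_zero_of_mul h3)
      refine ⟨Y'.map (ej U), g * φ ⟨U, h1.2⟩ (1 * x), ?_, right_ne_zero_of_mul h3⟩
      have h5 : T.card = (rY U T).card := by
        conv_lhs => rw [← map_rY' h1.1]
        rw [Finset.card_map]
      rw [h5, Finset.card_map]
      exact h4
    · exact absurd (hval0 f T U g h1) h
  have hmem : ∀ n i, ∀ f ∈ EE M n i, KK f ∈ EE M n (i + 1) := by
    intro n i f hf
    rw [mem_EE] at hf ⊢
    refine ⟨fun T U hT g => ?_, fun T U s hs g => ?_⟩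
    · by_contra h
      obtain ⟨h1, h2, T', g', h3, h4⟩ := hne f T U g h
      have h5 : T' ⊆ U ∧ Sph M U ∧ U.card + i = T'.card + n := by
        by_contra hcon
        exact h4 (hf.1 _ _ hcon _)
      exact hT ⟨h1, h2, by omega⟩
    · by_cases h1 : T ⊆ U ∧ Sph M U
      · rw [hval f T U h1.2 _ h1.1, hval f T U h1.2 _ h1.1]
        unfold kap
        rw [← Finset.sum_neg_distrib]
        refine Finset.sum_congr rfl fun Y' _ => ?_
        rw [← Finset.sum_neg_distrib]
        have hsU : s ∈ U := h1.1 hs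
        have h2 : ∀ x, zx (φ ⟨U, h1.2⟩) f (g * gn M s) Y' x =
            zx (φ ⟨U, h1.2⟩) f g Y' (gn (sub M U) ⟨s, hsU⟩ * x) := by
          intro x
          unfold zx
          rw [map_mul, hφ, mul_assoc]
        refine Finset.sum_nbij' (fun x => gn (sub M U) ⟨s, hsU⟩ * x)
          (fun x => gn (sub M U) ⟨s, hsU⟩ * x) (fun x _ => mem_univ _) (fun x _ => mem_univ _) ?_ ?_ ?_
        · intro x _
          rw [← mul_assoc, gn_mul_self, one_mul]
        · intro x _
          rw [← mul_assoc, gn_mul_self, one_mul]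
        · intro x _
          rw [one_mul, h2, hk2 ⟨U, h1.2⟩ _ ⟨s, hsU⟩ (by
            unfold rY
            rw [mem_filter]
            exact ⟨mem_univ _, hs⟩), one_mul]
          ring
      · rw [hval0 f T U _ h1, hval0 f T U _ h1, neg_zero]
  have hfil : ∀ p f, (∀ T U : Finset V, U.card < p → ∀ g, f ((T, U), g) = 0) →
      ∀ T U : Finset V, U.card < p → ∀ g, KK f ((T, U), g) = 0 := by
    intro p f hf T U hU g
    by_contra h
    obtain ⟨-, -, T', g', -, h4⟩ := hne f T U g h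
    exact h4 (hf T' U hU g')
  refine ⟨KK, hmem, hfil, fun f => ?_, ?_⟩
  · refine ell_ext fun q => ?_
    obtain ⟨⟨T, U⟩, g⟩ := q
    rw [ell_zero]
    by_cases h : T = ∅ ∧ Sph M U
    · obtain ⟨rfl, hU⟩ := h
      rw [PX_apply _ hU]
      have h1 : ∑ x ∈ wf M U, KK f ((∅, U), g * x) = 0 := by
        refine Finset.sum_eq_zero fun x _ => ?_
        by_contra h
        obtain ⟨-, -, T', g', h3, -⟩ := hne f ∅ U _ h
        rw [card_empty] at h3
        omega
      rw [h1, mul_zero]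
    · exact PX_zero _ h g
  · intro n i p f hf hfp hdf hPf T U hUp g
    have hdiff : f - dX M (KK f) ∈ EE M n i := Submodule.sub_mem _ hf (dX_mem (hmem n i f hf))
    by_cases hsp : T ⊆ U ∧ Sph M U ∧ U.card + i = T.card + n
    swap
    · exact (mem_EE.1 hdiff).1 T U hsp g
    obtain ⟨hTU, hU, hcd⟩ := hsp
    have hlowf : ∀ T U' : Finset V, U'.card < U.card → ∀ g, f ((T, U'), g) = 0 :=
      fun T U' h g => hfp T U' (by omega) g
    have hlow : ∀ T U' : Finset V, U'.card < U.card → ∀ g, KK f ((T, U'), g) = 0 :=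
      fun T U' h g => hfil p f hfp T U' (by omega) g
    have hb := dX_low hU hlow (rY U T) g
    rw [map_rY' hTU] at hb
    rw [ell_sub, hb]
    have hz : AltC (sub M U) T.card (zx (φ ⟨U, hU⟩) f g) := zx_alt (hφ ⟨U, hU⟩) hf hcd g
    have hKv : ∀ s, KK f (((insert s (rY U T)).map (ej U), U), g) =
        kap (k ⟨U, hU⟩) (zx (φ ⟨U, hU⟩) f g) (insert s (rY U T)) 1 := by
      intro s
      rw [hval f _ U hU g (mapsubU U _)]
      congr 1
      refine Finset.map_injective (ej U) ?_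
      rw [map_rY' (mapsubU U _)]
    have h1 := hk3 ⟨U, hU⟩ T.card (zx (φ ⟨U, hU⟩) f g) hz ?_ ?_ (rY U T) 1
    · have h2 : ∑ s ∈ (rY U T)ᶜ, sg (rY U T) s *
          KK f (((insert s (rY U T)).map (ej U), U), g) =
          SNG.bdry (kap (k ⟨U, hU⟩) (zx (φ ⟨U, hU⟩) f g)) (rY U T) 1 :=
        Finset.sum_congr rfl fun s _ => congrArg (fun a => sg (rY U T) s * a) (hKv s)
      rw [h2, h1]
      unfold zx
      rw [map_one, mul_one, map_rY' hTU, sub_self]
    · intro _ Y y
      have h2 := dX_low hU hlowf Y (g * φ ⟨U, hU⟩ y)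
      rw [hdf, ell_zero] at h2
      exact h2.symm
    · intro hp0
      have h3 := PX_apply f hU g
      rw [hPf, ell_zero] at h3
      have h4 := wf_pos hU
      have h5 : ∑ x ∈ wf M U, f ((∅, U), g * x) = 0 := by
        rcases mul_eq_zero.1 h3.symm with h6 | h6
        · exact absurd h6 (inv_ne_zero (Nat.cast_ne_zero.2 h4.ne'))
        · exact h6
      rw [← h5]
      unfold zx
      rw [Finset.map_empty]
      refine Finset.sum_bij (fun x _ => φ ⟨U, hU⟩ x) ?_ ?_ ?_ ?_
      · intro x _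
        rw [mem_wf hU, hφr ⟨U, hU⟩]
        exact ⟨x, rfl⟩
      · intro x _ y _ hxy
        exact hφi ⟨U, hU⟩ hxy
      · intro y hy
        rw [mem_wf hU, hφr ⟨U, hU⟩] at hy
        obtain ⟨x, hx⟩ := hy
        exact ⟨x, mem_univ _, hx⟩
      · intro x _
        rfl

end LBL
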