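import Pool.Agent.LBU.Dxa
import Pool.Agent.LBL.Ctx

/-!
# Project LBU (architect helper40), module Dxp: the projection of the cubical complex to the quotient
complex of the invariant functions on the set of pairs `(∅, U)`
-/

namespace LBL

open SCG SNG SCS Finset
open scoped InnerProductSpace

variable {V : Type} [Fintype V] [LinearOrder V] {M : CoxeterMatrix V}

open Classical in
theorem exists_PX (M : CoxeterMatrix V) : ∃ P : HX M →L[ℝ] HX M, ∀ f T U g,
    P f ((T, U), g) = if T = ∅ ∧ Sph M U then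
      ((wf M U).card : ℝ)⁻¹ * ∑ x ∈ wf M U, f ((∅, U), g * x) else 0 := by
  obtain ⟨P, hP⟩ := exists_op (α := (Finset V × Finset V) × M.Group)
    (β := (Finset V × Finset V) × M.Group) ((univ : Finset (Finset V)).biUnion fun U => wf M U)
    (φ := fun x q => (q.1, q.2 * x))
    (c := fun x q => if (q.1.1 = ∅ ∧ Sph M q.1.2) ∧ x ∈ wf M q.1.2 then
      ((wf M q.1.2).card : ℝ)⁻¹ else 0) (B := fun _ => 1) (by
      intro x q
      split_ifs with h
      · rw [abs_of_nonneg (by positivity)]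
        have h1 : 1 ≤ (wf M q.1.2).card := Finset.card_pos.2 ⟨x, h.2⟩
        have h2 : (1 : ℝ) ≤ ((wf M q.1.2).card : ℝ) := by exact_mod_cast h1
        exact inv_le_one_of_one_le₀ h2
      · rw [abs_zero]
        exact zero_le_one) (by
      intro x q q' _ _ h
      have h1 := congrArg Prod.fst h
      have h2 := congrArg Prod.snd h
      exact Prod.ext h1 (mul_right_cancel h2))
  refine ⟨P, fun f T U g => ?_⟩
  rw [hP]
  by_cases h : T = ∅ ∧ Sph M U
  · rw [if_pos h, Finset.mul_sum]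
    have h1 : wf M U ⊆ (univ : Finset (Finset V)).biUnion fun U => wf M U := by
      intro x hx
      rw [mem_biUnion]
      exact ⟨U, mem_univ _, hx⟩
    rw [← Finset.sum_subset h1]
    · refine Finset.sum_congr rfl fun x hx => ?_
      rw [if_pos ⟨h, hx⟩, h.1]
    · intro x _ hx
      rw [if_neg fun h2 => hx h2.2, zero_mul]
  · rw [if_neg h]
    exact Finset.sum_eq_zero fun x _ => by rw [if_neg fun h2 => h h2.1, zero_mul]

/-- The averaging operator. -/
noncomputable def PX (M : CoxeterMatrix V) : HX M →L[ℝ] HX M := (exists_PX M).choose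

theorem PX_apply (f : HX M) {U : Finset V} (hU : Sph M U) (g : M.Group) :
    PX M f ((∅, U), g) = ((wf M U).card : ℝ)⁻¹ * ∑ x ∈ wf M U, f ((∅, U), g * x) := by
  classical
  have h1 := (exists_PX M).choose_spec f ∅ U g
  rwa [if_pos ⟨rfl, hU⟩] at h1

theorem PX_zero (f : HX M) {T U : Finset V} (h : ¬ (T = ∅ ∧ Sph M U)) (g : M.Group) :
    PX M f ((T, U), g) = 0 := by
  classical
  have h1 := (exists_PX M).choose_spec f T U g
  rwa [if_neg h] at h1

theorem PX_inv (f : HX M) (T U : Finset V) (g : M.Group) {y : M.Group}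
    (hy : y ∈ WT M (U : Set V)) : PX M f ((T, U), g * y) = PX M f ((T, U), g) := by
  by_cases h : T = ∅ ∧ Sph M U
  · rw [h.1, PX_apply f h.2, PX_apply f h.2]
    congr 1
    simp only [mul_assoc]
    exact sum_wf h.2 (fun x => f ((∅, U), g * x)) hy
  · rw [PX_zero f h, PX_zero f h]

theorem PX_eq {f : HX M} (h0 : ∀ T U, ¬ (T = ∅ ∧ Sph M U) → ∀ g, f ((T, U), g) = 0)
    (h1 : ∀ U, Sph M U → ∀ g, ∀ y ∈ WT M (U : Set V), f ((∅, U), g * y) = f ((∅, U), g)) :
    PX M f = f := by
  refine ell_ext fun q => ?_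
  obtain ⟨⟨T, U⟩, g⟩ := q
  by_cases h : T = ∅ ∧ Sph M U
  · rw [h.1, PX_apply f h.2]
    have h2 : ∑ x ∈ wf M U, f ((∅, U), g * x) = ∑ _x ∈ wf M U, f ((∅, U), g) :=
      Finset.sum_congr rfl fun x hx => h1 U h.2 g x ((mem_wf h.2).1 hx)
    rw [h2, Finset.sum_const, nsmul_eq_mul, ← mul_assoc, inv_mul_cancel₀, one_mul]
    have h3 := wf_pos h.2
    positivity
  · rw [PX_zero f h, h0 T U h]

theorem PX_PX (f : HX M) : PX M (PX M f) = PX M f :=
  PX_eq (fun _ _ h g => PX_zero f h g) fun U _ g _ hy => PX_inv f ∅ U g hy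

theorem PX_mem {n i : ℕ} {f : HX M} (hf : f ∈ EE M n i) : PX M f ∈ EE M n i := by
  rw [mem_EE] at hf ⊢
  refine ⟨fun T U hT g => ?_, fun T U s hs g => ?_⟩
  · by_cases h : T = ∅ ∧ Sph M U
    · obtain ⟨rfl, hU⟩ := h
      rw [PX_apply f hU]
      have h2 : ∑ x ∈ wf M U, f ((∅, U), g * x) = 0 :=
        Finset.sum_eq_zero fun x _ => hf.1 ∅ U hT _
      rw [h2, mul_zero]
    · exact PX_zero f h g
  · have h : ¬ (T = ∅ ∧ Sph M U) := by
      rintro ⟨rfl, -⟩
      exact Finset.notMem_empty s hs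
    rw [PX_zero f h, PX_zero f h, neg_zero]

/-- sums over the finite group of alternating functions -/
theorem sum_wf_alt {U : Finset V} (hU : Sph M U) {F : M.Group → ℝ} {s : V} (hs : s ∈ U)
    (h : ∀ g, F (g * gn M s) = - F g) (g : M.Group) : ∑ x ∈ wf M U, F (g * x) = 0 := by
  have h1 := sum_wf' hU (fun x => F (g * x)) (y := gn M s) (gn_mem (by exact_mod_cast hs))
  simp only [← mul_assoc, h] at h1
  rw [Finset.sum_neg_distrib] at h1
  linarith

theorem PX_dX {n i : ℕ} {f : HX M} (hf : f ∈ EE M n i) {U : Finset V} (hU : Sph M U)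
    (g : M.Group) : PX M (dX M f) ((∅, U), g) = ∑ s ∈ U, sg (U.erase s) s *
      (((wf M U).card : ℝ)⁻¹ * ∑ x ∈ wf M U, f ((∅, U.erase s), g * x)) := by
  rw [PX_apply _ hU]
  have h1 : ∀ x, dX M f ((∅, U), g * x) = ∑ s ∈ U, (sg (U.erase s) s *
      f ((∅, U.erase s), g * x) + f (({s}, U), g * x)) := by
    intro x
    rw [dX_apply f ⟨Finset.empty_subset U, hU⟩, sdiff_empty]
    refine Finset.sum_congr rfl fun s _ => ?_
    have h2 : sg (∅ : Finset V) s = 1 := by
      unfold sg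
      simp
    rw [card_empty, pow_zero, one_mul, h2, one_mul]
    rfl
  simp only [h1]
  rw [Finset.sum_comm, Finset.mul_sum]
  refine Finset.sum_congr rfl fun s hs => ?_
  rw [Finset.sum_add_distrib, ← Finset.mul_sum]
  have h2 : ∑ x ∈ wf M U, f (({s}, U), g * x) = 0 :=
    sum_wf_alt hU (F := fun g => f (({s}, U), g)) hs
      (fun g => (mem_EE.1 hf).2 {s} U s (Finset.mem_singleton_self s) g) g
  rw [h2, add_zero]
  ring

theorem PX_d_PX {n i : ℕ} {f : HX M} (hf : f ∈ EE M n i) :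
    PX M (dX M (PX M f)) = PX M (dX M f) := by
  refine ell_ext fun q => ?_
  obtain ⟨⟨T, U⟩, g⟩ := q
  by_cases h : T = ∅ ∧ Sph M U
  · obtain ⟨rfl, hU⟩ := h
    rw [PX_dX (PX_mem hf) hU, PX_dX hf hU]
    refine Finset.sum_congr rfl fun s hs => ?_
    congr 2
    have hU' : Sph M (U.erase s) := sph_mono (Finset.erase_subset s U) hU
    have h1 : ∀ x, PX M f ((∅, U.erase s), g * x) = ((wf M (U.erase s)).card : ℝ)⁻¹ *
        ∑ y ∈ wf M (U.erase s), f ((∅, U.erase s), g * x * y) := fun x => PX_apply f hU' _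
    simp only [h1]
    rw [← Finset.mul_sum, Finset.sum_comm]
    have h2 : ∀ y ∈ wf M (U.erase s), ∑ x ∈ wf M U, f ((∅, U.erase s), g * x * y) =
        ∑ x ∈ wf M U, f ((∅, U.erase s), g * x) := by
      intro y hy
      simp only [mul_assoc]
      refine sum_wf' hU (fun x => f ((∅, U.erase s), g * x)) ?_
      rw [mem_wf hU'] at hy
      exact WT_mono (by exact_mod_cast Finset.erase_subset s U) hy
    rw [Finset.sum_congr rfl h2, Finset.sum_const, nsmul_eq_mul, ← mul_assoc, inv_mul_cancel₀,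
      one_mul]
    have h3 := wf_pos hU'
    positivity
  · rw [PX_zero _ h, PX_zero _ h]

end LBL
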