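import Mathlib

/-!
# Project LBU (architect helper40), module F2a: exactness modulo 2 implies exactness over `ℝ`, and cycles
modulo 2 lift to integral cycles
-/

namespace LBL

open Matrix

section field

variable {K E F G : Type} [Field K] [AddCommGroup E] [Module K E] [AddCommGroup F] [Module K F]
  [AddCommGroup G] [Module K G]

/-- Factorisation through a map with smaller kernel. -/
theorem exists_factor (g : E →ₗ[K] F) (h : E →ₗ[K] G) (hgh : ∀ x, g x = 0 → h x = 0) :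
    ∃ t : F →ₗ[K] G, ∀ x, t (g x) = h x := by
  obtain ⟨s, hs⟩ := (g.rangeRestrict).exists_rightInverse_of_surjective
    (LinearMap.range_rangeRestrict g)
  obtain ⟨t, ht⟩ := LinearMap.exists_extend (h ∘ₗ s)
  refine ⟨t, fun x => ?_⟩
  have h1 : t (g x) = h (s (g.rangeRestrict x)) := by
    have h2 := LinearMap.congr_fun ht (g.rangeRestrict x)
    exact h2
  have h2 : g (s (g.rangeRestrict x)) = g x := by
    have h3 := LinearMap.congr_fun hs (g.rangeRestrict x)
    exact congrArg Subtype.val h3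
  rw [h1]
  have h3 := hgh (s (g.rangeRestrict x) - x) (by rw [map_sub, h2, sub_self])
  rw [map_sub, sub_eq_zero] at h3
  exact h3

/-- A contraction. -/
theorem exists_contr (f : E →ₗ[K] F) (g : F →ₗ[K] G) (hex : ∀ z, g z = 0 → ∃ y, f y = z) :
    ∃ (s : F →ₗ[K] E) (t : G →ₗ[K] F), ∀ z, f (s z) + t (g z) = z := by
  obtain ⟨σ, hσ⟩ := (f.rangeRestrict).exists_rightInverse_of_surjective
    (LinearMap.range_rangeRestrict f)
  obtain ⟨s, hs⟩ := LinearMap.exists_extend σ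
  have h1 : ∀ z, g z = 0 → f (s z) = z := by
    intro z hz
    obtain ⟨y, hy⟩ := hex z hz
    have h2 : z ∈ LinearMap.range f := ⟨y, hy⟩
    have h3 : s z = σ ⟨z, h2⟩ := LinearMap.congr_fun hs ⟨z, h2⟩
    rw [h3]
    exact congrArg Subtype.val (LinearMap.congr_fun hσ ⟨z, h2⟩)
  obtain ⟨t, ht⟩ := exists_factor g (LinearMap.id - f ∘ₗ s) (fun x hx => by
    rw [LinearMap.sub_apply, LinearMap.id_apply, LinearMap.comp_apply, h1 x hx, sub_self])
  refine ⟨s, t, fun z => ?_⟩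
  rw [ht, LinearMap.sub_apply, LinearMap.id_apply, LinearMap.comp_apply]
  abel

end field

section mod2

variable {a b c : Type} [Fintype a] [Fintype b] [Fintype c] [DecidableEq a] [DecidableEq b]
  [DecidableEq c] {A : Matrix b a ℤ} {B : Matrix c b ℤ}

/-- reduction modulo 2 -/
abbrev r2 {m n : Type} (A : Matrix m n ℤ) : Matrix m n (ZMod 2) := A.map (Int.castRingHom (ZMod 2))

/-- the real matrix -/
abbrev rR {m n : Type} (A : Matrix m n ℤ) : Matrix m n ℝ := A.map (Int.castRingHom ℝ)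

omit [DecidableEq a] in
theorem exists_N (hex : ∀ z : b → ZMod 2, r2 B *ᵥ z = 0 → ∃ y : a → ZMod 2, r2 A *ᵥ y = z) :
    ∃ (S : Matrix a b ℤ) (T : Matrix b c ℤ), r2 (A * S + T * B) = 1 := by
  obtain ⟨s, t, hst⟩ := exists_contr (r2 A).mulVecLin (r2 B).mulVecLin hex
  refine ⟨(LinearMap.toMatrix' s).map fun x => (x.val : ℤ),
    (LinearMap.toMatrix' t).map fun x => (x.val : ℤ), ?_⟩
  have hS : ∀ {m n : Type} (X : Matrix m n (ZMod 2)), r2 (X.map fun x => (x.val : ℤ)) = X := by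
    intro m n X
    ext i j
    simp [r2]
  have h1 : r2 (A * (LinearMap.toMatrix' s).map (fun x => (x.val : ℤ)) +
      (LinearMap.toMatrix' t).map (fun x => (x.val : ℤ)) * B) =
      r2 A * LinearMap.toMatrix' s + LinearMap.toMatrix' t * r2 B := by
    unfold r2
    rw [Matrix.map_add _ (fun x y => map_add _ x y), Matrix.map_mul, Matrix.map_mul]
    have e1 := hS (LinearMap.toMatrix' s)
    have e2 := hS (LinearMap.toMatrix' t)
    unfold r2 at e1 e2
    rw [e1, e2]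
  rw [h1]
  refine Matrix.toLin'.injective ?_
  refine LinearMap.ext fun z => ?_
  have h2 := hst z
  rw [Matrix.toLin'_apply, Matrix.toLin'_apply, Matrix.one_mulVec, Matrix.add_mulVec,
    ← Matrix.mulVec_mulVec, ← Matrix.mulVec_mulVec, LinearMap.toMatrix'_mulVec,
    LinearMap.toMatrix'_mulVec]
  exact h2

omit [DecidableEq a] [Fintype a] [Fintype c] [DecidableEq c] in
theorem det_odd {N : Matrix b b ℤ} (h : r2 N = 1) : Odd N.det := by
  have h1 : ((Int.castRingHom (ZMod 2)) N.det) = 1 := by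
    rw [RingHom.map_det, RingHom.mapMatrix_apply]
    change (r2 N).det = 1
    rw [h, det_one]
  by_contra h2
  rw [Int.not_odd_iff_even] at h2
  obtain ⟨k, hk⟩ := h2
  rw [hk, map_add] at h1
  have h3 : ∀ x : ZMod 2, x + x ≠ 1 := by decide
  exact h3 _ h1

/-- Exactness of the transposed real complex. -/
theorem mod2_real (hBA : B * A = 0)
    (hex : ∀ z : b → ZMod 2, r2 B *ᵥ z = 0 → ∃ y : a → ZMod 2, r2 A *ᵥ y = z) (z : b → ℝ)
    (hz : (rR A)ᵀ *ᵥ z = 0) : ∃ y : c → ℝ, (rR B)ᵀ *ᵥ y = z := by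
  obtain ⟨S, T, hN⟩ := exists_N hex
  obtain ⟨N, hNd⟩ : ∃ N, N = A * S + T * B := ⟨_, rfl⟩
  rw [← hNd] at hN
  have hdet : (rR N)ᵀ.det ≠ 0 := by
    rw [det_transpose]
    have h1 : (rR N).det = (N.det : ℝ) := by
      have h2 := RingHom.map_det (Int.castRingHom ℝ) N
      rw [RingHom.mapMatrix_apply] at h2
      exact h2.symm
    rw [h1]
    have h2 : N.det ≠ 0 := by
      intro h3
      have h4 := det_odd hN
      rw [h3] at h4
      exact absurd h4 (by decide)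
    exact_mod_cast h2
  have hNt : (rR N)ᵀ = (rR S)ᵀ * (rR A)ᵀ + (rR B)ᵀ * (rR T)ᵀ := by
    rw [hNd]
    unfold rR
    rw [Matrix.map_add _ (fun x y => map_add _ x y), Matrix.map_mul, Matrix.map_mul,
      transpose_add, transpose_mul, transpose_mul]
  have hAB : (rR A)ᵀ * (rR B)ᵀ = 0 := by
    rw [← transpose_mul]
    unfold rR
    rw [← Matrix.map_mul, hBA]
    ext i j
    simp
  obtain ⟨W, hW⟩ : ∃ W : Submodule ℝ (b → ℝ), W = LinearMap.ker ((rR A)ᵀ).mulVecLin := ⟨_, rfl⟩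
  have hmW : ∀ w, w ∈ W ↔ (rR A)ᵀ *ᵥ w = 0 := by
    intro w
    rw [hW, LinearMap.mem_ker]
    rfl
  have hval : ∀ w ∈ W, (rR N)ᵀ *ᵥ w = (rR B)ᵀ *ᵥ ((rR T)ᵀ *ᵥ w) := by
    intro w hw
    rw [hmW] at hw
    rw [hNt, Matrix.add_mulVec, ← Matrix.mulVec_mulVec, hw, Matrix.mulVec_zero, zero_add,
      Matrix.mulVec_mulVec]
  have hmap : ∀ w ∈ W, ((rR N)ᵀ).mulVecLin w ∈ W := by
    intro w hw
    rw [Matrix.mulVecLin_apply, hval w hw, hmW, Matrix.mulVec_mulVec, hAB, Matrix.zero_mulVec]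
  have hinj : Function.Injective (((rR N)ᵀ).mulVecLin.restrict hmap) := by
    intro x y hxy
    have h1 := congrArg Subtype.val hxy
    change (rR N)ᵀ *ᵥ x.1 = (rR N)ᵀ *ᵥ y.1 at h1
    have h2 : (rR N)ᵀ *ᵥ (x.1 - y.1) = 0 := by
      rw [Matrix.mulVec_sub, h1, sub_self]
    have h3 := Matrix.eq_zero_of_mulVec_eq_zero hdet h2
    exact Subtype.ext (sub_eq_zero.1 h3)
  have hsur := LinearMap.injective_iff_surjective.1 hinj
  obtain ⟨w, hw⟩ := hsur ⟨z, (hmW z).2 hz⟩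
  have h1 := congrArg Subtype.val hw
  change (rR N)ᵀ *ᵥ w.1 = z at h1
  exact ⟨(rR T)ᵀ *ᵥ w.1, by rw [← hval w.1 w.2, h1]⟩

/-- Lifting cycles modulo 2. -/
theorem mod2_lift (hBA : B * A = 0)
    (hex : ∀ z : b → ZMod 2, r2 B *ᵥ z = 0 → ∃ y : a → ZMod 2, r2 A *ᵥ y = z) (z : a → ℤ)
    (hz : ∀ i, Even ((A *ᵥ z) i)) : ∃ o : a → ℤ, A *ᵥ o = 0 ∧ ∀ i, Odd (z i) → Odd (o i) := by
  obtain ⟨S, T, hN⟩ := exists_N hex
  obtain ⟨N, hNd⟩ : ∃ N, N = A * S + T * B := ⟨_, rfl⟩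
  rw [← hNd] at hN
  choose y hy using fun i => (hz i).two_dvd
  have hAz : A *ᵥ z = (2 : ℤ) • y := by
    funext i
    rw [hy i]
    rfl
  have hBy : B *ᵥ y = 0 := by
    have h1 : (2 : ℤ) • (B *ᵥ y) = 0 := by
      rw [← Matrix.mulVec_smul, ← hAz, Matrix.mulVec_mulVec, hBA, Matrix.zero_mulVec]
    funext i
    have h2 := congrFun h1 i
    change 2 * (B *ᵥ y) i = 0 at h2
    change (B *ᵥ y) i = 0
    omega
  -- powers of `N`
  have hB : ∀ w, B *ᵥ w = 0 → B *ᵥ (N *ᵥ w) = 0 := by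
    intro w hw
    rw [hNd, Matrix.mulVec_mulVec, Matrix.mul_add, ← Matrix.mul_assoc, hBA, Matrix.zero_mul, zero_add,
      ← Matrix.mulVec_mulVec, ← Matrix.mulVec_mulVec, hw, Matrix.mulVec_zero, Matrix.mulVec_zero]
  have hpow : ∀ k : ℕ, B *ᵥ ((N ^ k) *ᵥ y) = 0 := by
    intro k
    induction k with
    | zero => rw [pow_zero, Matrix.one_mulVec, hBy]
    | succ k ih =>
      rw [pow_succ', ← Matrix.mulVec_mulVec]
      exact hB _ ih
  have hpoly : ∀ q : Polynomial ℤ, B *ᵥ ((Polynomial.aeval N q) *ᵥ y) = 0 := by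
    intro q
    induction q using Polynomial.induction_on' with
    | add p q hp hq => rw [map_add, Matrix.add_mulVec, Matrix.mulVec_add, hp, hq, add_zero]
    | monomial k r =>
      rw [Polynomial.aeval_monomial, ← Algebra.smul_def, Matrix.smul_mulVec, Matrix.mulVec_smul,
        hpow, smul_zero]
  obtain ⟨c0, hc0⟩ : ∃ c0, c0 = N.charpoly.coeff 0 := ⟨_, rfl⟩
  have hc0o : Odd c0 := by
    have h1 := det_odd hN
    rw [Matrix.det_eq_sign_charpoly_coeff, ← hc0] at h1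
    exact (Int.odd_mul.1 h1).2
  obtain ⟨v, hv⟩ : ∃ v, v = (Polynomial.aeval N N.charpoly.divX) *ᵥ y := ⟨_, rfl⟩
  have hCH : N *ᵥ v + c0 • y = 0 := by
    have h1 := Matrix.aeval_self_charpoly N
    rw [← Polynomial.divX_mul_X_add N.charpoly, map_add, map_mul, Polynomial.aeval_X,
      Polynomial.aeval_C, ← hc0] at h1
    have h3 := congrArg (fun X => X *ᵥ y) h1
    simp only [Matrix.zero_mulVec, Matrix.add_mulVec] at h3
    rw [← h3]
    congr 1
    · rw [hv, Matrix.mulVec_mulVec]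
      congr 1
      have h4 : Polynomial.aeval N (N.charpoly.divX * Polynomial.X) =
        Polynomial.aeval N (Polynomial.X * N.charpoly.divX) := by rw [mul_comm]
      rw [map_mul, map_mul, Polynomial.aeval_X] at h4
      exact h4.symm
    · rw [Algebra.algebraMap_eq_smul_one, Matrix.smul_mulVec, Matrix.one_mulVec]
  have hBv : B *ᵥ v = 0 := by
    rw [hv]
    exact hpoly _
  have hNv : N *ᵥ v = A *ᵥ (S *ᵥ v) := by
    rw [hNd, Matrix.add_mulVec, ← Matrix.mulVec_mulVec, ← Matrix.mulVec_mulVec, hBv,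
      Matrix.mulVec_zero, add_zero]
  refine ⟨c0 • z + (2 : ℤ) • (S *ᵥ v), ?_, fun i hi => ?_⟩
  · rw [Matrix.mulVec_add, Matrix.mulVec_smul, Matrix.mulVec_smul, hAz, ← hNv, smul_comm c0,
      ← smul_add, add_comm, hCH, smul_zero]
  · change Odd (c0 * z i + 2 * (S *ᵥ v) i)
    exact (hc0o.mul hi).add_even (even_two_mul _)

end mod2

end LBL
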