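import Pool.Agent.LBU.Coh

/-!
# Project LBU (architect helper40), module Row: Poincare duality

`Gs M n o`: the nerve of `M` and the links of its simplices have the real homology of spheres, `o` is a
fundamental cycle.
-/

namespace LBL

open SCG SNG SCS Finset
open scoped InnerProductSpace

/-- The nerve of `M` is a real homology sphere of dimension `n - 1` with fundamental cycle `o`, and so
are the links of its simplices. -/
structure Gs {V : Type} [Fintype V] [LinearOrder V] (M : CoxeterMatrix V) (n : ℕ)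
    (o : Finset V → ℝ) : Prop where
  le : ∀ U, Sph M U → U.card ≤ n
  supp : ∀ U, o U ≠ 0 → Sph M U ∧ U.card = n
  cyc : ∀ U : Finset V, ∑ s ∈ Uᶜ, sg U s * o (insert s U) = 0
  ne : ∀ T, Sph M T → ∃ U, T ⊆ U ∧ o U ≠ 0
  ex : ∀ T, Sph M T → ∀ (p : ℕ) (a : Finset V → ℝ),
    (∀ U, a U ≠ 0 → T ⊆ U ∧ Sph M U ∧ U.card = p) →
    (∀ U, T ⊆ U → Sph M U → ∑ s ∈ U \ T, sg (U.erase s) s * a (U.erase s) = 0) →
    (p = n → ∑ U, o U * a U = 0) →
    ∃ b : Finset V → ℝ, (∀ U, b U ≠ 0 → T ⊆ U ∧ Sph M U ∧ U.card + 1 = p) ∧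
      ∀ U, T ⊆ U → Sph M U → ∑ s ∈ U \ T, sg (U.erase s) s * b (U.erase s) = a U

variable {V : Type} [Fintype V] [LinearOrder V] {M : CoxeterMatrix V}

/-- the filtration -/
private def Fu (M : CoxeterMatrix V) (p : ℕ) : Submodule ℝ (HX M) where
  carrier := {f | ∀ T U : Finset V, U.card < p → ∀ g, f ((T, U), g) = 0}
  add_mem' := by
    intro f h hf hh T U hU g
    rw [ell_add, hf T U hU, hh T U hU, add_zero]
  zero_mem' := fun _ _ _ _ => rfl
  smul_mem' := by
    intro c f hf T U hU g
    rw [ell_smul, hf T U hU, mul_zero]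

private theorem mem_Fu {p : ℕ} {f : HX M} :
    f ∈ Fu M p ↔ ∀ T U : Finset V, U.card < p → ∀ g, f ((T, U), g) = 0 := Iff.rfl

/-- The vanishing for the cubical complex. -/
theorem ee_van {n i k : ℕ} (hn : ∀ U, Sph M U → U.card ≤ n) (hik : i + k = n)
    (h0 : HH M univ k = ⊥) {x : HX M} (hx : x ∈ EE M n i) (hdx : dX M x = 0) {ε : ℝ}
    (hε : 0 < ε) : ∃ h ∈ EE M n (i + 1), ‖x - dX M h‖ < ε := by
  obtain ⟨K, hK1, hK2, hK3, hK4⟩ := exists_KX M
  refine zigq (C := fun i => EE M n i) (F := Fu M) (d := dX M) (P := PX M) (K := K)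
    (m := Fintype.card V + 1) (fun j x hx => dX_mem hx) (fun x hx => dX_bot hn hx) dX_dX
    (fun j x hx => hK1 n j x hx) ?_ hK3 (fun j x hx => PX_d_PX hx) ?_ ?_ (fun j x hx => PX_mem hx)
    PX_PX i (fun x hx hPx hdx ε hε => coh hik h0 hx hPx hdx hε) x hx hdx ε hε
  · intro j p x hx hF hdx hPx
    exact mem_Fu.2 (hK4 n j p x hx (mem_Fu.1 hF) hdx hPx)
  · intro j x _ hx
    refine ell_ext fun q => ?_
    obtain ⟨⟨T, U⟩, g⟩ := q
    exact mem_Fu.1 hx T U (Nat.lt_succ_of_le (Finset.card_le_univ U)) g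
  · intro x
    exact mem_Fu.2 fun T U hU => absurd hU (Nat.not_lt_zero _)

/-! ### The rows -/

/-- functions on the sets containing `T` with `card + 1 = p` -/
private def Ar (M : CoxeterMatrix V) (T : Finset V) (p : ℕ) : Submodule ℝ (Finset V → ℝ) where
  carrier := {b | ∀ U, b U ≠ 0 → T ⊆ U ∧ Sph M U ∧ U.card + 1 = p}
  add_mem' := by
    intro a b ha hb U hU
    by_cases h : a U = 0
    · refine hb U fun h1 => hU ?_
      change a U + b U = 0
      rw [h, h1, add_zero]
    · exact ha U h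
  zero_mem' := fun U hU => absurd rfl hU
  smul_mem' := by
    intro c a ha U hU
    refine ha U fun h1 => hU ?_
    change c * a U = 0
    rw [h1, mul_zero]

open Classical in
/-- the coboundary -/
private noncomputable def cr (M : CoxeterMatrix V) (T : Finset V) :
    (Finset V → ℝ) →ₗ[ℝ] (Finset V → ℝ) where
  toFun b U := if T ⊆ U ∧ Sph M U then ∑ s ∈ U \ T, sg (U.erase s) s * b (U.erase s) else 0
  map_add' a b := by
    funext U
    by_cases h : T ⊆ U ∧ Sph M U
    · simp only [if_pos h, Pi.add_apply, mul_add, Finset.sum_add_distrib]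
    · simp only [if_neg h, Pi.add_apply, add_zero]
  map_smul' c a := by
    funext U
    by_cases h : T ⊆ U ∧ Sph M U
    · simp only [if_pos h, Pi.smul_apply, smul_eq_mul, RingHom.id_apply, Finset.mul_sum]
      exact Finset.sum_congr rfl fun s _ => mul_left_comm _ _ _
    · simp only [if_neg h, Pi.smul_apply, smul_eq_mul, mul_zero]

private theorem cr_apply {T U : Finset V} (h : T ⊆ U ∧ Sph M U) (b : Finset V → ℝ) :
    cr M T b U = ∑ s ∈ U \ T, sg (U.erase s) s * b (U.erase s) := if_pos h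

private theorem exists_Gr (M : CoxeterMatrix V) (T : Finset V) (p : ℕ) :
    ∃ G : (Finset V → ℝ) →ₗ[ℝ] Ar M T p, ∀ f, (∃ h ∈ Ar M T p, cr M T h = f) →
      cr M T (G f).1 = f := by
  obtain ⟨ψ, hψ⟩ := (((cr M T).domRestrict (Ar M T p)).rangeRestrict).exists_rightInverse_of_surjective
    (LinearMap.range_rangeRestrict _)
  obtain ⟨G, hG⟩ := LinearMap.exists_extend ψ
  refine ⟨G, ?_⟩
  rintro f ⟨h, hh, rfl⟩
  have h1 : cr M T h ∈ LinearMap.range ((cr M T).domRestrict (Ar M T p)) := ⟨⟨h, hh⟩, rfl⟩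
  have h2 : G (cr M T h) = ψ ⟨cr M T h, h1⟩ := by
    rw [← hG]
    rfl
  have h3 := LinearMap.congr_fun hψ ⟨cr M T h, h1⟩
  have h4 := congrArg Subtype.val h3
  rw [h2]
  exact h4

/-- The kernel of a contraction of the rows. -/
theorem Gs.kern {n : ℕ} {o : Finset V → ℝ} (h : Gs M n o) : ∃ κ : Finset V → Finset V → Finset V → ℝ,
    (∀ T U U', κ T U U' ≠ 0 → T ⊆ U ∧ Sph M U ∧ U.card + 1 = U'.card) ∧
    ∀ T, Sph M T → ∀ (p : ℕ) (a : Finset V → ℝ),
      (∀ U, a U ≠ 0 → T ⊆ U ∧ Sph M U ∧ U.card = p) →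
      (∀ U, T ⊆ U → Sph M U → ∑ s ∈ U \ T, sg (U.erase s) s * a (U.erase s) = 0) →
      (p = n → ∑ U, o U * a U = 0) → ∀ U, T ⊆ U → Sph M U →
        ∑ s ∈ U \ T, sg (U.erase s) s * ∑ U', κ T (U.erase s) U' * a U' = a U := by
  classical
  choose G hG using fun (T : Finset V) (p : ℕ) => exists_Gr M T p
  obtain ⟨δ, hδ⟩ : ∃ δ : Finset V → Finset V → ℝ, ∀ U' U, δ U' U = if U = U' then 1 else 0 :=
    ⟨_, fun _ _ => rfl⟩
  refine ⟨fun T U U' => (G T U'.card (δ U')).1 U, fun T U U' hne => (G T U'.card (δ U')).2 U hne,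
    fun T hT p a ha1 ha2 ha3 U hTU hU => ?_⟩
  obtain ⟨b, hb1, hb2⟩ := h.ex T hT p a ha1 ha2 ha3
  have h1 : cr M T (G T p a).1 = a := by
    refine hG T p a ⟨b, hb1, ?_⟩
    funext U
    by_cases h2 : T ⊆ U ∧ Sph M U
    · rw [cr_apply h2]
      exact hb2 U h2.1 h2.2
    · have h3 : cr M T b U = 0 := if_neg h2
      rw [h3]
      by_contra h4
      have h5 := ha1 U (Ne.symm h4)
      exact h2 ⟨h5.1, h5.2.1⟩
  have h2 : ∀ U'' : Finset V, ∑ U', (G T U'.card (δ U')).1 U'' * a U' = (G T p a).1 U'' := by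
    intro U''
    have h3 : a = ∑ U', a U' • δ U' := by
      funext U
      rw [Finset.sum_apply, Finset.sum_eq_single U]
      · rw [Pi.smul_apply, hδ, if_pos rfl, smul_eq_mul, mul_one]
      · intro U' _ hne
        rw [Pi.smul_apply, hδ, if_neg (Ne.symm hne), smul_zero]
      · exact fun h => absurd (mem_univ _) h
    conv_rhs => rw [h3]
    rw [map_sum, AddSubmonoidClass.coe_finsetSum, Finset.sum_apply]
    refine Finset.sum_congr rfl fun U' _ => ?_
    rw [map_smul, Submodule.coe_smul, Pi.smul_apply, smul_eq_mul, mul_comm]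
    by_cases h4 : a U' = 0
    · rw [h4, zero_mul, zero_mul]
    · rw [(ha1 U' h4).2.2]
  simp only [h2]
  rw [← cr_apply ⟨hTU, hU⟩, h1]

/-- The map to the chains of the Davis complex. -/
theorem exists_pi (M : CoxeterMatrix V) (o : Finset V → ℝ) : ∃ Ψ : HX M →L[ℝ] HW M, ∀ f T g,
    Ψ f (T, g) = ∑ U : Finset V, (if T ⊆ U then o U else 0) * f ((T, U), g) := by
  classical
  obtain ⟨Ψ, hΨ⟩ := exists_op (α := Finset V × M.Group) (β := (Finset V × Finset V) × M.Group)
    (univ : Finset (Finset V)) (φ := fun U q => ((q.1, U), q.2))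
    (c := fun U q => if q.1 ⊆ U then o U else 0) (B := fun U => |o U|) (by
      intro U q
      split_ifs
      · exact le_rfl
      · rw [abs_zero]
        exact abs_nonneg _) (by
      intro U q q' _ _ he
      have h3 := congrArg (fun z : (Finset V × Finset V) × M.Group => z.1.1) he
      have h4 := congrArg (fun z : (Finset V × Finset V) × M.Group => z.2) he
      exact Prod.ext h3 h4)
  exact ⟨Ψ, fun f T g => hΨ f _⟩

/-- The section. -/
theorem exists_li (M : CoxeterMatrix V) (w : Finset V → Finset V → ℝ) :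
    ∃ L : HW M →L[ℝ] HX M, ∀ f T U g, L f ((T, U), g) = w T U * f (T, g) := by
  classical
  obtain ⟨L, hL⟩ := exists_op (β := Finset V × M.Group) (α := (Finset V × Finset V) × M.Group)
    (univ : Finset (Finset V)) (φ := fun _ q => (q.1.1, q.2))
    (c := fun U q => if q.1.2 = U then w q.1.1 U else 0) (B := fun U => ∑ T, |w T U|) (by
      intro U q
      split_ifs
      · exact Finset.single_le_sum (f := fun T => |w T U|) (fun T _ => abs_nonneg _)
          (mem_univ q.1.1)
      · rw [abs_zero]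
        exact Finset.sum_nonneg fun T _ => abs_nonneg _) (by
      intro U q q' hq hq' he
      have h1 : q.1.2 = U := by
        by_contra hcon
        exact hq (if_neg hcon)
      have h2 : q'.1.2 = U := by
        by_contra hcon
        exact hq' (if_neg hcon)
      have h3 := congrArg Prod.fst he
      have h4 := congrArg Prod.snd he
      exact Prod.ext (Prod.ext h3 (h1.trans h2.symm)) h4)
  refine ⟨L, fun f T U g => ?_⟩
  rw [hL, Finset.sum_eq_single U]
  · change (if U = U then _ else _) * _ = _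
    rw [if_pos rfl]
  · intro U' _ hne
    change (if U = U' then _ else _) * _ = _
    rw [if_neg (Ne.symm hne), zero_mul]
  · exact fun h => absurd (mem_univ _) h

/-- The operator on the rows. -/
theorem exists_ro (M : CoxeterMatrix V) (κ : Finset V → Finset V → Finset V → ℝ) :
    ∃ R : HX M →L[ℝ] HX M, ∀ f T U g, R f ((T, U), g) = ∑ U', κ T U U' * f ((T, U'), g) := by
  classical
  obtain ⟨R, hR⟩ := exists_op (β := (Finset V × Finset V) × M.Group)
    (α := (Finset V × Finset V) × M.Group) (univ : Finset (Finset V × Finset V))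
    (φ := fun i q => ((q.1.1, i.2), q.2))
    (c := fun i q => if q.1.2 = i.1 then κ q.1.1 i.1 i.2 else 0)
    (B := fun i => ∑ T, |κ T i.1 i.2|) (by
      intro i q
      split_ifs
      · exact Finset.single_le_sum (f := fun T => |κ T i.1 i.2|) (fun T _ => abs_nonneg _)
          (mem_univ q.1.1)
      · rw [abs_zero]
        exact Finset.sum_nonneg fun T _ => abs_nonneg _) (by
      intro i q q' hq hq' he
      have h1 : q.1.2 = i.1 := by
        by_contra hcon
        exact hq (if_neg hcon)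
      have h2 : q'.1.2 = i.1 := by
        by_contra hcon
        exact hq' (if_neg hcon)
      have h3 := congrArg (fun z : (Finset V × Finset V) × M.Group => z.1.1) he
      have h4 := congrArg (fun z : (Finset V × Finset V) × M.Group => z.2) he
      exact Prod.ext (Prod.ext h3 (h1.trans h2.symm)) h4)
  refine ⟨R, fun f T U g => ?_⟩
  rw [hR, Fintype.sum_prod_type, Finset.sum_eq_single U]
  · refine Finset.sum_congr rfl fun U' _ => ?_
    change (if U = U then _ else _) * _ = _
    rw [if_pos rfl]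
  · intro U' _ hne
    refine Finset.sum_eq_zero fun U'' _ => ?_
    change (if U = U' then _ else _) * _ = _
    rw [if_neg (Ne.symm hne), zero_mul]
  · exact fun h => absurd (mem_univ _) h

section dual

variable {n : ℕ} {o : Finset V → ℝ} {Ψ : HX M →L[ℝ] HW M}

private theorem pi_mem (h : Gs M n o) (hΨ : ∀ f T g,
    Ψ f (T, g) = ∑ U : Finset V, (if T ⊆ U then o U else 0) * f ((T, U), g)) {i : ℕ} {f : HX M}
    (hf : f ∈ EE M n i) : Ψ f ∈ CC M univ i := by
  rw [mem_EE] at hf
  rw [mem_CC]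
  refine ⟨fun T hT g => ?_, fun T s hs g => ?_⟩
  · rw [hΨ]
    refine Finset.sum_eq_zero fun U _ => ?_
    by_cases h1 : T ⊆ U
    · rw [if_pos h1]
      by_cases h2 : o U = 0
      · rw [h2, zero_mul]
      · have h3 := h.supp U h2
        rw [hf.1 T U, mul_zero]
        rintro ⟨-, -, h4⟩
        exact hT ⟨subset_univ _, sph_mono h1 h3.1, by omega⟩
    · rw [if_neg h1, zero_mul]
  · rw [hΨ, hΨ, ← Finset.sum_neg_distrib]
    refine Finset.sum_congr rfl fun U _ => ?_
    rw [hf.2 T U s hs]
    ring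

private theorem pi_dX (h : Gs M n o) (hΨ : ∀ f T g,
    Ψ f (T, g) = ∑ U : Finset V, (if T ⊆ U then o U else 0) * f ((T, U), g)) {i : ℕ} {f : HX M}
    (hf : f ∈ EE M n i) : Ψ (dX M f) = bD M (Ψ f) := by
  classical
  rw [mem_EE] at hf
  refine ell_ext fun q => ?_
  obtain ⟨T, g⟩ := q
  have hb : bD M (Ψ f) (T, g) = ∑ s ∈ Tᶜ, sg T s * Ψ f (insert s T, g) := bD_apply _ T g
  rw [hΨ, hb]
  have h1 : ∀ U : Finset V, (if T ⊆ U then o U else 0) * dX M f ((T, U), g) =
      (∑ s ∈ U \ T, (-1) ^ T.card * (if T ⊆ U then o U * sg (U.erase s) s *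
        f ((T, U.erase s), g) else 0)) +
      ∑ s ∈ Tᶜ, sg T s * ((if insert s T ⊆ U then o U else 0) * f ((insert s T, U), g)) := by
    intro U
    by_cases hTU : T ⊆ U
    · rw [if_pos hTU]
      by_cases hU : o U = 0
      · rw [hU, zero_mul, Finset.sum_eq_zero, Finset.sum_eq_zero, add_zero]
        · intro s _
          split_ifs
          · rw [zero_mul, mul_zero]
          · rw [zero_mul, mul_zero]
        · intro s _
          rw [zero_mul, zero_mul, ite_self, mul_zero]
      · rw [dX_apply f ⟨hTU, (h.supp U hU).1⟩, Finset.mul_sum]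
        have h2 : ∑ s ∈ Tᶜ, sg T s * ((if insert s T ⊆ U then o U else 0) *
            f ((insert s T, U), g)) = ∑ s ∈ U \ T, sg T s * (o U * f ((insert s T, U), g)) := by
          have h3 : U \ T ⊆ Tᶜ := fun s hs => mem_compl.2 (mem_sdiff.1 hs).2
          rw [← Finset.sum_subset h3]
          · refine Finset.sum_congr rfl fun s hs => ?_
            rw [if_pos (Finset.insert_subset (mem_sdiff.1 hs).1 hTU)]
          · intro s hs hs'
            rw [if_neg, zero_mul, mul_zero]
            intro h4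
            exact hs' (mem_sdiff.2 ⟨h4 (mem_insert_self s T), mem_compl.1 hs⟩)
        rw [h2, ← Finset.sum_add_distrib]
        refine Finset.sum_congr rfl fun s _ => ?_
        rw [if_pos hTU]
        ring
    · rw [if_neg hTU, zero_mul, Finset.sum_eq_zero, Finset.sum_eq_zero, add_zero]
      · intro s _
        rw [if_neg fun h2 => hTU ((Finset.subset_insert s T).trans h2), zero_mul, mul_zero]
      · intro s _
        rw [if_neg hTU, mul_zero]
  simp only [h1]
  rw [Finset.sum_add_distrib]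
  have h2 : ∑ U : Finset V, ∑ s ∈ U \ T, (-1) ^ T.card * (if T ⊆ U then o U * sg (U.erase s) s *
      f ((T, U.erase s), g) else 0) = ∑ U : Finset V, ∑ s ∈ Uᶜ,
        (-1) ^ T.card * (f ((T, U), g) * (sg U s * o (insert s U))) := by
    have h3 : ∀ U : Finset V, ∑ s ∈ U \ T, (-1 : ℝ) ^ T.card * (if T ⊆ U then
        o U * sg (U.erase s) s * f ((T, U.erase s), g) else 0) = ∑ s ∈ U,
        (-1 : ℝ) ^ T.card * (o U * sg (U.erase s) s * f ((T, U.erase s), g)) := by
      intro U
      rw [← Finset.sum_subset (Finset.sdiff_subset (s := U) (t := T))]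
      · refine Finset.sum_congr rfl fun s hs => ?_
        by_cases hTU : T ⊆ U
        · rw [if_pos hTU]
        · rw [if_neg hTU, hf.1 T (U.erase s) fun h4 =>
            hTU (h4.1.trans (Finset.erase_subset s U)), mul_zero]
          simp
      · intro s hs hs'
        have hsT : s ∈ T := by
          by_contra hc
          exact hs' (mem_sdiff.2 ⟨hs, hc⟩)
        rw [hf.1 T (U.erase s), mul_zero, mul_zero]
        rintro ⟨h4, -, -⟩
        exact (mem_erase.1 (h4 hsT)).1 rfl
    simp only [h3]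
    rw [Finset.sum_sigma', Finset.sum_sigma']
    refine Finset.sum_nbij' (fun q => ⟨q.1.erase q.2, q.2⟩) (fun q => ⟨insert q.2 q.1, q.2⟩)
      ?_ ?_ ?_ ?_ ?_
    · rintro ⟨U, s⟩ _
      refine mem_sigma.2 ⟨mem_univ _, ?_⟩
      simp
    · rintro ⟨U, s⟩ _
      exact mem_sigma.2 ⟨mem_univ _, mem_insert_self _ _⟩
    · rintro ⟨U, s⟩ h
      have h2 : s ∈ U := (mem_sigma.1 h).2
      simp [Finset.insert_erase h2]
    · rintro ⟨U, s⟩ h
      have h2 : s ∉ U := by simpa using (mem_sigma.1 h).2
      simp [Finset.erase_insert h2]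
    · rintro ⟨U, s⟩ h
      have h2 : s ∈ U := (mem_sigma.1 h).2
      simp only [Finset.insert_erase h2]
      ring
  have h3 : ∑ U : Finset V, ∑ s ∈ Uᶜ,
      (-1 : ℝ) ^ T.card * (f ((T, U), g) * (sg U s * o (insert s U))) = 0 := by
    refine Finset.sum_eq_zero fun U _ => ?_
    rw [← Finset.mul_sum, ← Finset.mul_sum, h.cyc U, mul_zero, mul_zero]
  rw [h2, h3, zero_add, Finset.sum_comm]
  refine Finset.sum_congr rfl fun s _ => ?_
  rw [← Finset.mul_sum, hΨ]

/-- Exactness of the kernel of the map to the chains of the Davis complex. -/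
private theorem row_ex (h : Gs M n o) (hΨ : ∀ f T g,
    Ψ f (T, g) = ∑ U : Finset V, (if T ⊆ U then o U else 0) * f ((T, U), g)) :
    ∀ N i (y : HX M), y ∈ EE M n i → (∀ T U : Finset V, N ≤ T.card → ∀ g, y ((T, U), g) = 0) →
      dX M y = 0 → Ψ y = 0 → ∃ z ∈ EE M n (i + 1), Ψ z = 0 ∧ dX M z = y := by
  classical
  obtain ⟨κ, hκ1, hκ2⟩ := h.kern
  intro N
  induction N with
  | zero =>
    intro i y _ hy _ _
    refine ⟨0, zero_mem _, map_zero _, ?_⟩
    rw [map_zero]
    refine ell_ext fun q => ?_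
    obtain ⟨⟨T, U⟩, g⟩ := q
    exact (hy T U (Nat.zero_le _) g).symm
  | succ N ih =>
    intro i y hy hsup hdy hΨy
    obtain ⟨R, hR⟩ := exists_ro M fun T U U' => if T.card = N then (-1) ^ N * κ T U U' else 0
    obtain ⟨z, hz⟩ : ∃ z, z = R y := ⟨_, rfl⟩
    have hzv : ∀ T U : Finset V, T.card = N → ∀ g, z ((T, U), g) =
        (-1) ^ N * ∑ U', κ T U U' * y ((T, U'), g) := by
      intro T U hT g
      rw [hz, hR, Finset.mul_sum]
      refine Finset.sum_congr rfl fun U' _ => ?_
      rw [if_pos hT]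
      ring
    have hz0 : ∀ T U : Finset V, T.card ≠ N → ∀ g, z ((T, U), g) = 0 := by
      intro T U hT g
      rw [hz, hR]
      refine Finset.sum_eq_zero fun U' _ => ?_
      rw [if_neg hT, zero_mul]
    have hzne : ∀ T U g, z ((T, U), g) ≠ 0 → T ⊆ U ∧ Sph M U ∧ U.card + (i + 1) = T.card + n ∧
        ∃ U' : Finset V, Sph M U' ∧ U.card + 1 = U'.card := by
      intro T U g hne
      by_cases hT : T.card = N
      · rw [hzv T U hT] at hne
        obtain ⟨U', -, h1⟩ := Finset.exists_ne_zero_of_sum_ne_zero (right_ne_zero_of_mul hne)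
        have h2 := hκ1 T U U' (left_ne_zero_of_mul h1)
        have h3 : T ⊆ U' ∧ Sph M U' ∧ U'.card + i = T.card + n := by
          by_contra hcon
          exact right_ne_zero_of_mul h1 ((mem_EE.1 hy).1 T U' hcon g)
        exact ⟨h2.1, h2.2.1, by omega, U', h3.2.1, h2.2.2⟩
      · exact absurd (hz0 T U hT g) hne
    have hzE : z ∈ EE M n (i + 1) := by
      rw [mem_EE]
      refine ⟨fun T U hT g => ?_, fun T U s hs g => ?_⟩
      · by_contra hne
        obtain ⟨h1, h2, h3, -⟩ := hzne T U g hne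
        exact hT ⟨h1, h2, h3⟩
      · by_cases hT : T.card = N
        · rw [hzv T U hT, hzv T U hT, ← mul_neg, ← Finset.sum_neg_distrib]
          congr 1
          refine Finset.sum_congr rfl fun U' _ => ?_
          rw [(mem_EE.1 hy).2 T U' s hs]
          ring
        · rw [hz0 T U hT, hz0 T U hT, neg_zero]
    have hΨz : Ψ z = 0 := by
      refine ell_ext fun q => ?_
      obtain ⟨T, g⟩ := q
      rw [hΨ, ell_zero]
      refine Finset.sum_eq_zero fun U _ => ?_
      by_contra hne
      have h1 := left_ne_zero_of_mul hne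
      have h2 : o U ≠ 0 := by
        intro h3
        rw [h3, ite_self] at h1
        exact h1 rfl
      obtain ⟨-, -, -, U', h3, h4⟩ := hzne T U g (right_ne_zero_of_mul hne)
      have h5 := h.le U' h3
      have h6 := (h.supp U h2).2
      omega
    have hsup' : ∀ T U : Finset V, N ≤ T.card → ∀ g, (y - dX M z) ((T, U), g) = 0 := by
      intro T U hT g
      rw [ell_sub]
      have hz1 : ∀ s, s ∉ T → z ((insert s T, U), g) = 0 := by
        intro s hs
        refine hz0 _ U ?_ g
        rw [Finset.card_insert_of_notMem hs]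
        omega
      rcases Nat.lt_or_ge N T.card with hlt | hge
      · rw [hsup T U hlt g, zero_sub, neg_eq_zero]
        refine dX_zero_of z (fun _ _ s _ => hz0 T _ (by omega) g) fun _ _ s hs => ?_
        exact hz1 s (mem_sdiff.1 hs).2
      · have hTN : T.card = N := by omega
        by_cases hTU : T ⊆ U ∧ Sph M U
        swap
        · rw [dX_not z hTU, (mem_EE.1 hy).1 T U fun h1 => hTU ⟨h1.1, h1.2.1⟩, sub_zero]
        have h1 := hκ2 T (sph_mono hTU.1 hTU.2) (T.card + n - i) (fun U' => y ((T, U'), g))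
          (fun U' hU' => by
            have h3 : T ⊆ U' ∧ Sph M U' ∧ U'.card + i = T.card + n := by
              by_contra hcon
              exact hU' ((mem_EE.1 hy).1 T U' hcon g)
            exact ⟨h3.1, h3.2.1, by omega⟩)
          (fun U' h2 h3 => by
            have h4 := dX_apply y ⟨h2, h3⟩ g
            rw [hdy, ell_zero] at h4
            have h5 : ∀ s ∈ U' \ T, ((-1) ^ T.card * sg (U'.erase s) s *
                y ((T, U'.erase s), g) + sg T s * y ((insert s T, U'), g)) =
                (-1) ^ T.card * (sg (U'.erase s) s * y ((T, U'.erase s), g)) := by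
              intro s hs
              rw [hsup (insert s T) U' (by
                rw [Finset.card_insert_of_notMem (mem_sdiff.1 hs).2]
                omega) g]
              ring
            rw [Finset.sum_congr rfl h5, ← Finset.mul_sum] at h4
            rcases mul_eq_zero.1 h4.symm with h6 | h6
            · exact absurd h6 (pow_ne_zero _ (by norm_num))
            · exact h6)
          (fun _ => by
            have h4 := hΨ y T g
            rw [hΨy, ell_zero] at h4
            rw [h4]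
            refine Finset.sum_congr rfl fun U' _ => ?_
            by_cases h5 : T ⊆ U'
            · rw [if_pos h5]
            · rw [(mem_EE.1 hy).1 T U' fun h6 => h5 h6.1, mul_zero, mul_zero]) U hTU.1 hTU.2
        rw [dX_apply z hTU]
        have h5 : ∀ s ∈ U \ T, ((-1) ^ T.card * sg (U.erase s) s *
            z ((T, U.erase s), g) + sg T s * z ((insert s T, U), g)) =
            sg (U.erase s) s * ∑ U', κ T (U.erase s) U' * y ((T, U'), g) := by
          intro s hs
          rw [hz1 s (mem_sdiff.1 hs).2, hzv T _ hTN, hTN]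
          have h6 : (-1 : ℝ) ^ N * (-1) ^ N = 1 := by
            rw [← mul_pow]
            norm_num
          linear_combination (sg (U.erase s) s * ∑ U', κ T (U.erase s) U' * y ((T, U'), g)) * h6
        rw [Finset.sum_congr rfl h5, h1, sub_self]
    obtain ⟨z', h1, h2, h3⟩ := ih i (y - dX M z) (Submodule.sub_mem _ hy (dX_mem hzE)) hsup'
      (by rw [map_sub, hdy, dX_dX, sub_zero]) (by
        rw [map_sub, hΨy, pi_dX h hΨ hzE, hΨz, map_zero, sub_zero])
    refine ⟨z + z', Submodule.add_mem _ hzE h1, by rw [map_add, hΨz, h2, add_zero], ?_⟩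
    rw [map_add, h3]
    abel

/-- Poincare duality. -/
theorem Gs.dual (h : Gs M n o) {i k : ℕ} (hik : i + k = n) (h0 : HH M univ k = ⊥) :
    HH M univ i = ⊥ := by
  classical
  refine hh_bot_of fun f hf hdf ε hε => ?_
  obtain ⟨Ψ, hΨ⟩ := exists_pi M o
  obtain ⟨N, hN⟩ : ∃ N : Finset V → ℝ, ∀ T, N T = ∑ U : Finset V, if T ⊆ U then o U ^ 2 else 0 :=
    ⟨_, fun _ => rfl⟩
  have hNpos : ∀ T, Sph M T → 0 < N T := by
    intro T hT
    obtain ⟨U, hTU, hU⟩ := h.ne T hT
    rw [hN]
    refine Finset.sum_pos' (fun U' _ => ?_) ⟨U, mem_univ _, ?_⟩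
    · split_ifs
      · positivity
      · exact le_rfl
    · rw [if_pos hTU]
      positivity
  obtain ⟨L, hL⟩ := exists_li M fun T U => if T ⊆ U then o U * (N T)⁻¹ else 0
  have hfC := mem_CC.1 hf
  have hLE : L f ∈ EE M n i := by
    rw [mem_EE]
    refine ⟨fun T U hT g => ?_, fun T U s hs g => ?_⟩
    · rw [hL]
      by_contra hne
      have h1 := left_ne_zero_of_mul hne
      by_cases hTU : T ⊆ U
      · rw [if_pos hTU] at h1
        have h2 := h.supp U (left_ne_zero_of_mul h1)
        have h3 : T ⊆ univ ∧ Sph M T ∧ T.card = i := by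
          by_contra hcon
          exact right_ne_zero_of_mul hne (hfC.1 T hcon g)
        exact hT ⟨hTU, h2.1, by omega⟩
      · exact h1 (if_neg hTU)
    · rw [hL, hL, hfC.2 T s hs]
      ring
  have hΨL : Ψ (L f) = f := by
    refine ell_ext fun q => ?_
    obtain ⟨T, g⟩ := q
    rw [hΨ]
    by_cases hT : Sph M T
    · have h1 : ∀ U : Finset V, (if T ⊆ U then o U else 0) * L f ((T, U), g) =
          (if T ⊆ U then o U ^ 2 else 0) * ((N T)⁻¹ * f (T, g)) := by
        intro U
        rw [hL]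
        split_ifs
        · ring
        · ring
      simp only [h1]
      rw [← Finset.sum_mul, ← hN, ← mul_assoc, mul_inv_cancel₀ (hNpos T hT).ne', one_mul]
    · rw [hfC.1 T fun h1 => hT h1.2.1]
      refine Finset.sum_eq_zero fun U _ => ?_
      rw [hL, hfC.1 T (fun h1 => hT h1.2.1), mul_zero, mul_zero]
  -- a cycle over `f`
  obtain ⟨x, hxE, hdx, hΨx⟩ : ∃ x ∈ EE M n i, dX M x = 0 ∧ Ψ x = f := by
    rcases i with _ | i
    · exact ⟨L f, hLE, dX_bot h.le hLE, hΨL⟩
    · obtain ⟨z, h1, h2, h3⟩ := row_ex h hΨ (Fintype.card V + 1) i (dX M (L f)) (dX_mem hLE)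
        (fun T U hT g => absurd (Finset.card_le_univ T) (by omega)) (dX_dX _)
        (by rw [pi_dX h hΨ hLE, hΨL, hdf])
      exact ⟨L f - z, Submodule.sub_mem _ hLE h1, by rw [map_sub, h3, sub_self],
        by rw [map_sub, hΨL, h2, sub_zero]⟩
  obtain ⟨w, hw, hwn⟩ := ee_van h.le hik h0 hxE hdx (ε := ε / (‖Ψ‖ + 1)) (by positivity)
  refine ⟨Ψ w, pi_mem h hΨ hw, ?_⟩
  rw [← hΨx, ← pi_dX h hΨ hw, ← map_sub]
  calc ‖Ψ (x - dX M w)‖ ≤ ‖Ψ‖ * ‖x - dX M w‖ := Ψ.le_opNorm _
    _ ≤ ‖Ψ‖ * (ε / (‖Ψ‖ + 1)) := mul_le_mul_of_nonneg_left hwn.le (norm_nonneg _)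
    _ < (‖Ψ‖ + 1) * (ε / (‖Ψ‖ + 1)) :=
        mul_lt_mul_of_pos_right (lt_add_one _) (by positivity)
    _ = ε := by
        rw [mul_div_cancel₀]
        positivity

end dual

end LBL
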