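import Pool.Agent.LBU.F2a
import Pool.Agent.LBU.Row

/-!
# Project LBU (architect helper40), module F2b: the boundary matrices of the links

`Pc M T p U`: `U` is a spherical set with `p` elements containing `T`.
-/

namespace LBL

open SCG SNG SCS Finset Matrix
open scoped Classical

variable {V : Type} [LinearOrder V]

/-- the integral sign -/
def sgZ (T : Finset V) (s : V) : ℤ := (-1) ^ (T.filter (· < s)).card

theorem sgZ_cast (T : Finset V) (s : V) : ((sgZ T s : ℤ) : ℝ) = sg T s := by
  unfold sgZ sg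
  push_cast
  rfl

theorem sgZ_two (T : Finset V) (s : V) : ((sgZ T s : ℤ) : ZMod 2) = 1 := by
  unfold sgZ
  push_cast
  have h : (-1 : ZMod 2) = 1 := by decide
  rw [h, one_pow]

theorem sgZ_swap {T : Finset V} {s t : V} (hs : s ∉ T) (ht : t ∉ T) (hst : s ≠ t) :
    sgZ T s * sgZ (insert s T) t = - (sgZ T t * sgZ (insert t T) s) := by
  have h := sg_swap hs ht hst
  rw [← sgZ_cast, ← sgZ_cast, ← sgZ_cast, ← sgZ_cast] at h
  exact_mod_cast h

variable [Fintype V]

/-- extension by zero -/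
noncomputable def xt {R : Type} [Zero R] {Q : Finset V → Prop} (z : {U // Q U} → R)
    (U : Finset V) : R := if h : Q U then z ⟨U, h⟩ else 0

omit [Fintype V] [LinearOrder V] in
theorem xt_pos {R : Type} [Zero R] {Q : Finset V → Prop} (z : {U // Q U} → R) {U : Finset V}
    (h : Q U) : xt z U = z ⟨U, h⟩ := dif_pos h

omit [Fintype V] [LinearOrder V] in
theorem xt_neg {R : Type} [Zero R] {Q : Finset V → Prop} (z : {U // Q U} → R) {U : Finset V}
    (h : ¬ Q U) : xt z U = 0 := dif_neg h

/-- the boundary matrix -/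
noncomputable def bm (P Q : Finset V → Prop) : Matrix {U // P U} {U // Q U} ℤ :=
  Matrix.of fun U U' => ∑ s ∈ U.1ᶜ, if insert s U.1 = U'.1 then sgZ U.1 s else 0

theorem bm_mulVec {R : Type} [CommRing R] {P Q : Finset V → Prop} (z : {U // Q U} → R)
    (U : {U // P U}) : ((bm P Q).map (Int.castRingHom R) *ᵥ z) U =
      ∑ s ∈ U.1ᶜ, ((sgZ U.1 s : ℤ) : R) * xt z (insert s U.1) := by
  unfold Matrix.mulVec dotProduct bm
  simp only [Matrix.map_apply, Matrix.of_apply, map_sum, Finset.sum_mul]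
  rw [Finset.sum_comm]
  refine Finset.sum_congr rfl fun s _ => ?_
  by_cases h : Q (insert s U.1)
  · rw [xt_pos z h, Finset.sum_eq_single (⟨insert s U.1, h⟩ : {U // Q U})]
    · rw [if_pos rfl]
      rfl
    · intro U' _ hne
      rw [if_neg fun e => hne (Subtype.ext e.symm), map_zero, zero_mul]
    · exact fun h => absurd (mem_univ _) h
  · rw [xt_neg z h, mul_zero]
    refine Finset.sum_eq_zero fun U' _ => ?_
    rw [if_neg (fun e : insert s U.1 = U'.1 => h (by rw [e]; exact U'.2)), map_zero, zero_mul]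

theorem bm_tr {R : Type} [CommRing R] {P Q : Finset V → Prop} (z : {U // P U} → R)
    (U' : {U // Q U}) : (((bm P Q).map (Int.castRingHom R))ᵀ *ᵥ z) U' =
      ∑ s ∈ U'.1, ((sgZ (U'.1.erase s) s : ℤ) : R) * xt z (U'.1.erase s) := by
  unfold Matrix.mulVec dotProduct bm
  simp only [Matrix.transpose_apply, Matrix.map_apply, Matrix.of_apply, map_sum, Finset.sum_mul]
  have h1 : ∀ U : {U // P U}, ∑ s ∈ U.1ᶜ, (Int.castRingHom R) (if insert s U.1 = U'.1 then
      sgZ U.1 s else 0) * z U = ∑ s ∈ U'.1, if U.1 = U'.1.erase s then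
        ((sgZ (U'.1.erase s) s : ℤ) : R) * z U else 0 := by
    intro U
    rw [← Finset.sum_filter, Finset.sum_filter_of_ne (p := fun s => insert s U.1 = U'.1)
      (s := U.1ᶜ) (f := fun s => (Int.castRingHom R) (if insert s U.1 = U'.1 then
        sgZ U.1 s else 0) * z U) (fun s _ hne => by
        by_contra hc
        rw [if_neg hc, map_zero, zero_mul] at hne
        exact hne rfl) |>.symm]
    refine Finset.sum_congr ?_ ?_
    · ext s
      rw [mem_filter, mem_filter, mem_compl]
      constructor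
      · rintro ⟨h2, h3⟩
        rw [← h3, Finset.erase_insert h2]
        exact ⟨mem_insert_self _ _, rfl⟩
      · rintro ⟨h2, h3⟩
        rw [h3, Finset.insert_erase h2]
        exact ⟨by simp, rfl⟩
    · intro s hs
      rw [mem_filter] at hs
      rw [if_pos, hs.2]
      · rfl
      · rw [hs.2, Finset.insert_erase hs.1]
  rw [Finset.sum_congr rfl fun U _ => h1 U, Finset.sum_comm]
  refine Finset.sum_congr rfl fun s _ => ?_
  by_cases h : P (U'.1.erase s)
  · rw [xt_pos z h, Finset.sum_eq_single (⟨U'.1.erase s, h⟩ : {U // P U})]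
    · rw [if_pos rfl]
    · intro U _ hne
      rw [if_neg fun e => hne (Subtype.ext e)]
    · exact fun h => absurd (mem_univ _) h
  · rw [xt_neg z h, mul_zero]
    refine Finset.sum_eq_zero fun U _ => ?_
    rw [if_neg (fun e : U.1 = U'.1.erase s => h (by rw [← e]; exact U.2))]

/-- spherical sets of size `p` containing `T` -/
def Pc (M : CoxeterMatrix V) (T : Finset V) (p : ℕ) (U : Finset V) : Prop :=
  T ⊆ U ∧ Sph M U ∧ U.card = p

/-- spherical sets of size `p - 1` containing `T` -/
def Pd (M : CoxeterMatrix V) (T : Finset V) (p : ℕ) (U : Finset V) : Prop :=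
  T ⊆ U ∧ Sph M U ∧ U.card + 1 = p

variable {M : CoxeterMatrix V} {T : Finset V} {p : ℕ}

theorem bm_bm : bm (Pd M T p) (Pc M T p) * bm (Pc M T p) (Pc M T (p + 1)) = 0 := by
  refine Matrix.toLin'.injective (LinearMap.ext fun z => ?_)
  rw [Matrix.toLin'_apply, ← Matrix.mulVec_mulVec, map_zero, LinearMap.zero_apply]
  funext U
  have h1 := bm_mulVec (R := ℤ) (P := Pd M T p) (Q := Pc M T p)
    (bm (Pc M T p) (Pc M T (p + 1)) *ᵥ z) U
  have h2 : ∀ {m n : Type} (X : Matrix m n ℤ), X.map (Int.castRingHom ℤ) = X := by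
    intro m n X
    ext i j
    simp
  rw [h2] at h1
  rw [h1]
  have h3 : ∀ s ∈ U.1ᶜ, ((sgZ U.1 s : ℤ) : ℤ) * xt (bm (Pc M T p) (Pc M T (p + 1)) *ᵥ z)
      (insert s U.1) = ∑ t ∈ (U.1ᶜ).erase s, sgZ U.1 s * sgZ (insert s U.1) t *
        xt z (insert t (insert s U.1)) := by
    intro s hs
    rw [mem_compl] at hs
    have e1 : (insert s U.1)ᶜ = (U.1ᶜ).erase s := by
      ext x
      simp only [mem_compl, mem_insert, mem_erase]
      tauto
    by_cases h : Pc M T p (insert s U.1)
    · rw [xt_pos _ h]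
      have h4 := bm_mulVec (R := ℤ) (P := Pc M T p) (Q := Pc M T (p + 1)) z ⟨insert s U.1, h⟩
      rw [h2] at h4
      rw [h4, Finset.mul_sum, e1]
      refine Finset.sum_congr rfl fun t _ => ?_
      simp only [Int.cast_id]
      ring
    · rw [xt_neg _ h, mul_zero]
      symm
      refine Finset.sum_eq_zero fun t ht => ?_
      rw [xt_neg z, mul_zero]
      rintro ⟨h4, h5, h6⟩
      refine h ⟨U.2.1.trans (Finset.subset_insert _ _), sph_mono (Finset.subset_insert _ _) h5, ?_⟩
      rw [Finset.card_insert_of_notMem hs]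
      exact U.2.2.2
  simp only [Int.cast_id]
  rw [Finset.sum_congr rfl h3]
  have h4 : ∀ s ∈ U.1ᶜ, ∀ t ∈ U.1ᶜ, s ≠ t →
      ((sgZ U.1 s * sgZ (insert s U.1) t * xt z (insert t (insert s U.1)) : ℤ) : ℝ) =
      - ((sgZ U.1 t * sgZ (insert t U.1) s * xt z (insert s (insert t U.1)) : ℤ) : ℝ) := by
    intro s hs t ht hst
    rw [mem_compl] at hs ht
    rw [sgZ_swap hs ht hst, Finset.insert_comm s t]
    push_cast
    ring
  have h5 := sum_anti (U.1ᶜ) (fun s t => ((sgZ U.1 s * sgZ (insert s U.1) t *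
    xt z (insert t (insert s U.1)) : ℤ) : ℝ)) h4
  exact_mod_cast h5

end LBL
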