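import Pool.Agent.LBU.F2b

/-!
# Project LBU (architect helper40), module F2c: homology spheres over `F₂` are real homology spheres with
a fundamental cycle which does not vanish on any top simplex
-/

namespace LBL

open SCG SNG SCS Finset Matrix
open scoped Classical

variable {V : Type} [LinearOrder V] [Fintype V]

/-- The nerve of `M` and the links of its simplices have the homology of spheres over `F₂`. -/
structure G2 (M : CoxeterMatrix V) (n : ℕ) : Prop where
  le : ∀ U, Sph M U → U.card ≤ n
  ex : ∀ T, Sph M T → ∀ p, p ≠ n → ∀ z : {U // Pc M T p U} → ZMod 2,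
    r2 (bm (Pd M T p) (Pc M T p)) *ᵥ z = 0 →
      ∃ y : {U // Pc M T (p + 1) U} → ZMod 2, r2 (bm (Pc M T p) (Pc M T (p + 1))) *ᵥ y = z
  top : ∀ T, Sph M T → ∀ z : {U // Pc M T n U} → ZMod 2,
    r2 (bm (Pd M T n) (Pc M T n)) *ᵥ z = 0 → z = 0 ∨ ∀ U, z U = 1
  pure : ∀ T, Sph M T → ∃ U, Pc M T n U
  two : ∀ U, Sph M U → U.card + 1 = n →
    ∑ s ∈ Uᶜ, (if Sph M (insert s U) then 1 else 0 : ZMod 2) = 0

variable {M : CoxeterMatrix V} {n : ℕ}

theorem map_mulVec' {m k : Type} [Fintype k] {R : Type} [CommRing R] (A : Matrix m k ℤ) (z : k → ℤ)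
    (i : m) : ((A *ᵥ z) i : R) = (A.map (Int.castRingHom R) *ᵥ fun j => (z j : R)) i := by
  have h := RingHom.map_mulVec (Int.castRingHom R) A z i
  exact h

/-- The fundamental cycle. -/
theorem G2.exists_o (h : G2 M n) : ∃ o : Finset V → ℝ,
    (∀ U, o U ≠ 0 ↔ Sph M U ∧ U.card = n) ∧
      ∀ U : Finset V, ∑ s ∈ Uᶜ, sg U s * o (insert s U) = 0 := by
  rcases n with _ | m
  · refine ⟨fun U => if U = ∅ then 1 else 0, fun U => ?_, fun U => ?_⟩
    · rw [card_eq_zero]
      constructor
      · intro h1
        have h2 : U = ∅ := by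
          by_contra h3
          exact h1 (if_neg h3)
        rw [h2]
        refine ⟨?_, rfl⟩
        unfold Sph WT
        rw [coe_empty, Set.image_empty, Subgroup.closure_empty]
        exact Set.finite_singleton 1
      · rintro ⟨-, h2⟩
        change (if U = ∅ then (1 : ℝ) else 0) ≠ 0
        rw [if_pos h2]
        exact one_ne_zero
    · refine Finset.sum_eq_zero fun s _ => ?_
      change sg U s * (if insert s U = ∅ then (1 : ℝ) else 0) = 0
      rw [if_neg (Finset.insert_ne_empty _ _), mul_zero]
  · have hemp : Sph M ∅ := by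
      unfold Sph WT
      rw [coe_empty, Set.image_empty, Subgroup.closure_empty]
      exact Set.finite_singleton 1
    obtain ⟨oz, h1, h2⟩ := mod2_lift (A := bm (Pc M ∅ m) (Pc M ∅ (m + 1)))
      (B := bm (Pd M ∅ m) (Pc M ∅ m)) bm_bm (h.ex ∅ hemp m (by omega)) (fun _ => 1) (by
        intro U
        have h3 : (((bm (Pc M ∅ m) (Pc M ∅ (m + 1)) *ᵥ fun _ => 1) U : ℤ) : ZMod 2) = 0 := by
          rw [map_mulVec', bm_mulVec, ← h.two U.1 U.2.2.1 (by rw [U.2.2.2])]
          refine Finset.sum_congr rfl fun s hs => ?_
          rw [sgZ_two, one_mul]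
          by_cases h4 : Sph M (insert s U.1)
          · rw [if_pos h4, xt_pos]
            · exact Int.cast_one
            · refine ⟨Finset.empty_subset _, h4, ?_⟩
              rw [Finset.card_insert_of_notMem (mem_compl.1 hs), U.2.2.2]
          · rw [if_neg h4, xt_neg]
            exact fun h5 => h4 h5.2.1
        exact (ZMod.intCast_eq_zero_iff_even).1 h3)
    refine ⟨xt fun U => ((oz U : ℤ) : ℝ), fun U => ?_, fun U => ?_⟩
    · by_cases h3 : Pc M ∅ (m + 1) U
      · rw [xt_pos _ h3]
        have h4 : oz ⟨U, h3⟩ ≠ 0 := by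
          intro h5
          have h6 := h2 ⟨U, h3⟩ odd_one
          rw [h5] at h6
          exact absurd h6 (by decide)
        exact ⟨fun _ => ⟨h3.2.1, h3.2.2⟩, fun _ => by exact_mod_cast h4⟩
      · rw [xt_neg _ h3]
        exact ⟨fun h4 => absurd rfl h4, fun h4 => absurd ⟨Finset.empty_subset _, h4⟩ h3⟩
    · by_cases h3 : Pc M ∅ m U
      · have h4 := map_mulVec' (R := ℝ) (bm (Pc M ∅ m) (Pc M ∅ (m + 1))) oz ⟨U, h3⟩
        rw [h1, bm_mulVec] at h4
        have h5 : ((0 : {U // Pc M ∅ m U} → ℤ) ⟨U, h3⟩ : ℝ) = 0 := Int.cast_zero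
        rw [h5] at h4
        rw [h4]
        exact Finset.sum_congr rfl fun s _ => by rw [sgZ_cast]
      · refine Finset.sum_eq_zero fun s hs => ?_
        rw [xt_neg, mul_zero]
        rintro ⟨-, h4, h5⟩
        refine h3 ⟨Finset.empty_subset _, sph_mono (Finset.subset_insert _ _) h4, ?_⟩
        rw [Finset.card_insert_of_notMem (mem_compl.1 hs)] at h5
        omega

/-- the transposed boundary -/
theorem bm_tr' {T : Finset V} {p : ℕ} {P : Finset V → Prop} (hP : ∀ U, P U → T ⊆ U)
    (y : {U // P U} → ℝ) {Q : Finset V → Prop} (U : {U // Q U}) :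
    ((rR (bm P Q))ᵀ *ᵥ y) U = ∑ s ∈ U.1 \ T, sg (U.1.erase s) s * xt y (U.1.erase s) := by
  rw [bm_tr, ← Finset.sum_subset (Finset.sdiff_subset (s := U.1) (t := T))]
  · exact Finset.sum_congr rfl fun s _ => by rw [sgZ_cast]
  · intro s hs hs'
    have hsT : s ∈ T := by
      by_contra hc
      exact hs' (mem_sdiff.2 ⟨hs, hc⟩)
    rw [xt_neg, mul_zero]
    intro h1
    exact (mem_erase.1 (hP _ h1 hsT)).1 rfl

/-- Homology spheres over `F₂` are real homology spheres. -/
theorem G2.gs (h : G2 M n) : ∃ o, Gs M n o := by
  obtain ⟨o, ho, hcyc⟩ := h.exists_o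
  refine ⟨o, h.le, fun U hU => (ho U).1 hU, hcyc, fun T hT => ?_, ?_⟩
  · obtain ⟨U, h1, h2⟩ := h.pure T hT
    exact ⟨U, h1, (ho U).2 h2⟩
  · intro T hT p a ha1 ha2 ha3
    -- values of the extension
    have hxa : ∀ U, xt (fun U : {U // Pc M T p U} => a U.1) U = a U := by
      intro U
      by_cases h1 : Pc M T p U
      · rw [xt_pos _ h1]
      · rw [xt_neg _ h1]
        by_contra h2
        exact h1 (ha1 U (Ne.symm h2))
    -- the solution from a function on the smaller sets
    have hfin : ∀ y : {U // Pd M T p U} → ℝ, (∀ U : {U // Pc M T p U},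
        ((rR (bm (Pd M T p) (Pc M T p)))ᵀ *ᵥ y) U = a U.1) →
        ∃ b : Finset V → ℝ, (∀ U, b U ≠ 0 → T ⊆ U ∧ Sph M U ∧ U.card + 1 = p) ∧
          ∀ U, T ⊆ U → Sph M U → ∑ s ∈ U \ T, sg (U.erase s) s * b (U.erase s) = a U := by
      intro y hy
      refine ⟨xt y, fun U hU => ?_, fun U hTU hU => ?_⟩
      · by_contra h1
        exact hU (xt_neg y h1)
      · by_cases h1 : U.card = p
        · rw [← hy ⟨U, hTU, hU, h1⟩, bm_tr' (T := T) (p := p) (fun U hU => hU.1)]
        · have h2 : a U = 0 := by
            by_contra h3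
            exact h1 (ha1 U h3).2.2
          rw [h2]
          refine Finset.sum_eq_zero fun s hs => ?_
          rw [xt_neg, mul_zero]
          rintro ⟨-, -, h3⟩
          rw [Finset.card_erase_add_one (mem_sdiff.1 hs).1] at h3
          exact h1 h3
    by_cases hp : p = n
    · subst hp
      obtain ⟨U₀, hU₀⟩ := h.pure T hT
      obtain ⟨B, hB⟩ : ∃ B : Matrix (Option {U // Pd M T p U}) {U // Pc M T p U} ℤ,
          (∀ U, B none U = if U.1 = U₀ then 1 else 0) ∧
            ∀ U' U, B (some U') U = bm (Pd M T p) (Pc M T p) U' U :=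
        ⟨Matrix.of fun i U => i.elim (if U.1 = U₀ then 1 else 0)
          fun U' => bm (Pd M T p) (Pc M T p) U' U, fun _ => rfl, fun _ _ => rfl⟩
      have hemp : IsEmpty {U // Pc M T (p + 1) U} := by
        refine ⟨fun U => ?_⟩
        have h1 := h.le U.1 U.2.2.1
        have h2 := U.2.2.2
        omega
      obtain ⟨y, hy⟩ := mod2_real (A := bm (Pc M T p) (Pc M T (p + 1))) (B := B) (by
          ext i U
          exact hemp.elim U) (by
          intro z hz
          refine ⟨fun U => hemp.elim U, ?_⟩
          have h1 : r2 (bm (Pd M T p) (Pc M T p)) *ᵥ z = 0 := by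
            funext U'
            have h2 := congrFun hz (some U')
            change ∑ U, r2 B (some U') U * z U = 0 at h2
            change ∑ U, r2 (bm (Pd M T p) (Pc M T p)) U' U * z U = 0
            rw [← h2]
            refine Finset.sum_congr rfl fun U _ => ?_
            change (Int.castRingHom (ZMod 2)) (bm (Pd M T p) (Pc M T p) U' U) * _ =
              (Int.castRingHom (ZMod 2)) (B (some U') U) * _
            rw [hB.2]
          have h2 : z ⟨U₀, hU₀⟩ = 0 := by
            have h3 := congrFun hz none
            change ∑ U, (Int.castRingHom (ZMod 2)) (B none U) * z U = 0 at h3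
            rw [Finset.sum_eq_single (⟨U₀, hU₀⟩ : {U // Pc M T p U})] at h3
            · rw [hB.1, if_pos rfl, map_one, one_mul] at h3
              exact h3
            · intro U _ hne
              rw [hB.1, if_neg fun e => hne (Subtype.ext e), map_zero, zero_mul]
            · exact fun h => absurd (mem_univ _) h
          have h3 : z = 0 := by
            rcases h.top T hT z h1 with h4 | h4
            · exact h4
            · rw [h4] at h2
              exact absurd h2 (by decide)
          rw [h3]
          funext U
          change ∑ U', _ = (0 : ZMod 2)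
          exact Finset.sum_eq_zero fun U' _ => hemp.elim U') (fun U => a U.1)
        (funext fun U => hemp.elim U)
      -- the extra coordinate vanishes
      have hval : ∀ U : {U // Pc M T p U}, a U.1 =
          ((rR (bm (Pd M T p) (Pc M T p)))ᵀ *ᵥ fun U' => y (some U')) U +
            (if U.1 = U₀ then y none else 0) := by
        intro U
        have h1 := congrFun hy U
        change ∑ i, (Int.castRingHom ℝ) (B i U) * y i = a U.1 at h1
        rw [← h1, Fintype.sum_option, hB.1, add_comm]
        congr 1
        · refine Finset.sum_congr rfl fun U' _ => ?_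
          rw [hB.2]
          rfl
        · split_ifs
          · rw [map_one, one_mul]
          · rw [map_zero, zero_mul]
      have hlam : y none = 0 := by
        have h1 := ha3 rfl
        have h2 : ∀ U, o U * a U = ∑ s ∈ U, o U * (sg (U.erase s) s *
            xt (fun U' : {U // Pd M T p U} => y (some U')) (U.erase s)) +
            (if U = U₀ then o U₀ * y none else 0) := by
          intro U
          by_cases h3 : Pc M T p U
          · rw [hval ⟨U, h3⟩, mul_add, bm_tr' (T := ∅) (p := p) (fun U _ => Finset.empty_subset U),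
              sdiff_empty, Finset.mul_sum]
            congr 1
            by_cases h4 : U = U₀
            · rw [if_pos h4, if_pos h4, h4]
            · rw [if_neg h4, if_neg h4, mul_zero]
          · have h4 : a U = 0 := by
              by_contra h5
              exact h3 (ha1 U h5)
            rw [h4, mul_zero, if_neg, add_zero]
            · symm
              refine Finset.sum_eq_zero fun s hs => ?_
              by_cases h5 : o U = 0
              · rw [h5, zero_mul]
              · rw [xt_neg, mul_zero, mul_zero]
                rintro ⟨h6, -, -⟩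
                have h7 := (ho U).1 h5
                exact h3 ⟨h6.trans (Finset.erase_subset _ _), h7.1, h7.2⟩
            · rintro rfl
              exact h3 hU₀
        rw [Finset.sum_congr rfl fun U _ => h2 U, Finset.sum_add_distrib] at h1
        have h3 : ∑ U : Finset V, ∑ s ∈ U, o U * (sg (U.erase s) s *
            xt (fun U' : {U // Pd M T p U} => y (some U')) (U.erase s)) = 0 := by
          have h4 : ∑ U : Finset V, ∑ s ∈ U, o U * (sg (U.erase s) s *
              xt (fun U' : {U // Pd M T p U} => y (some U')) (U.erase s)) =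
              ∑ U : Finset V, ∑ s ∈ Uᶜ, xt (fun U' : {U // Pd M T p U} => y (some U')) U *
                (sg U s * o (insert s U)) := by
            rw [Finset.sum_sigma', Finset.sum_sigma']
            refine Finset.sum_nbij' (fun q => ⟨q.1.erase q.2, q.2⟩)
              (fun q => ⟨insert q.2 q.1, q.2⟩) ?_ ?_ ?_ ?_ ?_
            · rintro ⟨U, s⟩ _
              refine mem_sigma.2 ⟨mem_univ _, ?_⟩
              simp
            · rintro ⟨U, s⟩ _
              exact mem_sigma.2 ⟨mem_univ _, mem_insert_self _ _⟩
            · rintro ⟨U, s⟩ h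
              have h2 : s ∈ U := (mem_sigma.1 h).2
              simp [Finset.insert_erase h2]
            · rintro ⟨U, s⟩ h
              have h2 : s ∉ U := by simpa using (mem_sigma.1 h).2
              simp [Finset.erase_insert h2]
            · rintro ⟨U, s⟩ h
              have h2 : s ∈ U := (mem_sigma.1 h).2
              simp only [Finset.insert_erase h2]
              ring
          rw [h4]
          refine Finset.sum_eq_zero fun U _ => ?_
          rw [← Finset.mul_sum, hcyc U, mul_zero]
        rw [h3, zero_add, Finset.sum_ite_eq' univ U₀, if_pos (mem_univ _)] at h1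
        rcases mul_eq_zero.1 h1 with h4 | h4
        · exact absurd h4 ((ho U₀).2 hU₀.2)
        · exact h4
      refine hfin (fun U' => y (some U')) fun U => ?_
      rw [hval U, hlam, ite_self, add_zero]
    · obtain ⟨y, hy⟩ := mod2_real (A := bm (Pc M T p) (Pc M T (p + 1)))
        (B := bm (Pd M T p) (Pc M T p)) bm_bm (h.ex T hT p hp) (fun U => a U.1) (by
        funext U
        rw [bm_tr' (T := T) (p := p) (fun U hU => hU.1)]
        have h1 : ∀ s ∈ U.1 \ T, sg (U.1.erase s) s *
            xt (fun U : {U // Pc M T p U} => a U.1) (U.1.erase s) =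
            sg (U.1.erase s) s * a (U.1.erase s) := fun s _ => by rw [hxa]
        rw [Finset.sum_congr rfl h1]
        exact ha2 U.1 U.2.1 U.2.2.1)
      exact hfin y fun U => congrFun hy U

end LBL
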