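import Pool.Agent.LBU.F2c

/-!
# Project LBU (architect helper40), module F2d: flag homology spheres over `F₂`
-/

namespace LBL

open SCG SNG SCS Finset Matrix
open scoped Classical

variable {V : Type} [LinearOrder V] [Fintype V] {M : CoxeterMatrix V} {G : SimpleGraph V}

omit [LinearOrder V] [Fintype V] in
theorem mem_lks' {S T : Finset V} {x : V} : x ∈ lks S G T ↔ x ∈ S ∧ ∀ t ∈ T, G.Adj t x := by
  simp [lks]

omit [Fintype V] in
theorem clq_union {T K : Finset V} (hT : G.IsClique (T : Set V)) [Fintype V] :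
    (K ⊆ lks univ G T ∧ G.IsClique (K : Set V)) ↔
      Disjoint K T ∧ G.IsClique ((T ∪ K : Finset V) : Set V) := by
  constructor
  · rintro ⟨h1, h2⟩
    refine ⟨?_, ?_⟩
    · rw [Finset.disjoint_left]
      intro x hx hxT
      exact G.irrefl ((mem_lks'.1 (h1 hx)).2 x hxT)
    · intro x hx y hy hne
      rw [mem_coe, mem_union] at hx hy
      rcases hx with hx | hx
      · rcases hy with hy | hy
        · exact hT hx hy hne
        · exact (mem_lks'.1 (h1 hy)).2 x hx
      · rcases hy with hy | hy
        · exact ((mem_lks'.1 (h1 hx)).2 y hy).symm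
        · exact h2 hx hy hne
  · rintro ⟨h1, h2⟩
    refine ⟨fun x hx => mem_lks'.2 ⟨mem_univ _, fun t ht => ?_⟩, fun x hx y hy hne => ?_⟩
    · refine h2 (mem_coe.2 (mem_union_left _ ht)) (mem_coe.2 (mem_union_right _ hx)) ?_
      rintro rfl
      exact Finset.disjoint_left.1 h1 hx ht
    · exact h2 (mem_coe.2 (mem_union_right _ hx)) (mem_coe.2 (mem_union_right _ hy)) hne

section conv

variable {T : Finset V} {p i : ℕ}

/-- the chain of the link -/
noncomputable def cx (T : Finset V) (z : {U // Pc M T p U} → ZMod 2) (K : Finset V) : ZMod 2 :=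
  if Disjoint K T then xt z (T ∪ K) else 0

omit [Fintype V] in
theorem union_sdiff_self' {U : Finset V} (h : T ⊆ U) : T ∪ (U \ T) = U :=
  Finset.union_sdiff_of_subset h

theorem cx_ch (hS : ∀ K : Finset V, Sph M K ↔ G.IsClique (K : Set V)) (hT : Sph M T)
    (hi : i + T.card = p) (z : {U // Pc M T p U} → ZMod 2) :
    IsCh (lks univ G T) G i (cx T z) := by
  intro K hK
  have h1 : Disjoint K T := by
    by_contra h2
    exact hK (if_neg h2)
  have h2 : xt z (T ∪ K) ≠ 0 := by
    unfold cx at hK
    rwa [if_pos h1] at hK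
  have h3 : Pc M T p (T ∪ K) := by
    by_contra h4
    exact h2 (xt_neg z h4)
  have h4 := (clq_union ((hS T).1 hT)).2 ⟨h1, (hS _).1 h3.2.1⟩
  refine ⟨h4.1, h4.2, ?_⟩
  have h5 := h3.2.2
  rw [Finset.card_union_of_disjoint h1.symm] at h5
  omega

theorem cx_cyc {z : {U // Pc M T p U} → ZMod 2}
    (hz : r2 (bm (Pd M T p) (Pc M T p)) *ᵥ z = 0) : dd (cx T z) = 0 := by
  funext K
  change ∑ s ∈ Kᶜ, cx T z (insert s K) = 0
  by_cases hd : Disjoint K T
  · have h1 : ∑ s ∈ Kᶜ, cx T z (insert s K) = ∑ s ∈ (T ∪ K)ᶜ, xt z (insert s (T ∪ K)) := by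
      have h2 : (T ∪ K)ᶜ ⊆ Kᶜ := by
        intro s hs
        rw [mem_compl, mem_union, not_or] at hs
        exact mem_compl.2 hs.2
      rw [← Finset.sum_subset h2]
      · refine Finset.sum_congr rfl fun s hs => ?_
        rw [mem_compl, mem_union, not_or] at hs
        unfold cx
        rw [if_pos (Finset.disjoint_insert_left.2 ⟨hs.1, hd⟩), Finset.union_insert]
      · intro s hs hs'
        rw [mem_compl] at hs
        rw [mem_compl, mem_union, not_not] at hs'
        unfold cx
        rw [if_neg]
        intro h3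
        exact (Finset.disjoint_insert_left.1 h3).1 (hs'.resolve_right hs)
    rw [h1]
    by_cases h3 : Pd M T p (T ∪ K)
    · have h4 := congrFun hz ⟨T ∪ K, h3⟩
      rw [bm_mulVec] at h4
      change _ = (0 : ZMod 2) at h4
      rw [← h4]
      refine Finset.sum_congr rfl fun s _ => ?_
      rw [sgZ_two, one_mul]
    · refine Finset.sum_eq_zero fun s hs => ?_
      refine xt_neg z fun h4 => h3 ⟨Finset.subset_union_left,
        sph_mono (Finset.subset_insert _ _) h4.2.1, ?_⟩
      have h5 := h4.2.2
      rwa [Finset.card_insert_of_notMem (mem_compl.1 hs)] at h5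
  · refine Finset.sum_eq_zero fun s _ => ?_
    unfold cx
    rw [if_neg]
    intro h3
    exact hd (Finset.disjoint_insert_left.1 h3).2

theorem cx_val (z : {U // Pc M T p U} → ZMod 2) (U : {U // Pc M T p U}) :
    cx T z (U.1 \ T) = z U := by
  unfold cx
  rw [if_pos Finset.sdiff_disjoint, Finset.union_sdiff_of_subset U.2.1, xt_pos z U.2]

theorem cx_back (hS : ∀ K : Finset V, Sph M K ↔ G.IsClique (K : Set V)) (hT : Sph M T)
    (hi : i + T.card = p) {z : {U // Pc M T p U} → ZMod 2} {y' : Finset V → ZMod 2}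
    (hy : IsCh (lks univ G T) G (i + 1) y') (hd : dd y' = cx T z) :
    r2 (bm (Pc M T p) (Pc M T (p + 1))) *ᵥ (fun U => y' (U.1 \ T)) = z := by
  funext U
  rw [bm_mulVec, ← cx_val z U, ← hd]
  change _ = ∑ s ∈ (U.1 \ T)ᶜ, y' (insert s (U.1 \ T))
  have hTU := U.2.1
  have h2 : U.1ᶜ ⊆ (U.1 \ T)ᶜ := by
    intro s hs
    rw [mem_compl] at hs
    rw [mem_compl, mem_sdiff]
    exact fun h => hs h.1
  rw [← Finset.sum_subset h2]
  · refine Finset.sum_congr rfl fun s hs => ?_
    rw [mem_compl] at hs
    have hsT : s ∉ T := fun h => hs (hTU h)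
    rw [sgZ_two, one_mul]
    have e : insert s U.1 \ T = insert s (U.1 \ T) := Finset.insert_sdiff_of_notMem _ hsT
    by_cases h3 : Pc M T (p + 1) (insert s U.1)
    · rw [xt_pos _ h3, e]
    · rw [xt_neg _ h3]
      by_contra h4
      obtain ⟨h5, h6, h7⟩ := hy _ (Ne.symm h4)
      have h8 := (clq_union ((hS T).1 hT)).1 ⟨h5, h6⟩
      have h9 : T ∪ insert s (U.1 \ T) = insert s U.1 := by
        rw [Finset.union_insert, Finset.union_sdiff_of_subset hTU]
      rw [h9] at h8
      refine h3 ⟨hTU.trans (Finset.subset_insert _ _), (hS _).2 h8.2, ?_⟩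
      rw [Finset.card_insert_of_notMem hs, U.2.2.2]
  · intro s hs hs'
    rw [mem_compl, mem_sdiff] at hs
    rw [mem_compl, not_not] at hs'
    have hsT : s ∈ T := by
      by_contra hc
      exact hs ⟨hs', hc⟩
    by_contra h4
    obtain ⟨h5, -, -⟩ := hy _ h4
    exact G.irrefl ((mem_lks'.1 (h5 (mem_insert_self _ _))).2 s hsT)

end conv

/-- Two vertices. -/
theorem even_lks (hS : ∀ K : Finset V, Sph M K ↔ G.IsClique (K : Set V)) {n : ℕ}
    (hG : HGor n univ G) {U : Finset V} (hU : Sph M U) (hc : U.card + 1 = n) :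
    ∑ s ∈ Uᶜ, (if Sph M (insert s U) then 1 else 0 : ZMod 2) = 0 := by
  obtain ⟨m, hm, hs1, z, hz1, hz2, hz3, hz4⟩ := hG U (subset_univ _) ((hS U).1 hU)
  obtain rfl : m = 1 := by omega
  obtain ⟨A, hA⟩ : ∃ A, A = lks univ G U := ⟨_, rfl⟩
  rw [← hA] at hz1 hz3 hz4
  have hcl : G.IsClique (U : Set V) := (hS U).1 hU
  -- no edges in the link
  have hno : ∀ K : Finset V, K ⊆ A → G.IsClique (K : Set V) → K.card ≤ 1 := by
    intro K h1 h2
    rw [hA] at h1
    have h3 := (clq_union hcl).1 ⟨h1, h2⟩
    obtain ⟨m', hm', -⟩ := hG (U ∪ K) (subset_univ _) h3.2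
    rw [Finset.card_union_of_disjoint h3.1.symm] at hm'
    omega
  have hbd : ∀ x, IsBd A G 2 x → x = 0 := by
    rintro x ⟨y, hy, rfl⟩
    have h1 : y = 0 := by
      funext K
      by_contra h2
      obtain ⟨h3, h4, h5⟩ := hy K h2
      have h6 := hno K h3 h4
      omega
    rw [h1]
    funext K
    change ∑ s ∈ Kᶜ, (0 : ZMod 2) = 0
    exact Finset.sum_const_zero
  have hz0 : z ≠ 0 := by
    intro h1
    apply hz3
    rw [h1]
    refine ⟨0, fun K hK => absurd rfl hK, ?_⟩
    funext K
    change ∑ s ∈ Kᶜ, (0 : ZMod 2) = 0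
    exact Finset.sum_const_zero
  have hone : ∀ K, z K ≠ 0 → ∃ a ∈ A, K = {a} := by
    intro K hK
    obtain ⟨h1, -, h3⟩ := hz1 K hK
    obtain ⟨a, rfl⟩ := Finset.card_eq_one.1 h3
    exact ⟨a, h1 (mem_singleton_self a), rfl⟩
  obtain ⟨a, haA, hza⟩ : ∃ a ∈ A, z {a} ≠ 0 := by
    have h1 : ∃ K, z K ≠ 0 := by
      by_contra h2
      push Not at h2
      exact hz0 (funext h2)
    obtain ⟨K, hK⟩ := h1
    obtain ⟨a, h2, rfl⟩ := hone K hK
    exact ⟨a, h2, hK⟩
  have hsum : ∑ s : V, z {s} = 0 := by
    have h1 := congrFun hz2 ∅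
    change ∑ s ∈ (∅ : Finset V)ᶜ, z (insert s ∅) = 0 at h1
    rw [compl_empty] at h1
    exact h1
  obtain ⟨b, hba, hzb⟩ : ∃ b, b ≠ a ∧ z {b} ≠ 0 := by
    by_contra h1
    push Not at h1
    rw [Finset.sum_eq_single a (fun b _ hb => h1 b hb) (fun h => absurd (mem_univ _) h)] at hsum
    exact hza hsum
  have hbA : b ∈ A := by
    obtain ⟨c, h1, h2⟩ := hone {b} hzb
    rw [Finset.singleton_injective h2]
    exact h1
  -- all elements
  have hAab : ∀ c ∈ A, c = a ∨ c = b := by
    intro c hcA
    by_cases hca : c = a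
    · exact Or.inl hca
    · right
      obtain ⟨f, hf⟩ : ∃ f : Finset V → ZMod 2, ∀ K, f K =
          (if K = {a} then 1 else 0) + (if K = {c} then 1 else 0) := ⟨_, fun _ => rfl⟩
      have hac : ({a} : Finset V) ≠ {c} := fun e => hca (Finset.singleton_injective e).symm
      have hf1 : IsCh A G 1 f := by
        intro K hK
        rw [hf] at hK
        by_cases h1 : K = {a}
        · rw [h1]
          exact ⟨singleton_subset_iff.2 haA, by simp, card_singleton a⟩
        · by_cases h2 : K = {c}
          · rw [h2]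
            exact ⟨singleton_subset_iff.2 hcA, by simp, card_singleton c⟩
          · rw [if_neg h1, if_neg h2, add_zero] at hK
            exact absurd rfl hK
      have hf2 : dd f = 0 := by
        funext K
        change ∑ s ∈ Kᶜ, f (insert s K) = 0
        by_cases hK : K = ∅
        · subst hK
          rw [compl_empty]
          have h1 : ∀ s : V, f (insert s ∅) = (if s = a then 1 else 0) + (if s = c then 1 else 0) := by
            intro s
            have e0 : insert s (∅ : Finset V) = {s} := by simp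
            rw [hf, e0]
            congr 1
            · by_cases h : s = a
              · rw [h, if_pos rfl, if_pos rfl]
              · rw [if_neg h, if_neg fun e => h (Finset.singleton_injective e)]
            · by_cases h : s = c
              · rw [h, if_pos rfl, if_pos rfl]
              · rw [if_neg h, if_neg fun e => h (Finset.singleton_injective e)]
          rw [Finset.sum_congr rfl fun s _ => h1 s, Finset.sum_add_distrib,
            Finset.sum_ite_eq' univ a, Finset.sum_ite_eq' univ c, if_pos (mem_univ _),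
            if_pos (mem_univ _)]
          decide
        · refine Finset.sum_eq_zero fun s hs => ?_
          by_contra h1
          have h2 := (hf1 _ h1).2.2
          rw [Finset.card_insert_of_notMem (mem_compl.1 hs)] at h2
          have h3 := Finset.card_pos.2 (nonempty_iff_ne_empty.2 hK)
          omega
      have hfa : f {a} = 1 := by
        rw [hf, if_pos rfl, if_neg hac, add_zero]
      rcases hz4 f hf1 hf2 with h1 | h1
      · have h2 := congrFun (hbd f h1) {a}
        rw [hfa] at h2
        exact absurd h2 one_ne_zero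
      · have h2 := congrFun (hbd _ h1) {b}
        change f {b} + z {b} = 0 at h2
        by_contra hcb
        have h3 : f {b} = 0 := by
          rw [hf, if_neg fun e => hba (Finset.singleton_injective e),
            if_neg fun e => hcb (Finset.singleton_injective e).symm, add_zero]
        rw [h3, zero_add] at h2
        exact hzb h2
  have hAe : A = {a, b} := by
    ext c
    rw [mem_insert, mem_singleton]
    constructor
    · exact hAab c
    · rintro (rfl | rfl)
      · exact haA
      · exact hbA
  have hcond : ∀ s ∈ Uᶜ, (if Sph M (insert s U) then 1 else 0 : ZMod 2) =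
      if s ∈ A then 1 else 0 := by
    intro s hs
    have h1 : Sph M (insert s U) ↔ s ∈ A := by
      rw [hS, hA]
      have h2 := clq_union (G := G) (K := {s}) hcl
      constructor
      · intro h3
        refine (h2.2 ⟨?_, ?_⟩).1 (mem_singleton_self s)
        · rw [Finset.disjoint_singleton_left]
          exact mem_compl.1 hs
        · rw [Finset.union_comm, Finset.singleton_union]
          exact h3
      · intro h3
        have h4 := (h2.1 ⟨singleton_subset_iff.2 h3, by simp⟩).2
        rwa [Finset.union_comm, Finset.singleton_union] at h4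
    simp only [h1]
  rw [Finset.sum_congr rfl hcond]
  have hAU : A ⊆ Uᶜ := by
    intro x hx
    rw [hA] at hx
    rw [mem_compl]
    exact fun h => G.irrefl ((mem_lks'.1 hx).2 x h)
  rw [← Finset.sum_filter, Finset.filter_mem_eq_inter, Finset.inter_eq_right.2 hAU, hAe,
    Finset.sum_pair (Ne.symm hba)]
  decide

/-- Flag homology spheres. -/
theorem g2_of_gor (hS : ∀ K : Finset V, Sph M K ↔ G.IsClique (K : Set V)) {n : ℕ}
    (hG : HGor n univ G) : G2 M n := by
  have hle : ∀ U, Sph M U → U.card ≤ n := by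
    intro U hU
    obtain ⟨m, hm, -⟩ := hG U (subset_univ _) ((hS U).1 hU)
    omega
  have hddz : dd (0 : Finset V → ZMod 2) = 0 := by
    funext K
    change ∑ s ∈ Kᶜ, (0 : ZMod 2) = 0
    exact Finset.sum_const_zero
  refine ⟨hle, ?_, ?_, ?_, fun U hU hc => even_lks hS hG hU hc⟩
  · intro T hT p hp z hz
    by_cases hTp : T.card ≤ p
    · obtain ⟨i, hi⟩ : ∃ i, i + T.card = p := ⟨p - T.card, by omega⟩
      obtain ⟨m, hm, hs1, -⟩ := hG T (subset_univ _) ((hS T).1 hT)
      obtain ⟨y', h1, h2⟩ := hs1 i (by omega) (cx T z) (cx_ch hS hT hi z) (cx_cyc hz)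
      exact ⟨_, cx_back hS hT hi h1 h2⟩
    · refine ⟨0, ?_⟩
      rw [Matrix.mulVec_zero]
      funext U
      have h1 := Finset.card_le_card U.2.1
      have h2 := U.2.2.2
      omega
  · intro T hT z hz
    obtain ⟨m, hm, -, z0, hz1, hz2, hz3, hz4⟩ := hG T (subset_univ _) ((hS T).1 hT)
    have hbd : ∀ x, IsBd (lks univ G T) G (m + 1) x → x = 0 := by
      rintro x ⟨y, hy, rfl⟩
      have h1 : y = 0 := by
        funext K
        by_contra h2
        obtain ⟨h3, h4, h5⟩ := hy K h2
        have h6 := (clq_union ((hS T).1 hT)).1 ⟨h3, h4⟩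
        have h7 := hle _ ((hS _).2 h6.2)
        rw [Finset.card_union_of_disjoint h6.1.symm] at h7
        omega
      rw [h1, hddz]
    have hcase : ∀ w : {U // Pc M T n U} → ZMod 2, r2 (bm (Pd M T n) (Pc M T n)) *ᵥ w = 0 →
        w = 0 ∨ cx T w = z0 := by
      intro w hw
      rcases hz4 (cx T w) (cx_ch hS hT hm w) (cx_cyc hw) with h1 | h1
      · left
        funext U
        rw [← cx_val w U, hbd _ h1]
        rfl
      · right
        have h2 := hbd _ h1
        funext K
        have h3 := congrFun h2 K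
        change cx T w K + z0 K = 0 at h3
        have h4 : ∀ a b : ZMod 2, a + b = 0 → a = b := by decide
        exact h4 _ _ h3
    rcases hcase z hz with h1 | h1
    · exact Or.inl h1
    · right
      have hu : r2 (bm (Pd M T n) (Pc M T n)) *ᵥ (fun _ => (1 : ZMod 2)) = 0 := by
        funext U
        rw [bm_mulVec]
        change _ = (0 : ZMod 2)
        rw [← even_lks hS hG U.2.2.1 U.2.2.2]
        refine Finset.sum_congr rfl fun s hs => ?_
        rw [sgZ_two, one_mul]
        by_cases h4 : Sph M (insert s U.1)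
        · rw [if_pos h4, xt_pos]
          refine ⟨U.2.1.trans (Finset.subset_insert _ _), h4, ?_⟩
          rw [Finset.card_insert_of_notMem (mem_compl.1 hs)]
          exact U.2.2.2
        · rw [if_neg h4, xt_neg]
          exact fun h5 => h4 h5.2.1
      intro U
      rcases hcase _ hu with h2 | h2
      · have h3 := congrFun h2 U
        exact absurd h3 one_ne_zero
      · rw [← cx_val z U, h1, ← h2, cx_val]
  · intro T hT
    obtain ⟨m, hm, -, z0, hz1, hz2, hz3, hz4⟩ := hG T (subset_univ _) ((hS T).1 hT)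
    have hz0 : ∃ K, z0 K ≠ 0 := by
      by_contra h2
      push Not at h2
      apply hz3
      rw [show z0 = 0 from funext h2]
      exact ⟨0, fun K hK => absurd rfl hK, hddz⟩
    obtain ⟨K, hK⟩ := hz0
    obtain ⟨h3, h4, h5⟩ := hz1 K hK
    have h6 := (clq_union ((hS T).1 hT)).1 ⟨h3, h4⟩
    refine ⟨T ∪ K, Finset.subset_union_left, (hS _).2 h6.2, ?_⟩
    rw [Finset.card_union_of_disjoint h6.1.symm]
    omega

end LBL
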