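import Pool.Agent.LBU.Hrm
import Pool.Agent.LBU.F2d
import Pool.Agent.LBU.Row

/-!
# Project LBU (architect helper40), module Flg: Coxeter groups with flag nerve, all degrees
-/

namespace LBL

open SCG SNG Finset

variable {V : Type}

theorem cm_ext {M M' : CoxeterMatrix V} (h : ∀ x y, M x y = M' x y) : M = M' := by
  rcases M with ⟨M, a, b, c⟩
  rcases M' with ⟨M', a', b', c'⟩
  have e : M = M' := by
    ext x y
    exact h x y
  subst e
  rfl

/-- The graph of the finite labels. -/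
def fg (M : CoxeterMatrix V) : SimpleGraph V where
  Adj x y := x ≠ y ∧ M x y ≠ 0
  symm := ⟨fun x y h => ⟨h.1.symm, by rw [M.symmetric]; exact h.2⟩⟩
  loopless := ⟨fun x h => h.1 rfl⟩

theorem gr_adj {M : CoxeterMatrix V} {x y : V} : (fg M).Adj x y ↔ x ≠ y ∧ M x y ≠ 0 := Iff.rfl

theorem clq_gr {M : CoxeterMatrix V} {K : Finset V} :
    (∀ x ∈ K, ∀ y ∈ K, M x y ≠ 0) ↔ (fg M).IsClique (K : Set V) := by
  constructor
  · intro h x hx y hy hne
    exact ⟨hne, h x hx y hy⟩
  · intro h x hx y hy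
    by_cases e : x = y
    · rw [e, M.diagonal]
      exact one_ne_zero
    · exact (h (mem_coe.2 hx) (mem_coe.2 hy) e).2

theorem sph_gr {M : CoxeterMatrix V} (hM : ∀ K : Finset V, (∀ x ∈ K, ∀ y ∈ K, M x y ≠ 0) → Sph M K)
    (K : Finset V) : Sph M K ↔ (fg M).IsClique (K : Set V) :=
  ⟨fun h => clq_gr.1 fun _ hx _ hy => sph_ne h hx hy, fun h => hM K (clq_gr.2 h)⟩

variable [Fintype V]

theorem lks_gr {M : CoxeterMatrix V} {K : Finset V} : lks univ (fg M) K = Nb M K := by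
  ext x
  rw [mem_lks', mem_Nb]
  constructor
  · rintro ⟨-, h⟩
    refine ⟨fun hx => (h x hx).1 rfl, fun k hk => ?_⟩
    rw [M.symmetric]
    exact (h k hk).2
  · rintro ⟨h1, h2⟩
    refine ⟨mem_univ _, fun t ht => ⟨fun e => h1 (e ▸ ht), ?_⟩⟩
    rw [M.symmetric]
    exact h2 t ht

theorem sub_ra {M : CoxeterMatrix V} {S : Finset V} :
    sub (ra M) S = raM ((fg M).comap (Function.Embedding.subtype (· ∈ S))) := by
  classical
  refine cm_ext fun x y => ?_
  change ra M x.1 y.1 = raM ((fg M).comap (Function.Embedding.subtype (· ∈ S))) x y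
  by_cases e : x = y
  · rw [e, (ra M).diagonal, (raM _).diagonal]
  · have e' : x.1 ≠ y.1 := fun h => e (Subtype.ext h)
    by_cases h : M x.1 y.1 = 0
    · rw [ra_zero h]
      by_contra h1
      exact (raM_ne e (Ne.symm h1)).2 h
    · rw [ra_ne e' h, raM_two]
      exact ⟨e', h⟩

variable [LinearOrder V]

/-- The links of `Rz` type. -/
theorem nohomd_rz {M : CoxeterMatrix V} {S : Finset V} {m : ℕ} (h : Rz m S (fg M)) {j : ℕ}
    (hj : 2 * j ≠ m) : NoHomD (sub (ra M) S) j := by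
  rw [nohomd_iff, sub_ra]
  refine hh_of_zp (zp_comap _ ?_)
  have e : (univ : Finset {x // x ∈ S}).map (Function.Embedding.subtype (· ∈ S)) = S := by
    ext x
    rw [mem_map]
    constructor
    · rintro ⟨y, -, rfl⟩
      exact y.2
    · intro hx
      exact ⟨⟨x, hx⟩, mem_univ _, rfl⟩
  rw [e]
  exact (rz_z h).1 j (by exact_mod_cast hj)

/-- Reduction to right-angled groups, all degrees. -/
theorem flag_all {M : CoxeterMatrix V} {n : ℕ}
    (hM : ∀ K : Finset V, (∀ x ∈ K, ∀ y ∈ K, M x y ≠ 0) → Sph M K) (hG : HGor n univ (fg M))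
    (h : ∀ K : Finset V, (∀ x ∈ K, ∀ y ∈ K, M x y ≠ 0) → Even K.card →
      ∀ j : ℕ, n < 2 * j + K.card → NoHomD (sub (ra M) (Nb M K)) j) (j : ℕ) (hj : 2 * j ≠ n) :
    NoHomD M j := by
  have hu : ∀ k : ℕ, n < 2 * k → NoHomD M k := fun k hk =>
    red_upper M n hM (fun K hK hev i hi => h K hK hev i (by omega)) k (by omega)
  rcases Nat.lt_or_gt_of_ne hj with h1 | h1
  · obtain ⟨o, ho⟩ := (g2_of_gor (sph_gr hM) hG).gs
    rw [nohomd_iff]
    exact ho.dual (i := j) (k := n - j) (by omega) (nohomd_iff.1 (hu (n - j) (by omega)))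
  · exact hu j h1

/-- Coxeter groups with flag nerve and links of `Rz` type. -/
theorem flag_rz {M : CoxeterMatrix V} {n : ℕ}
    (hM : ∀ K : Finset V, (∀ x ∈ K, ∀ y ∈ K, M x y ≠ 0) → Sph M K) (hG : HGor n univ (fg M))
    (h : ∀ K : Finset V, (fg M).IsClique (K : Set V) → Even K.card →
      ∃ m, m + K.card = n ∧ Rz m (lks univ (fg M) K) (fg M)) (j : ℕ) (hj : 2 * j ≠ n) :
    NoHomD M j := by
  refine flag_all hM hG (fun K hK hev i hi => ?_) j hj
  obtain ⟨m, hm, hr⟩ := h K (clq_gr.1 hK) hev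
  rw [lks_gr] at hr
  exact nohomd_rz hr (by omega)

omit [Fintype V] [LinearOrder V] in
theorem lks_empty (S : Finset V) (G : SimpleGraph V) : lks S G ∅ = S := by
  ext x
  rw [mem_lks']
  simp

omit [Fintype V] in
theorem lks_union (S : Finset V) (G : SimpleGraph V) (T U : Finset V) :
    lks (lks S G T) G U = lks S G (T ∪ U) := by
  ext x
  simp only [mem_lks', mem_union]
  constructor
  · rintro ⟨⟨h1, h2⟩, h3⟩
    exact ⟨h1, fun t ht => ht.elim (h2 t) (h3 t)⟩
  · rintro ⟨h1, h2⟩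
    exact ⟨⟨h1, fun t ht => h2 t (Or.inl ht)⟩, fun t ht => h2 t (Or.inr ht)⟩

/-- Links of flag homology spheres. -/
theorem gor_lks {n : ℕ} {S T : Finset V} {G : SimpleGraph V} (h : HGor n S G) (hT : T ⊆ S)
    (hc : G.IsClique (T : Set V)) : ∃ m, m + T.card = n ∧ HGor m (lks S G T) G := by
  obtain ⟨m, hm, -⟩ := h T hT hc
  refine ⟨m, hm, fun U hU hUc => ?_⟩
  have hd : Disjoint T U := by
    rw [Finset.disjoint_left]
    intro x hx hx'
    exact ((mem_lks'.1 (hU hx')).2 x hx).ne rfl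
  obtain ⟨m', hm', h2⟩ := h (T ∪ U) (union_subset hT fun x hx => (mem_lks'.1 (hU hx)).1) (by
    intro x hx y hy hne
    rw [coe_union, Set.mem_union, mem_coe, mem_coe] at hx hy
    rcases hx with hx | hx
    · rcases hy with hy | hy
      · exact hc (mem_coe.2 hx) (mem_coe.2 hy) hne
      · exact (mem_lks'.1 (hU hy)).2 x hx
    · rcases hy with hy | hy
      · exact ((mem_lks'.1 (hU hx)).2 y hy).symm
      · exact hUc (mem_coe.2 hx) (mem_coe.2 hy) hne)
  rw [card_union_of_disjoint hd] at hm'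
  rw [← lks_union] at h2
  exact ⟨m', by omega, h2⟩

theorem gor_small {n : ℕ} {S : Finset V} {G : SimpleGraph V} (hn : n ≤ 4) (h : HGor n S G)
    {T : Finset V} (hT : T ⊆ S) (hc : G.IsClique (T : Set V)) :
    ∃ m, m + T.card = n ∧ Rz m (lks S G T) G := by
  obtain ⟨m, hm, h1⟩ := gor_lks h hT hc
  exact ⟨m, hm, Rz.small (by omega) h1⟩

theorem red_lks {G : SimpleGraph V} (T : Finset V) : ∀ {n : ℕ} {S : Finset V}, Red n S G →
    T ⊆ S → G.IsClique (T : Set V) → ∃ m : ℕ, m + T.card = n ∧ Red m (lks S G T) G := by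
  induction T using Finset.induction_on with
  | empty =>
    intro n S h _ _
    refine ⟨n, by simp, ?_⟩
    rw [lks_empty]
    exact h
  | insert v T hv ih =>
    intro n S h hTS hc
    obtain ⟨m, rfl, hm⟩ := h.lk_mem (hTS (Finset.mem_insert_self v T))
    obtain ⟨m', hm', hr⟩ := ih hm (fun x hx => mem_lk.2 ⟨hTS (Finset.mem_insert_of_mem hx),
      hc (Finset.mem_coe.2 (Finset.mem_insert_self v T))
        (Finset.mem_coe.2 (Finset.mem_insert_of_mem hx)) (fun e => hv (e ▸ hx))⟩)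
      (hc.subset (Finset.coe_subset.2 (Finset.subset_insert v T)))
    refine ⟨m', ?_, ?_⟩
    · rw [Finset.card_insert_of_notMem hv]
      omega
    · have e : lks S G (insert v T) = lks (lk S G v) G T := by
        ext x
        rw [mem_lks', mem_lks', mem_lk]
        constructor
        · rintro ⟨h1, h2⟩
          exact ⟨⟨h1, h2 v (mem_insert_self _ _)⟩, fun t ht => h2 t (mem_insert_of_mem ht)⟩
        · rintro ⟨⟨h1, h2⟩, h3⟩
          exact ⟨h1, fun t ht => (mem_insert.1 ht).elim (fun e => e ▸ h2) (h3 t)⟩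
      rw [e]
      exact hr

theorem trunc_all {M : CoxeterMatrix V} {n : ℕ}
    (hM : ∀ K : Finset V, (∀ x ∈ K, ∀ y ∈ K, M x y ≠ 0) → Sph M K) (hT : Trunc n univ (fg M))
    (j : ℕ) (hj : 2 * j ≠ n) : NoHomD M j := by
  have hr : Red n univ (fg M) := trunc_red hT
  refine flag_rz hM ((gor_iff _ _ _).1 (rd_gor hr.rd)) (fun K hK _ => ?_) j hj
  obtain ⟨m, hm, h1⟩ := red_lks K hr (subset_univ _) hK
  exact ⟨m, hm, h1.rz⟩

theorem small_all {M : CoxeterMatrix V} {n : ℕ}
    (hM : ∀ K : Finset V, (∀ x ∈ K, ∀ y ∈ K, M x y ≠ 0) → Sph M K) (hn : n ≤ 4)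
    (hG : HGor n univ (fg M)) (j : ℕ) (hj : 2 * j ≠ n) : NoHomD M j :=
  flag_rz hM hG (fun _ hK _ => gor_small hn hG (subset_univ _) hK) j hj

end LBL
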