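import Pool.Agent.LBU.Cub

/-!
# Project LBU (architect helper40), module Redd: the reduction of Coxeter groups with flag nerve to
right-angled Coxeter groups, in the upper half of the degrees
-/

namespace LBL

open SCG SNG SCS Finset

variable {V : Type} [DecidableEq V] {M : CoxeterMatrix V} [Fintype V]

/-- The induction. -/
theorem redw_aux {c : ℤ} (hbase : ∀ (Z K : Finset V), Clq M K → Disjoint K Z → Nb M K ⊆ Z →
    ZW c (Bg M Z) (Xk M K)) : ∀ (n : ℕ) (Z K : Finset V), (Nb M K \ Z).card = n → Clq M K →
      ZW c (Bg M Z) (Xk M K) := by
  classical
  intro n
  induction n using Nat.strong_induction_on with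
  | _ n ih =>
    intro Z K hn hK
    by_cases h1 : ∃ z ∈ K, z ∈ Z
    · obtain ⟨z, hz, hzZ⟩ := h1
      have h2 : Xk M K = insert (Sum.inl z) (insert (Sum.inr z)
          (((Xk M K).erase (Sum.inr z)).erase (Sum.inl z))) := by
        rw [Finset.insert_comm, Finset.insert_erase, Finset.insert_erase]
        · exact inr_mem_Xk.2 hz
        · rw [mem_erase]
          exact ⟨by simp, inl_mem_Xk.2 (Or.inl hz)⟩
      rw [h2]
      refine zw_of_zg ?_
      refine zg_susp (by simp) (by simp) (by simp) (bg_lr0 (Or.inl rfl)) ?_
      intro v hv
      rw [mem_erase, mem_erase] at hv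
      obtain ⟨hv1, hv2, hv3⟩ := hv
      rcases v with x | x
      · have hxz : x ≠ z := fun e => hv1 (by rw [e])
        have hxz0 : M x z ≠ 0 := by
          rcases inl_mem_Xk.1 hv3 with h3 | h3
          · exact hK x h3 z hz
          · exact (mem_Nb.1 h3).2 z hz
        refine ⟨bg_ll2 hxz.symm (by rwa [M.symmetric]) (Or.inl hzZ), ?_⟩
        rw [(Bg M Z).symmetric]
        exact bg_lr hxz hxz0
      · have hxz : x ≠ z := fun e => hv2 (by rw [e])
        have hxz0 : M z x ≠ 0 := hK z hz x (inr_mem_Xk.1 hv3)
        exact ⟨bg_lr hxz.symm hxz0, bg_rr hxz.symm hxz0⟩
    · push Not at h1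
      have hdis : Disjoint K Z := Finset.disjoint_left.2 h1
      by_cases h2 : Nb M K ⊆ Z
      · exact hbase Z K hK hdis h2
      · obtain ⟨y, hy, hyZ⟩ := Finset.not_subset.1 h2
        have hy' := mem_Nb.1 hy
        obtain ⟨A, hA⟩ : ∃ A, A = (Xk M K).erase (Sum.inl y) := ⟨_, rfl⟩
        obtain ⟨B, hB⟩ : ∃ B, B = insert (Sum.inl y) (A.filter fun v => Bg M Z (Sum.inl y) v ≠ 0) :=
          ⟨_, rfl⟩
        have hmA : ∀ v, v ∈ A ↔ v ≠ Sum.inl y ∧ v ∈ Xk M K := by
          intro v
          rw [hA, mem_erase]
        have hmB : ∀ v, v ∈ B ↔ v = Sum.inl y ∨ (v ∈ A ∧ Bg M Z (Sum.inl y) v ≠ 0) := by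
          intro v
          rw [hB, mem_insert, mem_filter]
        have hyX : Sum.inl y ∈ Xk M K := inl_mem_Xk.2 (Or.inr hy)
        have hyA : Sum.inl y ∉ A := fun h3 => ((hmA _).1 h3).1 rfl
        have hAB : A ∪ B = Xk M K := by
          ext v
          rw [mem_union, hmB, hmA]
          constructor
          · rintro (h3 | h3 | h3)
            · exact h3.2
            · rw [h3]
              exact hyX
            · exact h3.1.2
          · intro h3
            by_cases h4 : v = Sum.inl y
            · exact Or.inr (Or.inl h4)
            · exact Or.inl ⟨h4, h3⟩
        have hcA : Sum.inr y ∉ A := by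
          intro h3
          exact hy'.1 (inr_mem_Xk.1 ((hmA _).1 h3).2)
        have hcB : Sum.inr y ∉ B := by
          intro h3
          rcases (hmB _).1 h3 with h4 | h4
          · exact absurd h4 (by simp)
          · exact hcA h4.1
        -- labels of the new vertex
        have hc2 : ∀ v ∈ A, Bg M Z (Sum.inl y) v ≠ 0 → Bg M Z (Sum.inr y) v = 2 := by
          intro v hv h3
          rw [hmA] at hv
          rcases v with x | x
          · have hxy : x ≠ y := fun e => hv.1 (by rw [e])
            rw [(Bg M Z).symmetric]
            refine bg_lr hxy ?_
            rw [M.symmetric]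
            exact bg_ll_ne.1 h3
          · have hxy : y ≠ x := by
              rintro rfl
              exact h3 (bg_lr0 (Or.inl rfl))
            refine bg_rr hxy fun h4 => h3 (bg_lr0 (Or.inr h4))
        have hc0 : ∀ v ∈ Xk M K, Bg M Z (Sum.inl y) v = 0 ∨ v = Sum.inl y →
            Bg M Z (Sum.inr y) v = 0 := by
          intro v hv h3
          rcases v with x | x
          · rw [(Bg M Z).symmetric]
            refine bg_lr0 ?_
            rcases h3 with h3 | h3
            · right
              rw [M.symmetric]
              by_contra h4
              exact bg_ll_ne.2 h4 h3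
            · left
              exact Sum.inl_injective h3
          · have hxK := inr_mem_Xk.1 hv
            exfalso
            rcases h3 with h3 | h3
            · have h4 := bg_lr (Z := Z) (fun e : y = x => hy'.1 (by rw [e]; exact hxK)) (hy'.2 x hxK)
              rw [h4] at h3
              exact two_ne_zero h3
            · exact absurd h3 (by simp)
        rw [← hAB]
        intro j hj
        refine zd_csum hcA hcB ?_ ?_ ?_ ?_ ?_
        · intro v hv
          rw [Finset.mem_inter, hmB] at hv
          rcases hv.2 with h3 | h3
          · rw [h3] at hv
            exact absurd hv.1 hyA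
          · exact hc2 v hv.1 h3.2
        · intro v hv hv'
          rw [hAB] at hv
          refine hc0 v hv ?_
          by_contra h3
          rw [not_or] at h3
          apply hv'
          rw [Finset.mem_inter, hmB, hmA]
          exact ⟨⟨h3.2, hv⟩, Or.inr ⟨⟨h3.2, hv⟩, h3.1⟩⟩
        · intro v hv hv' w hw hw'
          rw [hmB] at hv' hw
          have hw1 : w = Sum.inl y := by
            rcases hw with h3 | h3
            · exact h3
            · exact absurd h3.1 hw'
          rw [hw1, (Bg M Z).symmetric]
          by_contra h3
          exact hv' (Or.inr ⟨hv, h3⟩)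
        · -- the vertex `inl y` replaced by `inr y`
          have h3 : ZW c (Bg M (insert y Z)) (Xk M K) := by
            refine ih _ ?_ (insert y Z) K rfl hK
            rw [← hn]
            refine Finset.card_lt_card ⟨?_, ?_⟩
            · exact Finset.sdiff_subset_sdiff (Finset.Subset.refl _) (Finset.subset_insert _ _)
            · intro h4
              have h5 := h4 (mem_sdiff.2 ⟨hy, hyZ⟩)
              exact (mem_sdiff.1 h5).2 (mem_insert_self _ _)
          obtain ⟨e, he⟩ : ∃ e : V ⊕ V → V ⊕ V, ∀ v, e v = if v = Sum.inr y then Sum.inl y else v :=
            ⟨_, fun _ => rfl⟩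
          have hey : e (Sum.inr y) = Sum.inl y := by rw [he, if_pos rfl]
          have heA : ∀ v ∈ A, e v = v := by
            intro v hv
            rw [he, if_neg]
            rintro rfl
            exact hcA hv
          have him : (insert (Sum.inr y) A).image e = Xk M K := by
            rw [Finset.image_insert, hey, Finset.image_congr (g := id) fun v hv => heA v hv,
              Finset.image_id, hA, Finset.insert_erase hyX]
          rw [zd_image (G' := Bg M (insert y Z)) e ?_ ?_, him]
          · exact h3 j hj
          · intro u hu v hv huv
            rcases mem_insert.1 hu with rfl | hu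
            · rcases mem_insert.1 hv with rfl | hv
              · rfl
              · rw [hey, heA v hv] at huv
                exact absurd hv (by rw [← huv]; exact hyA)
            · rcases mem_insert.1 hv with rfl | hv
              · rw [hey, heA u hu] at huv
                exact absurd hu (by rw [huv]; exact hyA)
              · rwa [heA u hu, heA v hv] at huv
          · have hl : ∀ v ∈ A, Bg M (insert y Z) (Sum.inl y) v = Bg M Z (Sum.inr y) v := by
              intro v hv
              have hv' := (hmA v).1 hv
              by_cases h4 : Bg M Z (Sum.inl y) v = 0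
              · rw [hc0 v hv'.2 (Or.inl h4)]
                rcases v with x | x
                · exact bg_ll0 (by
                    by_contra h5
                    exact bg_ll_ne.2 h5 h4)
                · exact h4
              · rw [hc2 v hv h4]
                refine bg_two (fun e => hv'.1 e.symm) ?_ ?_
                · intro x hx
                  rw [← Sum.inl_injective hx]
                  exact mem_insert_self _ _
                · rcases v with x | x
                  · exact bg_ll_ne.2 (bg_ll_ne.1 h4)
                  · exact h4
            intro u hu v hv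
            rcases mem_insert.1 hu with rfl | hu
            · rcases mem_insert.1 hv with rfl | hv
              · rw [hey, (Bg M (insert y Z)).diagonal, (Bg M Z).diagonal]
              · rw [hey, heA v hv]
                exact hl v hv
            · rcases mem_insert.1 hv with rfl | hv
              · rw [hey, heA u hu, (Bg M (insert y Z)).symmetric, (Bg M Z).symmetric]
                exact hl u hu
              · rw [heA u hu, heA v hv]
                have hu' := ((hmA u).1 hu).1
                have hv' := ((hmA v).1 hv).1
                rcases u with x | x
                · rcases v with z | z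
                  · have hxy : x ≠ y := fun e => hu' (by rw [e])
                    have hzy : z ≠ y := fun e => hv' (by rw [e])
                    by_cases hxz : x = z
                    · rw [hxz, (Bg M (insert y Z)).diagonal, (Bg M Z).diagonal]
                    · by_cases h0 : M x z = 0
                      · rw [bg_ll0 h0, bg_ll0 h0]
                      · by_cases hZ : x ∈ Z ∨ z ∈ Z
                        · rw [bg_ll2 hxz h0 hZ, bg_ll2 hxz h0 (hZ.imp (fun h4 => mem_insert_of_mem h4)
                            fun h4 => mem_insert_of_mem h4)]
                        · rw [not_or] at hZ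
                          rw [bg_ll hxz h0 hZ.1 hZ.2, bg_ll hxz h0]
                          · exact fun h4 => (mem_insert.1 h4).elim hxy hZ.1
                          · exact fun h4 => (mem_insert.1 h4).elim hzy hZ.2
                  · rfl
                · rcases v with z | z
                  · rfl
                  · rfl
        · -- the local system at `insert y K`
          have h3 : insert (Sum.inr y) B = Xk M (insert y K) := by
            ext v
            rw [mem_insert, hmB, hmA]
            rcases v with x | x
            · rw [inl_mem_Xk, inl_mem_Xk, mem_insert]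
              constructor
              · rintro (h4 | h4 | ⟨⟨h4, h5⟩, h6⟩)
                · exact absurd h4 (by simp)
                · exact Or.inl (Or.inl (Sum.inl_injective h4))
                · have hxy : x ≠ y := fun e => h4 (by rw [e])
                  rcases h5 with h5 | h5
                  · exact Or.inl (Or.inr h5)
                  · right
                    rw [mem_Nb] at h5 ⊢
                    refine ⟨?_, ?_⟩
                    · rw [mem_insert, not_or]
                      exact ⟨hxy, h5.1⟩
                    · intro k hk
                      rcases mem_insert.1 hk with rfl | hk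
                      · rw [M.symmetric]
                        exact bg_ll_ne.1 h6
                      · exact h5.2 k hk
              · rintro ((rfl | h4) | h4)
                · exact Or.inr (Or.inl rfl)
                · right
                  right
                  have hxy : x ≠ y := by
                    rintro rfl
                    exact hy'.1 h4
                  exact ⟨⟨fun e => hxy (Sum.inl_injective e), Or.inl h4⟩,
                    bg_ll_ne.2 (hy'.2 x h4)⟩
                · right
                  right
                  rw [mem_Nb, mem_insert, not_or] at h4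
                  refine ⟨⟨fun e => h4.1.1 (Sum.inl_injective e), Or.inr (mem_Nb.2 ⟨h4.1.2,
                    fun k hk => h4.2 k (mem_insert_of_mem hk)⟩)⟩, bg_ll_ne.2 ?_⟩
                  rw [M.symmetric]
                  exact h4.2 y (mem_insert_self _ _)
            · rw [inr_mem_Xk, inr_mem_Xk, mem_insert]
              constructor
              · rintro (h4 | h4 | ⟨⟨h4, h5⟩, h6⟩)
                · exact Or.inl (Sum.inr_injective h4)
                · exact absurd h4 (by simp)
                · exact Or.inr h5
              · rintro (rfl | h4)
                · exact Or.inl rfl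
                · right
                  right
                  refine ⟨⟨by simp, h4⟩, ?_⟩
                  rw [bg_lr (fun e : y = x => hy'.1 (by rw [e]; exact h4)) (hy'.2 x h4)]
                  exact two_ne_zero
          rw [h3]
          refine ih _ ?_ Z (insert y K) rfl ?_ j hj
          · rw [← hn]
            refine Finset.card_lt_card ⟨?_, ?_⟩
            · intro x hx
              rw [mem_sdiff, mem_Nb, mem_insert, not_or] at hx
              rw [mem_sdiff, mem_Nb]
              exact ⟨⟨hx.1.1.2, fun k hk => hx.1.2 k (mem_insert_of_mem hk)⟩, hx.2⟩
            · intro h4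
              have h5 := h4 (mem_sdiff.2 ⟨hy, hyZ⟩)
              rw [mem_sdiff, mem_Nb] at h5
              exact h5.1.1 (mem_insert_self _ _)
          · intro u hu v hv
            rcases mem_insert.1 hu with rfl | hu
            · rcases mem_insert.1 hv with rfl | hv
              · rw [M.diagonal]
                exact one_ne_zero
              · exact hy'.2 v hv
            · rcases mem_insert.1 hv with hvy | hv
              · rw [hvy, M.symmetric]
                exact hy'.2 u hu
              · exact hK u hu v hv


/-- Reduction to right-angled groups in the degrees `j` with `n < 2 j`. -/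
theorem redw (hM : ∀ K, Clq M K → Sph M K) (n : ℤ)
    (h : ∀ K, Clq M K → Even K.card → ∀ j : ℕ, n < 2 * j + K.card → ZD (ra M) (Nb M K) j) :
    ZW n M univ := by
  classical
  have hmain : ZW n (Bg M ∅) (Xk M ∅) := by
    refine redw_aux ?_ _ ∅ ∅ rfl fun x hx => absurd hx (Finset.notMem_empty x)
    intro Z K hK hdis hNb
    obtain ⟨R, hRd⟩ : ∃ R, R = (Nb M K).image (Sum.inl : V → V ⊕ V) := ⟨_, rfl⟩
    have e1 : Xk M K = K.disjSum K ∪ R := by
      rw [hRd]
      ext v
      rcases v with x | x
      · rw [inl_mem_Xk, mem_union, Finset.inl_mem_disjSum, mem_image]
        exact or_congr Iff.rfl ⟨fun h => ⟨x, h, rfl⟩, fun ⟨y, hy, he⟩ => Sum.inl_injective he ▸ hy⟩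
      · rw [inr_mem_Xk, mem_union, Finset.inr_mem_disjSum, mem_image]
        exact ⟨fun h => Or.inl h, fun h => h.elim id fun ⟨y, _, he⟩ => absurd he (by simp)⟩
    have hd : Disjoint (K.disjSum K) R := by
      rw [Finset.disjoint_right, hRd]
      intro v hv hv'
      obtain ⟨x, hx, rfl⟩ := mem_image.1 hv
      exact (mem_Nb.1 hx).1 (Finset.inl_mem_disjSum.1 hv')
    have hR : ∀ r ∈ R, ∀ x ∈ K.disjSum K, Bg M Z r x = 2 := by
      intro r hr v hv
      rw [hRd] at hr
      obtain ⟨x, hx, rfl⟩ := mem_image.1 hr
      have hx' := mem_Nb.1 hx
      rcases v with y | y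
      · rw [Finset.inl_mem_disjSum] at hv
        exact bg_ll2 (fun e => hx'.1 (e ▸ hv)) (hx'.2 y hv) (Or.inl (hNb hx))
      · rw [Finset.inr_mem_disjSum] at hv
        exact bg_lr (fun e => hx'.1 (e ▸ hv)) (hx'.2 y hv)
    rw [e1]
    rcases Nat.even_or_odd K.card with hev | hodd
    · have hc : ZW (n - K.card) (Bg M Z) R := by
        intro j hj
        rw [hRd, ← zd_image (G := ra M) Sum.inl (fun x _ y _ hxy => Sum.inl_injective hxy)]
        · exact h K hK hev j (by omega)
        · intro x hx y hy
          by_cases hxy : x = y
          · rw [hxy, (Bg M Z).diagonal, (ra M).diagonal]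
          · by_cases h0 : M x y = 0
            · rw [bg_ll0 h0, ra_zero h0]
            · rw [bg_ll2 hxy h0 (Or.inl (hNb hx)), ra_ne hxy h0]
      refine (cube hM hc K.card K rfl hK hdis hd hR K (Finset.Subset.refl K)).mono ?_
      obtain ⟨m, hm⟩ := hev
      have h2 : K.card / 2 = m := by omega
      rw [h2, hm]
      push_cast
      omega
    · exact zw_of_zg (cube_top hM hK hdis hodd hd hR)
  have e3 : Xk M ∅ = (univ : Finset V).image Sum.inl := by
    ext v
    rcases v with x | x
    · rw [inl_mem_Xk, mem_image]
      constructor
      · exact fun _ => ⟨x, mem_univ _, rfl⟩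
      · intro _
        right
        rw [mem_Nb]
        exact ⟨Finset.notMem_empty x, fun k hk => absurd hk (Finset.notMem_empty k)⟩
    · rw [inr_mem_Xk, mem_image]
      constructor
      · exact fun hx => absurd hx (Finset.notMem_empty x)
      · rintro ⟨y, -, he⟩
        exact absurd he (by simp)
  intro j hj
  have h1 := hmain j hj
  rw [e3, ← zd_image (G := M) Sum.inl (fun x _ y _ hxy => Sum.inl_injective hxy)] at h1
  · exact h1
  · intro x _ y _
    by_cases hxy : x = y
    · rw [hxy, (Bg M ∅).diagonal, M.diagonal]
    · by_cases h0 : M x y = 0
      · rw [bg_ll0 h0, h0]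
      · exact bg_ll hxy h0 (Finset.notMem_empty x) (Finset.notMem_empty y)

/-- Reduction to right-angled groups, upper half of the degrees. -/
theorem red_upper {V : Type} [Fintype V] [LinearOrder V] (M : CoxeterMatrix V) (n : ℤ)
    (hM : ∀ K : Finset V, (∀ x ∈ K, ∀ y ∈ K, M x y ≠ 0) → Sph M K)
    (h : ∀ K : Finset V, (∀ x ∈ K, ∀ y ∈ K, M x y ≠ 0) → Even K.card →
      ∀ j : ℕ, n < 2 * j + K.card → NoHomD (sub (ra M) (Nb M K)) j) (j : ℕ) (hj : n < 2 * j) :
    NoHomD M j := by
  rw [nohomd_iff_zd]
  refine redw hM n (fun K hK hev i hi => ?_) j (by omega)
  exact zd_iff_nohomd.2 (h K hK hev i hi)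

end LBL
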