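import Pool.Agent.LBU.Zcm
import Pool.Agent.LBU.Redd

/-!
# Project LBU (architect helper40), module Hrm: right-angled Coxeter groups, from the `F₂`-homology
gradient to the square summable homology
-/

namespace LBL

open SCG SNG Finset
open SCS (ell_ext ell_sub ell_add ell_zero ell_norm_sq ell_summable rt rt_apply)
open scoped InnerProductSpace

variable {V : Type} {G : SimpleGraph V}

theorem raM_two {x y : V} (h : G.Adj x y) : raM G x y = 2 := by
  simp [raM, h, h.ne]

theorem raM_ne {x y : V} (hne : x ≠ y) (h : raM G x y ≠ 0) : G.Adj x y := by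
  by_contra h1
  apply h
  simp [raM, h1, hne]

theorem sph_raM [DecidableEq V] {T : Finset V} : Sph (raM G) T ↔ G.IsClique (T : Set V) := by
  constructor
  · intro h x hx y hy hne
    exact raM_ne hne (sph_ne h (mem_coe.1 hx) (mem_coe.1 hy))
  · intro h
    have h1 := sph_add (G := raM G) (C₁ := ∅) sph_empty T (fun c hc y hy hyc => by
      rw [empty_union] at hy
      exact raM_two (h (mem_coe.2 hc) (mem_coe.2 hy) hyc.symm))
    rwa [empty_union] at h1

variable [Fintype V] [LinearOrder V]

/-- The vanishing for right-angled Coxeter groups. -/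
theorem hh_of_zp {i : ℕ} (hz : Zp univ G (i : ℤ)) : HH (raM G) univ i = ⊥ := by
  classical
  rw [eq_bot_iff]
  intro f hf
  rw [mem_HH] at hf
  obtain ⟨hf1, hf2, hf3⟩ := hf
  rw [Submodule.mem_bot]
  obtain ⟨A, hA⟩ := exists_op (α := Finset V × (raM G).Group) (β := Finset V × (raM G).Group)
    (univ : Finset V) (φ := fun s q => (q.1.erase s, q.2))
    (c := fun s q => if (Sph (raM G) q.1 ∧ q.1.card = i + 1) ∧ s ∈ q.1 then
      sg (q.1.erase s) s else 0) (B := fun _ => 1) (by
      intro s q
      split_ifs
      · exact (abs_sg _ _).le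
      · rw [abs_zero]
        exact zero_le_one) (by
      intro s q q' hq hq' he
      have h1 : s ∈ q.1 := by
        by_contra hcon
        exact hq (if_neg fun h => hcon h.2)
      have h2 : s ∈ q'.1 := by
        by_contra hcon
        exact hq' (if_neg fun h => hcon h.2)
      have h3 := congrArg (fun z : Finset V × (raM G).Group => insert s z.1) he
      have h4 := congrArg (fun z : Finset V × (raM G).Group => z.2) he
      change insert s (q.1.erase s) = insert s (q'.1.erase s) at h3
      rw [Finset.insert_erase h1, Finset.insert_erase h2] at h3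
      exact Prod.ext h3 h4)
  obtain ⟨B, hB⟩ := exists_op (α := Finset V × (raM G).Group) (β := Finset V × (raM G).Group)
    (univ : Finset V) (φ := fun s q => (q.1.erase s, q.2 * gn (raM G) s))
    (c := fun s q => if (Sph (raM G) q.1 ∧ q.1.card = i + 1) ∧ s ∈ q.1 then
      sg (q.1.erase s) s else 0) (B := fun _ => 1) (by
      intro s q
      split_ifs
      · exact (abs_sg _ _).le
      · rw [abs_zero]
        exact zero_le_one) (by
      intro s q q' hq hq' he
      have h1 : s ∈ q.1 := by
        by_contra hcon
        exact hq (if_neg fun h => hcon h.2)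
      have h2 : s ∈ q'.1 := by
        by_contra hcon
        exact hq' (if_neg fun h => hcon h.2)
      have h3 := congrArg (fun z : Finset V × (raM G).Group => insert s z.1) he
      have h4 := congrArg (fun z : Finset V × (raM G).Group => z.2) he
      change insert s (q.1.erase s) = insert s (q'.1.erase s) at h3
      rw [Finset.insert_erase h1, Finset.insert_erase h2] at h3
      exact Prod.ext h3 (mul_right_cancel h4))
  obtain ⟨y, hy⟩ : ∃ y, y = A f - B f := ⟨_, rfl⟩
  have hyv : ∀ T g, Sph (raM G) T ∧ T.card = i + 1 → y (T, g) =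
      ∑ s ∈ T, sg (T.erase s) s * (f (T.erase s, g) - f (T.erase s, g * gn (raM G) s)) := by
    intro T g hT
    rw [hy, ell_sub, hA, hB, ← Finset.sum_sub_distrib, ← Finset.sum_subset (Finset.subset_univ T)]
    · refine Finset.sum_congr rfl fun s hs => ?_
      rw [if_pos ⟨hT, hs⟩]
      ring
    · intro s _ hs
      rw [if_neg fun h => hs h.2, zero_mul, zero_mul, sub_zero]
  have hy0 : ∀ T g, ¬ (Sph (raM G) T ∧ T.card = i + 1) → y (T, g) = 0 := by
    intro T g hT
    rw [hy, ell_sub, hA, hB, Finset.sum_eq_zero, Finset.sum_eq_zero, sub_zero]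
    · intro s _
      rw [if_neg fun h => hT h.1, zero_mul]
    · intro s _
      rw [if_neg fun h => hT h.1, zero_mul]
  have hyalt : ∀ T : Finset V, ∀ t ∈ T, ∀ g, y (T, g * gn (raM G) t) = - y (T, g) := by
    intro T t ht g
    by_cases hT : Sph (raM G) T ∧ T.card = i + 1
    · rw [hyv T _ hT, hyv T _ hT, ← Finset.sum_neg_distrib]
      refine Finset.sum_congr rfl fun s hs => ?_
      by_cases hst : s = t
      · subst hst
        rw [mul_assoc, gn_mul_self, mul_one]
        ring
      · have htT : t ∈ T.erase s := mem_erase.2 ⟨Ne.symm hst, ht⟩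
        have hadj : G.Adj t s :=
          (sph_raM.1 hT.1) (mem_coe.2 ht) (mem_coe.2 hs) (Ne.symm hst)
        have hcomm : g * gn (raM G) t * gn (raM G) s = g * gn (raM G) s * gn (raM G) t := by
          rw [mul_assoc, mul_assoc, gn_comm (raM_two hadj)]
        rw [hcomm, (mem_CC.1 hf1).2 _ t htT, (mem_CC.1 hf1).2 _ t htT]
        ring
    · rw [hy0 T _ hT, hy0 T _ hT, neg_zero]
  have hyC : y ∈ CC (raM G) univ (i + 1) := by
    rw [mem_CC]
    exact ⟨fun T hT g => hy0 T g fun h => hT ⟨subset_univ _, h⟩, hyalt⟩
  have hyy : ⟪y, y⟫_ℝ = 2 * ⟪bD (raM G) y, f⟫_ℝ := by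
    rw [inner_fin, bD_adj, Finset.mul_sum]
    refine Finset.sum_congr rfl fun T _ => ?_
    have h1 : ∀ s ∈ T, ∑' g, y (T, g) * f (T.erase s, g * gn (raM G) s) =
        - ∑' g, y (T, g) * f (T.erase s, g) := by
      intro s hs
      rw [← (Equiv.mulRight (gn (raM G) s)).tsum_eq fun g =>
        y (T, g) * f (T.erase s, g * gn (raM G) s), ← tsum_neg]
      refine tsum_congr fun g => ?_
      change y (T, g * gn (raM G) s) * f (T.erase s, g * gn (raM G) s * gn (raM G) s) = _
      rw [hyalt T s hs, mul_assoc, gn_mul_self, mul_one]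
      ring
    have hsm : ∀ s, Summable fun g => y (T, g) * f (T.erase s, g * gn (raM G) s) := by
      intro s
      have h2 := (ell_sm (rt (gn (raM G) s) y) f T (T.erase s)).comp_injective
        (i := fun g => g * gn (raM G) s) (mul_left_injective _)
      refine h2.congr fun g => ?_
      change rt (gn (raM G) s) y (T, g * gn (raM G) s) * _ = _
      rw [rt_apply]
      change y (T, g * gn (raM G) s * gn (raM G) s) * _ = _
      rw [mul_assoc, gn_mul_self, mul_one]
    by_cases hT : Sph (raM G) T ∧ T.card = i + 1
    · have h2 : ∀ g, y (T, g) * y (T, g) = ∑ s ∈ T, sg (T.erase s) s *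
          (y (T, g) * f (T.erase s, g) - y (T, g) * f (T.erase s, g * gn (raM G) s)) := by
        intro g
        conv_lhs => rw [hyv T g hT]
        rw [Finset.sum_mul]
        refine Finset.sum_congr rfl fun s _ => ?_
        rw [← hyv T g hT]
        ring
      simp only [h2]
      rw [Summable.tsum_finsetSum fun s _ => ((ell_sm y f T (T.erase s)).sub (hsm s)).mul_left _,
        Finset.mul_sum]
      refine Finset.sum_congr rfl fun s hs => ?_
      rw [tsum_mul_left, Summable.tsum_sub (ell_sm y f T (T.erase s)) (hsm s), h1 s hs]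
      ring
    · have h2 : ∀ g, y (T, g) = 0 := fun g => hy0 T g hT
      simp only [h2, zero_mul, tsum_zero, mul_zero, Finset.sum_const_zero]
  have hyz : y = 0 := by
    rw [hf3 y hyC, mul_zero] at hyy
    exact inner_self_eq_zero.1 hyy
  have h5 : (fun (T : Finset V) (g : (raM G).Group) => f (T, g)) = 0 := by
    refine singer_of_zp G i hz _ ⟨?_, ?_, ?_, ?_⟩ ?_
    · intro T hT g
      refine (mem_CC.1 hf1).1 T (fun h => hT ⟨sph_raM.1 h.2.1, h.2.2⟩) g
    · exact fun T s hs g => (mem_CC.1 hf1).2 T s hs g
    · intro T g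
      have h6 := bD_apply f T g
      rw [hf2] at h6
      exact h6.symm
    · intro T hT g
      by_cases hc : T.card = i + 1
      · have h7 := hyv T g ⟨sph_raM.2 hT, hc⟩
        rw [hyz] at h7
        exact h7.symm
      · unfold cobd
        refine Finset.sum_eq_zero fun s hs => ?_
        have h8 : ∀ g, f (T.erase s, g) = 0 := by
          intro g
          refine (mem_CC.1 hf1).1 _ (fun h => hc ?_) g
          rw [← h.2.2, Finset.card_erase_add_one hs]
        change sg (T.erase s) s * (f (T.erase s, g) - f (T.erase s, g * gn (raM G) s)) = 0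
        rw [h8, h8, sub_zero, mul_zero]
    · intro T
      exact (ell_summable f).comp_injective (i := fun g => (T, g))
        fun a b hab => congrArg Prod.snd hab
  refine ell_ext fun q => ?_
  exact congrFun (congrFun h5 q.1) q.2

end LBL
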