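import Pool.Agent.SNG.Final3
import Pool.Agent.LBU.F2d

/-!
# Project LBU (architect helper40), module Zcm: vanishing for right-angled Coxeter groups from the class
`Rz`
-/

namespace LBL

open SNG Finset

section comap

variable {V V' : Type} [Fintype V] [DecidableEq V] [Fintype V'] [DecidableEq V'] {P : Type}
  [Group P] (e : V' ↪ V)

/-- restriction -/
private def FF (P : Type) : (Finset V → P → ZMod 2) →ₗ[ZMod 2] (Finset V' → P → ZMod 2) where
  toFun f T g := f (T.map e) g
  map_add' _ _ := rfl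
  map_smul' _ _ := rfl

omit [Fintype V] [DecidableEq V] [DecidableEq V'] in
private theorem map_iff {T : Finset V} :
    T ⊆ (univ : Finset V').map e ↔ ∃ T' : Finset V', T'.map e = T := by
  constructor
  · intro h
    obtain ⟨T', h1, h2⟩ := Finset.subset_map_iff.1 h
    exact ⟨T', h2.symm⟩
  · rintro ⟨T', rfl⟩
    exact Finset.map_subset_map.2 (subset_univ _)

omit [Fintype V] [DecidableEq V] [DecidableEq V'] in
private theorem FF_inj {Y : Submodule (ZMod 2) (Finset V → P → ZMod 2)}
    (hY : ∀ f ∈ Y, ∀ T, ¬ T ⊆ (univ : Finset V').map e → f T = 0) :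
    Module.finrank (ZMod 2) ↥(Y.map (FF e P)) = Module.finrank (ZMod 2) ↥Y := by
  have h1 : Function.Injective ((FF e P).domRestrict Y) := by
    intro f f' h
    refine Subtype.ext (funext fun T => ?_)
    by_cases hT : T ⊆ (univ : Finset V').map e
    · obtain ⟨T', rfl⟩ := (map_iff e).1 hT
      funext g
      exact congrFun (congrFun h T') g
    · rw [hY f.1 f.2 T hT, hY f'.1 f'.2 T hT]
  rw [← LinearMap.finrank_range_of_inj h1, LinearMap.range_domRestrict]

omit [Fintype V] [DecidableEq V] [DecidableEq V'] in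
private theorem clq_map {G : SimpleGraph V} {T : Finset V'} :
    (G.comap e).IsClique (T : Set V') ↔ G.IsClique ((T.map e : Finset V) : Set V) := by
  constructor
  · intro h x hx y hy hne
    rw [mem_coe, mem_map] at hx hy
    obtain ⟨x', hx', rfl⟩ := hx
    obtain ⟨y', hy', rfl⟩ := hy
    exact h hx' hy' fun e' => hne (by rw [e'])
  · intro h x hx y hy hne
    exact h (mem_coe.2 (mem_map_of_mem e hx)) (mem_coe.2 (mem_map_of_mem e hy))
      fun e' => hne (e.injective e')

private theorem sum_map {T : Finset V'} {f : Finset V → P → ZMod 2}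
    (hf : ∀ T, ¬ T ⊆ (univ : Finset V').map e → f T = 0) (g : P) :
    ∑ s ∈ (T.map e)ᶜ, f (insert s (T.map e)) g = ∑ s ∈ Tᶜ, f ((insert s T).map e) g := by
  have h1 : (Tᶜ).map e ⊆ (T.map e)ᶜ := by
    intro x hx
    obtain ⟨y, hy, rfl⟩ := mem_map.1 hx
    rw [mem_compl] at hy ⊢
    rw [mem_map']
    exact hy
  rw [← Finset.sum_subset h1, Finset.sum_map]
  · exact Finset.sum_congr rfl fun s _ => by rw [Finset.map_insert]
  · intro s hs hs'
    rw [hf]
    · rfl
    · intro h2
      have h3 := h2 (mem_insert_self _ _)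
      obtain ⟨y, -, rfl⟩ := mem_map.1 h3
      apply hs'
      rw [mem_compl, mem_map'] at hs
      exact mem_map_of_mem e (mem_compl.2 hs)

private theorem ch_supp {G : SimpleGraph V} {p : V → P} {j : ℤ} {f : Finset V → P → ZMod 2}
    (hf : f ∈ Ch ((univ : Finset V').map e) ∅ G p j) (T : Finset V)
    (hT : ¬ T ⊆ (univ : Finset V').map e) : f T = 0 := hf.1 T fun h => hT h.1

private theorem bd_supp {f : Finset V → P → ZMod 2}
    (hf : ∀ T, ¬ T ⊆ (univ : Finset V').map e → f T = 0) (T : Finset V)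
    (hT : ¬ T ⊆ (univ : Finset V').map e) : bd V P f T = 0 := by
  funext g
  change ∑ s ∈ Tᶜ, f (insert s T) g = 0
  refine Finset.sum_eq_zero fun s _ => ?_
  rw [hf _ fun h => hT ((Finset.subset_insert _ _).trans h)]
  rfl

private theorem ch_map {G : SimpleGraph V} {p : V → P} {j : ℤ} :
    (Ch ((univ : Finset V').map e) ∅ G p j).map (FF e P) =
      Ch univ ∅ (G.comap e) (fun v => p (e v)) j := by
  classical
  ext f'
  rw [Submodule.mem_map]
  constructor
  · rintro ⟨f, hf, rfl⟩
    refine ⟨fun T hT => ?_, fun T s hs g => ?_⟩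
    · funext g
      change f (T.map e) g = 0
      rw [hf.1 (T.map e)]
      · rfl
      · rintro ⟨-, h2, h3⟩
        rw [Finset.card_map] at h3
        exact hT ⟨subset_univ _, (clq_map e).2 h2, h3⟩
    · rw [union_empty] at hs
      exact hf.2 (T.map e) (e s) (by rw [union_empty]; exact mem_map_of_mem e hs) g
  · intro hf'
    refine ⟨fun T g => if h : ∃ T' : Finset V', T'.map e = T then f' h.choose g else 0,
      ⟨fun T hT => ?_, fun T s hs g => ?_⟩, ?_⟩
    · funext g
      by_cases h : ∃ T' : Finset V', T'.map e = T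
      · have h1 := h.choose_spec
        change (if h : ∃ T' : Finset V', T'.map e = T then f' h.choose g else 0) = 0
        rw [dif_pos h, hf'.1]
        · rfl
        · rintro ⟨-, h2, h3⟩
          refine hT ⟨(map_iff e).2 h, ?_, ?_⟩
          · rw [← h1]
            exact (clq_map e).1 h2
          · rw [← h1, Finset.card_map]
            exact h3
      · exact dif_neg h
    · rw [union_empty] at hs
      change (if h : ∃ T' : Finset V', T'.map e = T then f' h.choose (g * p s) else 0) =
        (if h : ∃ T' : Finset V', T'.map e = T then f' h.choose g else 0)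
      by_cases h : ∃ T' : Finset V', T'.map e = T
      · rw [dif_pos h, dif_pos h]
        have h1 := h.choose_spec
        rw [← h1, mem_map] at hs
        obtain ⟨s', hs', rfl⟩ := hs
        exact hf'.2 _ s' (by rw [union_empty]; exact hs') g
      · rw [dif_neg h, dif_neg h]
    · funext T g
      change (if h : ∃ T' : Finset V', T'.map e = T.map e then f' h.choose g else 0) = f' T g
      have h : ∃ T' : Finset V', T'.map e = T.map e := ⟨T, rfl⟩
      rw [dif_pos h, Finset.map_injective e h.choose_spec]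

private theorem FF_bd {f : Finset V → P → ZMod 2}
    (hf : ∀ T, ¬ T ⊆ (univ : Finset V').map e → f T = 0) :
    FF e P (bd V P f) = bd V' P (FF e P f) := by
  funext T g
  exact sum_map e hf g

theorem bt_comap {G : SimpleGraph V} {p : V → P} {j : ℤ} :
    bt univ ∅ (G.comap e) (fun v => p (e v)) j = bt ((univ : Finset V').map e) ∅ G p j := by
  have h1 : (Ch ((univ : Finset V').map e) ∅ G p j ⊓ LinearMap.ker (bd V P)).map (FF e P) =
      Ch univ ∅ (G.comap e) (fun v => p (e v)) j ⊓ LinearMap.ker (bd V' P) := by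
    rw [← ch_map e]
    ext f'
    constructor
    · rintro ⟨f, ⟨h2, h3⟩, rfl⟩
      refine ⟨⟨f, h2, rfl⟩, ?_⟩
      change bd V' P (FF e P f) = 0
      rw [← FF_bd e (ch_supp e h2)]
      have h4 : bd V P f = 0 := h3
      rw [h4, map_zero]
    · rintro ⟨⟨f, h2, rfl⟩, h3⟩
      refine ⟨f, ⟨h2, ?_⟩, rfl⟩
      change bd V P f = 0
      funext T
      by_cases hT : T ⊆ (univ : Finset V').map e
      · obtain ⟨T', rfl⟩ := (map_iff e).1 hT
        have h4 : bd V' P (FF e P f) = 0 := h3
        rw [← FF_bd e (ch_supp e h2)] at h4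
        exact congrFun h4 T'
      · exact bd_supp e (ch_supp e h2) T hT
  have h2 : ((Ch ((univ : Finset V').map e) ∅ G p (j + 1)).map (bd V P)).map (FF e P) =
      (Ch univ ∅ (G.comap e) (fun v => p (e v)) (j + 1)).map (bd V' P) := by
    rw [← ch_map e]
    ext f'
    constructor
    · rintro ⟨_, ⟨f, h2, rfl⟩, rfl⟩
      exact ⟨FF e P f, ⟨f, h2, rfl⟩, (FF_bd e (ch_supp e h2)).symm⟩
    · rintro ⟨_, ⟨f, h2, rfl⟩, rfl⟩
      exact ⟨bd V P f, ⟨f, h2, rfl⟩, FF_bd e (ch_supp e h2)⟩
  unfold bt
  rw [← h1, ← h2, FF_inj e, FF_inj e]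
  · rintro _ ⟨f, hf, rfl⟩ T hT
    exact bd_supp e (ch_supp e hf) T hT
  · rintro f ⟨hf, -⟩ T hT
    exact ch_supp e hf T hT

theorem zp_comap {G : SimpleGraph V} {j : ℤ} (h : Zp ((univ : Finset V').map e) G j) :
    Zp (univ : Finset V') (G.comap e) j := by
  intro m
  obtain ⟨P, i1, i2, p, hP, hD, hm⟩ := h m
  refine ⟨P, i1, i2, fun v => p (e v), hP, ⟨fun v _ => ?_, fun v _ w _ hvw => ?_, ?_⟩, ?_⟩
  · exact hD.sq _ (mem_map_of_mem e (mem_univ v))
  · exact hD.comm _ (mem_map_of_mem e (mem_univ v)) _ (mem_map_of_mem e (mem_univ w)) hvw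
  · obtain ⟨c, hc⟩ := hD.co
    refine ⟨fun v => c (e v), fun v _ w _ g => ?_⟩
    have h1 := hc _ (mem_map_of_mem e (mem_univ v)) _ (mem_map_of_mem e (mem_univ w)) g
    change c (e v) (g * p (e w)) = _
    rw [h1]
    simp only [e.injective.eq_iff]
  · rw [bt_comap e]
    exact hm

end comap

end LBL
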